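import Mathlib

set_option autoImplicit false

open Set Filter Topology NormedSpace

namespace Pool.Agent.Y261.VG

/-! # Abstract factorisation in Banach algebras (Cartan's lemma) -/

section
variable {B₁ B₂ B : Type*} [NormedRing B₁] [NormedAlgebra ℂ B₁] [CompleteSpace B₁]
  [NormedRing B₂] [NormedAlgebra ℂ B₂] [CompleteSpace B₂]
  [NormedRing B] [NormedAlgebra ℂ B] [CompleteSpace B]
  (ρ₁ : B₁ →A[ℂ] B) (ρ₂ : B₂ →A[ℂ] B)

/-- The products `ρ₁ u * ρ₂ v` with `u`, `v` invertible. -/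
def OO : Set B := {g | ∃ u : B₁ˣ, ∃ v : B₂ˣ, g = ρ₁ u * ρ₂ v}

variable {ρ₁ ρ₂}

lemma mem_OO_left {g : B} {a : B₁} (ha : IsUnit a) (h : g = ρ₁ a) : g ∈ OO ρ₁ ρ₂ := by
  obtain ⟨u, hu⟩ := ha
  exact ⟨u, 1, by rw [h, ← hu]; simp⟩

lemma OO_mem_nhds_one (hS : ∀ g : B, ∃ a b, g = ρ₁ a + ρ₂ b) : OO ρ₁ ρ₂ ∈ 𝓝 (1 : B) := by
  let Φ : B₁ × B₂ → B := fun p => ρ₁ (1 + p.1) * ρ₂ (1 + p.2)
  let L₁ : B₁ →L[ℂ] B := ρ₁.toContinuousLinearMap
  let L₂ : B₂ →L[ℂ] B := ρ₂.toContinuousLinearMap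
  have h1 : HasStrictFDerivAt (fun p : B₁ × B₂ => ρ₁ (1 + p.1))
      (L₁.comp (ContinuousLinearMap.fst ℂ B₁ B₂)) 0 := by
    have := L₁.hasStrictFDerivAt.comp (0 : B₁ × B₂)
      ((hasStrictFDerivAt_fst (𝕜 := ℂ) (E := B₁) (F := B₂) (p := 0)).const_add (1 : B₁))
    exact this
  have h2 : HasStrictFDerivAt (fun p : B₁ × B₂ => ρ₂ (1 + p.2))
      (L₂.comp (ContinuousLinearMap.snd ℂ B₁ B₂)) 0 := by
    have := L₂.hasStrictFDerivAt.comp (0 : B₁ × B₂)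
      ((hasStrictFDerivAt_snd (𝕜 := ℂ) (E := B₁) (F := B₂) (p := 0)).const_add (1 : B₂))
    exact this
  have h3 := h1.mul' h2
  have h4 : map Φ (𝓝 0) = 𝓝 (Φ 0) := by
    refine h3.map_nhds_eq_of_surj ?_
    rw [LinearMap.range_eq_top]
    intro g
    obtain ⟨a, b, rfl⟩ := hS g
    refine ⟨(a, b), ?_⟩
    simp [L₁, L₂, add_comm]
  have h5 : Φ 0 = 1 := by simp [Φ]
  rw [h5] at h4
  rw [← h4, mem_map]
  have u1 : {x : B₁ | IsUnit x} ∈ 𝓝 (1 : B₁) := Units.isOpen.mem_nhds isUnit_one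
  have u2 : {x : B₂ | IsUnit x} ∈ 𝓝 (1 : B₂) := Units.isOpen.mem_nhds isUnit_one
  have c1 : Tendsto (fun p : B₁ × B₂ => 1 + p.1) (𝓝 0) (𝓝 (1 : B₁)) := by
    have : Continuous (fun p : B₁ × B₂ => 1 + p.1) := by fun_prop
    simpa using this.tendsto 0
  have c2 : Tendsto (fun p : B₁ × B₂ => 1 + p.2) (𝓝 0) (𝓝 (1 : B₂)) := by
    have : Continuous (fun p : B₁ × B₂ => 1 + p.2) := by fun_prop
    simpa using this.tendsto 0
  filter_upwards [c1 u1, c2 u2] with p hp1 hp2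
  obtain ⟨u, hu⟩ := hp1
  obtain ⟨v, hv⟩ := hp2
  exact ⟨u, v, by simp only [Φ]; rw [hu, hv]⟩

/-- a neighbourhood of `1` consists of exponentials -/
lemma exp_nhds_one : range (exp : B → B) ∈ 𝓝 (1 : B) := by
  have h := (hasStrictFDerivAt_exp_zero (𝕂 := ℂ) (𝔸 := B)).map_nhds_eq_of_surj
    (by rw [LinearMap.range_eq_top]; exact fun x => ⟨x, rfl⟩)
  rw [exp_zero] at h
  rw [← h, mem_map]
  exact Filter.univ_mem' fun x => ⟨x, rfl⟩

lemma OO_mul_exp (hS : ∀ g : B, ∃ a b, g = ρ₁ a + ρ₂ b) (hD : DenseRange ρ₂) {g : B}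
    (hg : g ∈ OO ρ₁ ρ₂) (h : B) : g * exp h ∈ OO ρ₁ ρ₂ := by
  let _ : NormedAlgebra ℚ B := NormedAlgebra.restrictScalars ℚ ℂ B
  let _ : NormedAlgebra ℚ B₂ := NormedAlgebra.restrictScalars ℚ ℂ B₂
  obtain ⟨u, v, rfl⟩ := hg
  have h1 : Tendsto (fun H : B => ρ₂ v * (exp h * exp (-H)) * ρ₂ (v⁻¹ : B₂ˣ)) (𝓝 h) (𝓝 1) := by
    have hc : Continuous (fun H : B => ρ₂ v * (exp h * exp (-H)) * ρ₂ (v⁻¹ : B₂ˣ)) := by fun_prop
    have h2 := hc.tendsto h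
    have h3 : exp h * exp (-h) = 1 := by
      rw [← exp_add_of_commute (Commute.neg_right (Commute.refl h))]; simp
    have h4 : ρ₂ v * (exp h * exp (-h)) * ρ₂ (v⁻¹ : B₂ˣ) = 1 := by
      rw [h3, mul_one, ← map_mul]; simp
    rwa [h4] at h2
  obtain ⟨H, hH⟩ := hD.exists_mem_open (isOpen_interior (s := _)) (s := interior
    ((fun H : B => ρ₂ v * (exp h * exp (-H)) * ρ₂ (v⁻¹ : B₂ˣ)) ⁻¹' OO ρ₁ ρ₂))
    ⟨h, mem_interior_iff_mem_nhds.2 (h1 (OO_mem_nhds_one hS))⟩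
  obtain ⟨a, b, hab⟩ := interior_subset hH
  obtain ⟨e, he⟩ := isUnit_exp H
  refine ⟨u * a, b * v * e, ?_⟩
  have h5 : exp (-ρ₂ H) * ρ₂ e = 1 := by
    rw [he, map_exp ρ₂ ρ₂.continuous, ← exp_add_of_commute (Commute.neg_left (Commute.refl _))]
    simp
  have h6 : ρ₂ (v⁻¹ : B₂ˣ) * ρ₂ v = 1 := by rw [← map_mul]; simp
  have h7 : ρ₂ v * exp h = ρ₁ a * ρ₂ b * ρ₂ v * ρ₂ e := by
    rw [← hab]
    calc ρ₂ v * exp h = ρ₂ v * (exp h * (exp (-ρ₂ H) * ρ₂ e)) := by rw [h5, mul_one]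
      _ = ρ₂ v * (exp h * exp (-ρ₂ H)) * (ρ₂ (v⁻¹ : B₂ˣ) * ρ₂ v) * ρ₂ e := by
          rw [h6]; simp only [mul_one, mul_assoc]
      _ = _ := by simp only [mul_assoc]
  rw [mul_assoc, h7]
  simp [mul_assoc]

/-- Cartan's lemma, abstract form: an element which can be joined to an element of `OO` by a path
of invertible elements is in `OO`. -/
theorem OO_of_path (hS : ∀ g : B, ∃ a b, g = ρ₁ a + ρ₂ b) (hD : DenseRange ρ₂)
    {γ : unitInterval → B} (hc : Continuous γ) (hu : ∀ s, IsUnit (γ s))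
    (h0 : γ 0 ∈ OO ρ₁ ρ₂) : γ 1 ∈ OO ρ₁ ρ₂ := by
  -- nearby points : membership is equivalent
  have key : ∀ s, ∀ᶠ s' in 𝓝 s, (γ s' ∈ OO ρ₁ ρ₂) = (γ s ∈ OO ρ₁ ρ₂) := by
    intro s
    have hcs : ContinuousAt γ s := hc.continuousAt
    have hci : ContinuousAt (fun s' => Ring.inverse (γ s')) s := by
      obtain ⟨u, hu⟩ := hu s
      have := NormedRing.inverse_continuousAt u
      rw [hu] at this
      exact ContinuousAt.comp (f := γ) this hcs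
    have t1 : Tendsto (fun s' => Ring.inverse (γ s) * γ s') (𝓝 s) (𝓝 1) := by
      have : Tendsto (fun s' => Ring.inverse (γ s) * γ s') (𝓝 s)
        (𝓝 (Ring.inverse (γ s) * γ s)) := tendsto_const_nhds.mul hcs
      rwa [Ring.inverse_mul_cancel _ (hu s)] at this
    have t2 : Tendsto (fun s' => Ring.inverse (γ s') * γ s) (𝓝 s) (𝓝 1) := by
      have : Tendsto (fun s' => Ring.inverse (γ s') * γ s) (𝓝 s)
        (𝓝 (Ring.inverse (γ s) * γ s)) := Tendsto.mul hci tendsto_const_nhds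
      rwa [Ring.inverse_mul_cancel _ (hu s)] at this
    filter_upwards [t1 exp_nhds_one, t2 exp_nhds_one] with s' h1 h2
    obtain ⟨x, hx⟩ := h1
    obtain ⟨y, hy⟩ := h2
    apply propext
    constructor
    · intro h
      have : γ s = γ s' * exp y := by
        rw [hy, ← mul_assoc, Ring.mul_inverse_cancel _ (hu s'), one_mul]
      rw [this]
      exact OO_mul_exp hS hD h y
    · intro h
      have : γ s' = γ s * exp x := by
        rw [hx, ← mul_assoc, Ring.mul_inverse_cancel _ (hu s), one_mul]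
      rw [this]
      exact OO_mul_exp hS hD h x
  have hl : IsLocallyConstant (fun s => (γ s ∈ OO ρ₁ ρ₂)) :=
    (IsLocallyConstant.iff_eventually_eq _).2 key
  have := hl.apply_eq_of_preconnectedSpace 1 0
  exact this.symm ▸ h0

end

end Pool.Agent.Y261.VG
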