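import Mathlib
import Pool.Agent.Y261.VG.Abs

set_option autoImplicit false
set_option linter.unusedSectionVars false
set_option linter.style.haveILetI false

open Set Filter Topology Metric

namespace Pool.Agent.Y261.VG

/-! # Spaces of continuous functions on a compact set which are holomorphic inside -/

/-- Continuous on `K` and holomorphic inside. -/
def CH {W : Type*} [NormedAddCommGroup W] [NormedSpace ℂ W] (K : Set ℂ) (F : ℂ → W) : Prop :=
  ContinuousOn F K ∧ DifferentiableOn ℂ F (interior K)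

section
variable {K : Set ℂ} {W : Type*} [NormedAddCommGroup W] [NormedSpace ℂ W]

open Classical in
/-- extension by zero -/
noncomputable def ext0 (f : C(K, W)) : ℂ → W := fun x => if h : x ∈ K then f ⟨x, h⟩ else 0

lemma ext0_apply (f : C(K, W)) {x : ℂ} (h : x ∈ K) : ext0 f x = f ⟨x, h⟩ := by
  simp [ext0, h]

lemma continuousOn_ext0 (f : C(K, W)) : ContinuousOn (ext0 f) K := by
  rw [continuousOn_iff_continuous_domRestrict]
  have : K.domRestrict (ext0 f) = f := by
    ext x; exact ext0_apply f x.2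
  rw [this]; exact f.continuous

lemma CH.mono {F : ℂ → W} {L : Set ℂ} (h : CH K F) (hL : L ⊆ K) : CH L F :=
  ⟨h.1.mono hL, h.2.mono (interior_mono hL)⟩

lemma CH.congr {F G : ℂ → W} (h : CH K F) (hFG : ∀ x ∈ K, G x = F x) : CH K G :=
  ⟨h.1.congr hFG, h.2.congr fun x hx => hFG x (interior_subset hx)⟩

variable (K W) in
/-- the space `A(K; W)` -/
noncomputable def holSub : Submodule ℂ C(K, W) where
  carrier := {f | CH K (ext0 f)}
  add_mem' {f g} hf hg := by
    refine CH.congr (F := fun x => ext0 f x + ext0 g x) ⟨hf.1.add hg.1, hf.2.add hg.2⟩ ?_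
    intro x hx; simp [ext0_apply _ hx]
  zero_mem' := by
    refine CH.congr (F := fun _ => 0) ⟨continuousOn_const, differentiableOn_const _⟩ ?_
    intro x hx; simp [ext0_apply _ hx]
  smul_mem' c f hf := by
    refine CH.congr (F := fun x => c • ext0 f x) ⟨hf.1.const_smul c, hf.2.const_smul c⟩ ?_
    intro x hx; simp [ext0_apply _ hx]

lemma mem_holSub {f : C(K, W)} : f ∈ holSub K W ↔ CH K (ext0 f) := Iff.rfl

/-- Element of `C(K, W)` given by a function -/
noncomputable def mkC {F : ℂ → W} (h : ContinuousOn F K) : C(K, W) :=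
  ⟨K.domRestrict F, continuousOn_iff_continuous_domRestrict.1 h⟩

lemma mkC_apply {F : ℂ → W} (h : ContinuousOn F K) (x : K) : mkC h x = F x := rfl

lemma mkC_mem {F : ℂ → W} (h : CH K F) : mkC h.1 ∈ holSub K W :=
  h.congr fun x hx => by rw [ext0_apply _ hx]; rfl

lemma isClosed_holSub [CompactSpace K] [CompleteSpace W] :
    IsClosed (holSub K W : Set C(K, W)) := by
  refine isClosed_of_closure_subset fun f hf => ?_
  obtain ⟨u, hu, hlim⟩ := mem_closure_iff_seq_limit.1 hf
  refine ⟨continuousOn_ext0 f, ?_⟩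
  have h1 : TendstoUniformlyOn (fun n => ext0 (u n)) (ext0 f) atTop K := by
    rw [Metric.tendstoUniformlyOn_iff]
    intro ε hε
    have h2 := (Metric.tendsto_nhds.1 hlim) ε hε
    filter_upwards [h2] with n hn x hx
    rw [ext0_apply _ hx, ext0_apply _ hx, dist_comm]
    exact (ContinuousMap.dist_apply_le_dist _).trans_lt hn
  exact ((h1.mono interior_subset).tendstoLocallyUniformlyOn).differentiableOn
    (Eventually.of_forall fun n => (hu n).2) isOpen_interior

instance [CompactSpace K] [CompleteSpace W] : CompleteSpace (holSub K W) :=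
  isClosed_holSub.completeSpace_coe

end

section alg
variable {K : Set ℂ} {W : Type*} [NormedRing W] [NormedAlgebra ℂ W]

variable (K W) in
/-- the algebra `A(K; W)` -/
noncomputable def holAlg : Subalgebra ℂ C(K, W) where
  carrier := {f | CH K (ext0 f)}
  add_mem' {f g} hf hg := (holSub K W).add_mem hf hg
  mul_mem' {f g} hf hg := by
    refine CH.congr (F := fun x => ext0 f x * ext0 g x) ⟨hf.1.mul hg.1, hf.2.mul hg.2⟩ ?_
    intro x hx; simp [ext0_apply _ hx]
  algebraMap_mem' c := by
    refine CH.congr (F := fun _ => algebraMap ℂ W c)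
      ⟨continuousOn_const, differentiableOn_const _⟩ ?_
    intro x hx; rw [ext0_apply _ hx]; rfl

lemma mem_holAlg {f : C(K, W)} : f ∈ holAlg K W ↔ CH K (ext0 f) := Iff.rfl

lemma mkC_mem_alg {F : ℂ → W} (h : CH K F) : mkC h.1 ∈ holAlg K W := mkC_mem h

/-- The Banach algebra `A(K; W)`, as a separate type. -/
def HA (K : Set ℂ) (W : Type*) [NormedRing W] [NormedAlgebra ℂ W] : Type _ := holAlg K W

noncomputable instance [CompactSpace K] : NormedRing (HA K W) :=
  Subalgebra.normedRing (holAlg K W)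

noncomputable instance [CompactSpace K] : NormedAlgebra ℂ (HA K W) :=
  Subalgebra.toNormedAlgebra (holAlg K W)

instance [CompactSpace K] [CompleteSpace W] : CompleteSpace (HA K W) :=
  (isClosed_holSub (K := K) (W := W)).completeSpace_coe

namespace HA

/-- the underlying continuous function -/
def toC (f : HA K W) : C(K, W) := f.1

lemma ch (f : HA K W) : CH K (ext0 f.toC) := f.2

@[ext] lemma ext' {f g : HA K W} (h : ∀ x, f.toC x = g.toC x) : f = g :=
  Subtype.ext (ContinuousMap.ext h)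

lemma toC_one [CompactSpace K] (x : K) : (1 : HA K W).toC x = 1 := rfl
lemma toC_mul [CompactSpace K] (f g : HA K W) (x : K) : (f * g).toC x = f.toC x * g.toC x := rfl
lemma toC_add [CompactSpace K] (f g : HA K W) (x : K) : (f + g).toC x = f.toC x + g.toC x := rfl
lemma toC_zero [CompactSpace K] (x : K) : (0 : HA K W).toC x = 0 := rfl
lemma toC_alg [CompactSpace K] (c : ℂ) (x : K) :
    (algebraMap ℂ (HA K W) c).toC x = algebraMap ℂ W c := rfl

lemma continuous_iff {T : Type*} [TopologicalSpace T] [CompactSpace K] {γ : T → HA K W} :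
    Continuous γ ↔ Continuous (fun t => (γ t).toC) :=
  Topology.IsInducing.subtypeVal.continuous_iff

lemma continuous_toC [CompactSpace K] : Continuous (toC : HA K W → C(K, W)) :=
  continuous_subtype_val

lemma dist_eq [CompactSpace K] (f g : HA K W) : dist f g = dist f.toC g.toC := rfl

end HA

/-- element of the algebra given by a function -/
noncomputable def mkA {F : ℂ → W} (h : CH K F) : HA K W := ⟨mkC h.1, mkC_mem_alg h⟩

lemma mkA_apply {F : ℂ → W} (h : CH K F) (x : K) : (mkA h).toC x = F x := rfl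

/-- restriction -/
noncomputable def restA {L : Set ℂ} [CompactSpace K] [CompactSpace L] (hL : L ⊆ K) :
    HA K W →ₐ[ℂ] HA L W where
  toFun f := mkA (F := ext0 f.toC) (f.ch.mono hL)
  map_one' := by
    ext x; rw [mkA_apply, ext0_apply _ (hL x.2), HA.toC_one, HA.toC_one]
  map_mul' f g := by
    ext x
    rw [HA.toC_mul, mkA_apply, mkA_apply, mkA_apply, ext0_apply _ (hL x.2),
      ext0_apply _ (hL x.2), ext0_apply _ (hL x.2), HA.toC_mul]
  map_zero' := by
    ext x; rw [mkA_apply, ext0_apply _ (hL x.2), HA.toC_zero, HA.toC_zero]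
  map_add' f g := by
    ext x
    rw [HA.toC_add, mkA_apply, mkA_apply, mkA_apply, ext0_apply _ (hL x.2),
      ext0_apply _ (hL x.2), ext0_apply _ (hL x.2), HA.toC_add]
  commutes' c := by
    ext x
    rw [mkA_apply, ext0_apply _ (hL x.2), HA.toC_alg, HA.toC_alg]

lemma restA_apply {L : Set ℂ} [CompactSpace K] [CompactSpace L] (hL : L ⊆ K) (f : HA K W)
    (x : L) : (restA hL f).toC x = f.toC ⟨x, hL x.2⟩ :=
  ext0_apply _ (hL x.2)

lemma continuous_restA {L : Set ℂ} [CompactSpace K] [CompactSpace L] (hL : L ⊆ K) :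
    Continuous (restA (W := W) hL) := by
  rw [HA.continuous_iff]
  have h1 : Continuous (fun f : HA K W =>
      f.toC.comp ⟨fun x : L => (⟨x, hL x.2⟩ : K), by fun_prop⟩) :=
    (ContinuousMap.continuous_precomp _).comp HA.continuous_toC
  refine h1.congr fun f => ?_
  ext x
  exact (restA_apply hL f x).symm

/-- restriction as a continuous homomorphism -/
noncomputable def restCA {L : Set ℂ} [CompactSpace K] [CompactSpace L] (hL : L ⊆ K) :
    HA K W →A[ℂ] HA L W := ⟨restA hL, continuous_restA hL⟩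

lemma restCA_apply {L : Set ℂ} [CompactSpace K] [CompactSpace L] (hL : L ⊆ K) (f : HA K W)
    (x : L) : (restCA hL f).toC x = f.toC ⟨x, hL x.2⟩ := restA_apply hL f x

lemma CH.inverse [CompleteSpace W] {F : ℂ → W} (h : CH K F) (hu : ∀ x ∈ K, IsUnit (F x)) :
    CH K (fun x => Ring.inverse (F x)) := by
  constructor
  · intro x hx
    obtain ⟨u, hu⟩ := hu x hx
    have := NormedRing.inverse_continuousAt u
    rw [hu] at this
    exact this.comp_continuousWithinAt (h.1 x hx)
  · intro x hx
    exact (differentiableAt_inverse (𝕜 := ℂ) (hu x (interior_subset hx))).comp_differentiableWithinAt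
      x (h.2 x hx)

lemma isUnit_mkA [CompactSpace K] [CompleteSpace W] {F : ℂ → W} (h : CH K F)
    (hu : ∀ x ∈ K, IsUnit (F x)) : IsUnit (mkA h) := by
  rw [isUnit_iff_exists]
  refine ⟨mkA (h.inverse hu), ?_, ?_⟩
  · ext x
    rw [HA.toC_mul, mkA_apply, mkA_apply, HA.toC_one]
    exact Ring.mul_inverse_cancel _ (hu x x.2)
  · ext x
    rw [HA.toC_mul, mkA_apply, mkA_apply, HA.toC_one]
    exact Ring.inverse_mul_cancel _ (hu x x.2)

lemma isUnit_eval [CompactSpace K] {f : HA K W} (hf : IsUnit f) (x : K) : IsUnit (f.toC x) := by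
  rw [isUnit_iff_exists] at hf ⊢
  obtain ⟨b, hab, hba⟩ := hf
  refine ⟨b.toC x, ?_, ?_⟩
  · rw [← HA.toC_mul, hab, HA.toC_one]
  · rw [← HA.toC_mul, hba, HA.toC_one]

/-- **Cartan's lemma** for a pair of compact sets for which the additive problem is solvable and
approximation is possible. -/
theorem cartan_general [CompleteSpace W] {K₁ K₂ N : Set ℂ} (hK₁ : IsCompact K₁)
    (hK₂ : IsCompact K₂) (hN : IsCompact N) (h1 : N ⊆ K₁) (h2 : N ⊆ K₂) (hconv : Convex ℝ N)
    {c : ℂ} (hc : c ∈ interior N)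
    (hS : ∀ f : ℂ → W, CH N f → ∃ f₁ f₂ : ℂ → W, CH K₁ f₁ ∧ CH K₂ f₂ ∧ ∀ x ∈ N, f x = f₁ x + f₂ x)
    (hD : ∀ f : ℂ → W, CH N f → ∀ ε > 0, ∃ F : ℂ → W, CH K₂ F ∧ ∀ x ∈ N, ‖F x - f x‖ < ε)
    {G : ℂ → W} (hG : CH N G) (hGu : ∀ x ∈ N, IsUnit (G x)) :
    ∃ A₁ A₂ : ℂ → W, CH K₁ A₁ ∧ CH K₂ A₂ ∧ (∀ x ∈ K₁, IsUnit (A₁ x)) ∧
      (∀ x ∈ K₂, IsUnit (A₂ x)) ∧ ∀ x ∈ N, G x = A₁ x * A₂ x := by
  haveI : CompactSpace K₁ := isCompact_iff_compactSpace.1 hK₁
  haveI : CompactSpace K₂ := isCompact_iff_compactSpace.1 hK₂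
  haveI : CompactSpace N := isCompact_iff_compactSpace.1 hN
  have hcN : c ∈ N := interior_subset hc
  -- the path
  have hmem : ∀ s : unitInterval, ∀ x ∈ N, c + (s : ℂ) * (x - c) ∈ N := by
    intro s x hx
    have := hconv hcN hx (sub_nonneg.2 s.2.2) s.2.1 (by ring)
    have e : c + (s : ℂ) * (x - c) = (1 - (s : ℝ)) • c + (s : ℝ) • x := by
      simp only [Complex.real_smul]; push_cast; ring
    rw [e]; exact this
  have hmem' : ∀ s : unitInterval, ∀ x ∈ interior N, c + (s : ℂ) * (x - c) ∈ interior N := by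
    intro s x hx
    have := hconv.interior hc hx (sub_nonneg.2 s.2.2) s.2.1 (by ring)
    have e : c + (s : ℂ) * (x - c) = (1 - (s : ℝ)) • c + (s : ℝ) • x := by
      simp only [Complex.real_smul]; push_cast; ring
    rw [e]; exact this
  have hCH : ∀ s : unitInterval, CH N (fun x => G (c + (s : ℂ) * (x - c))) := by
    intro s
    refine ⟨hG.1.comp (by fun_prop) (hmem s), ?_⟩
    exact hG.2.comp (f := fun x : ℂ => c + (s : ℂ) * (x - c)) (by fun_prop) (hmem' s)
  let γ : unitInterval → HA N W := fun s => mkA (hCH s)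
  have hγc : Continuous γ := by
    rw [HA.continuous_iff]
    refine ContinuousMap.continuous_of_continuous_uncurry _ ?_
    have hcont : Continuous (fun q : unitInterval × N => c + ((q.1 : ℝ) : ℂ) * ((q.2 : ℂ) - c)) := by
      fun_prop
    exact hG.1.comp_continuous hcont (fun q => hmem q.1 q.2 q.2.2)
  have hγu : ∀ s, IsUnit (γ s) := fun s => isUnit_mkA (hCH s) fun x hx => hGu _ (hmem s x hx)
  have hS' : ∀ g : HA N W, ∃ a b, g = restCA h1 a + restCA h2 b := by
    intro g
    obtain ⟨f₁, f₂, hf₁, hf₂, hf⟩ := hS (ext0 g.toC) g.ch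
    refine ⟨mkA hf₁, mkA hf₂, ?_⟩
    ext x
    have := hf x x.2
    rw [ext0_apply _ x.2] at this
    rw [HA.toC_add, restCA_apply, restCA_apply, mkA_apply, mkA_apply]
    exact this
  have hD' : DenseRange (restCA (W := W) h2) := by
    intro g
    rw [Metric.mem_closure_iff]
    intro ε hε
    obtain ⟨F, hF, hFε⟩ := hD (ext0 g.toC) g.ch (ε / 2) (by linarith)
    refine ⟨_, mem_range_self (mkA hF), ?_⟩
    have : dist g (restCA h2 (mkA hF)) ≤ ε / 2 := by
      rw [HA.dist_eq, ContinuousMap.dist_le (by linarith)]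
      intro x
      rw [restCA_apply, dist_comm, dist_eq_norm, mkA_apply]
      have := hFε x x.2
      rw [ext0_apply _ x.2] at this
      exact this.le
    exact this.trans_lt (by linarith)
  have h0 : γ 0 ∈ OO (restCA (W := W) h1) (restCA (W := W) h2) := by
    have hGc : CH K₁ (fun _ => G c) := ⟨continuousOn_const, differentiableOn_const _⟩
    refine mem_OO_left (isUnit_mkA hGc (fun x _ => hGu c hcN)) ?_
    ext x
    rw [restCA_apply, mkA_apply]
    change G (c + ((0 : unitInterval) : ℂ) * (x - c)) = G c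
    simp
  obtain ⟨u, v, huv⟩ := OO_of_path hS' hD' hγc hγu h0
  refine ⟨ext0 (HA.toC u.val), ext0 (HA.toC v.val), HA.ch _, HA.ch _, ?_, ?_, ?_⟩
  · intro x hx
    rw [ext0_apply _ hx]
    exact isUnit_eval u.isUnit ⟨x, hx⟩
  · intro x hx
    rw [ext0_apply _ hx]
    exact isUnit_eval v.isUnit ⟨x, hx⟩
  · intro x hx
    have h3 := congrArg (fun f : HA N W => f.toC ⟨x, hx⟩) huv
    simp only [HA.toC_mul, restCA_apply] at h3
    rw [ext0_apply _ (h1 hx), ext0_apply _ (h2 hx), ← h3]
    change _ = G (c + ((1 : unitInterval) : ℂ) * (x - c))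
    simp

end alg

end Pool.Agent.Y261.VG
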