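import Mathlib

set_option autoImplicit false

open Set Filter Topology Metric Complex

namespace Pool.Agent.Y261.VG

/-! # Pointwise holomorphic maps into spaces of continuous functions are holomorphic -/

theorem differentiableOn_of_pointwise {T W : Type*} [TopologicalSpace T] [CompactSpace T]
    [NormedAddCommGroup W] [NormedSpace ℂ W] [CompleteSpace W] {U : Set ℂ} (hU : IsOpen U)
    {F : ℂ → C(T, W)} (hc : ContinuousOn F U)
    (hp : ∀ τ, DifferentiableOn ℂ (fun z => F z τ) U) : DifferentiableOn ℂ F U := by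
  intro z₀ hz₀
  obtain ⟨r, hr, hrU⟩ := nhds_basis_closedBall.mem_iff.1 (hU.mem_nhds hz₀)
  have hcb : ContinuousOn F (closedBall z₀ r) := hc.mono hrU
  have hcs : ContinuousOn F (sphere z₀ r) := hcb.mono sphere_subset_closedBall
  lift r to NNReal using hr.le
  have hr' : (0 : ℝ) < r := hr
  have hps := hasFPowerSeriesOn_cauchy_integral (hcs.circleIntegrable hr'.le) (by exact_mod_cast hr')
  have heq : EqOn F (fun w : ℂ => (2 * Real.pi * I : ℂ)⁻¹ • ∮ z in C(z₀, r), (z - w)⁻¹ • F z)
      (ball z₀ r) := by
    intro w hw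
    ext τ
    have h1 : (F w) τ = (2 * Real.pi * I : ℂ)⁻¹ • ∮ z in C(z₀, r), (z - w)⁻¹ • (F z) τ := by
      have := Complex.two_pi_I_inv_smul_circleIntegral_sub_inv_smul_of_differentiable_on_off_countable
        (s := ∅) (f := fun z => F z τ) countable_empty hw
        ((ContinuousMap.evalCLM ℂ τ).continuous.comp_continuousOn hcb)
        (fun z hz => ((hp τ).mono (ball_subset_closedBall.trans hrU)).differentiableAt
          (isOpen_ball.mem_nhds hz.1))
      exact this.symm
    rw [h1]
    simp only [ContinuousMap.smul_apply]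
    congr 1
    have hint : IntervalIntegrable (fun θ : ℝ => deriv (circleMap z₀ r) θ •
        ((circleMap z₀ r θ - w)⁻¹ • F (circleMap z₀ r θ))) MeasureTheory.volume 0 (2 * Real.pi) := by
      apply ContinuousOn.intervalIntegrable
      apply ContinuousOn.fun_smul
      · have : deriv (circleMap z₀ (r : ℝ)) = fun θ => circleMap 0 r θ * I := by ext; simp
        rw [this]; fun_prop
      · apply ContinuousOn.fun_smul
        · apply ContinuousOn.fun_inv₀
          · fun_prop
          · intro θ _ h
            have h2 : circleMap z₀ r θ = w := sub_eq_zero.1 h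
            have h3 := circleMap_mem_sphere z₀ hr'.le θ
            rw [h2] at h3
            exact absurd (mem_sphere.1 h3) (ne_of_lt (mem_ball.1 hw))
        · exact hcs.comp (by fun_prop) (fun θ _ => circleMap_mem_sphere z₀ hr'.le θ)
    have := (ContinuousMap.evalCLM ℂ τ : C(T, W) →L[ℂ] W).intervalIntegral_comp_comm hint
    simp only [circleIntegral]
    exact this
  have hd : DifferentiableAt ℂ (fun w : ℂ => (2 * Real.pi * I : ℂ)⁻¹ • ∮ z in C(z₀, r), (z - w)⁻¹ • F z)
      z₀ := hps.analyticAt.differentiableAt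
  have he : F =ᶠ[𝓝 z₀] (fun w : ℂ => (2 * Real.pi * I : ℂ)⁻¹ • ∮ z in C(z₀, r), (z - w)⁻¹ • F z) :=
    heq.eventuallyEq_of_mem (ball_mem_nhds _ hr')
  exact (he.differentiableAt_iff.2 hd).differentiableWithinAt

/-- Curry a function which is continuous on `T ×ˢ U`. -/
noncomputable def curryOn {T : Type*} [TopologicalSpace T] {W : Type*} [NormedAddCommGroup W]
    (U : Set ℂ) (k : T → ℂ → W) : ℂ → C(T, W) := by
  classical
  exact fun z => if h : z ∈ U ∧ Continuous (fun τ => k τ z) then ⟨fun τ => k τ z, h.2⟩ else 0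

lemma curryOn_apply {T : Type*} [TopologicalSpace T] {W : Type*} [NormedAddCommGroup W]
    {U : Set ℂ} {k : T → ℂ → W} (hk : ContinuousOn (Function.uncurry k) (univ ×ˢ U)) {z : ℂ}
    (hz : z ∈ U) (τ : T) : curryOn U k z τ = k τ z := by
  have h : Continuous (fun τ => k τ z) := by
    rw [← continuousOn_univ]
    exact hk.comp (f := fun τ : T => (τ, z)) (by fun_prop) (fun τ _ => ⟨trivial, hz⟩)
  simp [curryOn, hz, h]

lemma continuousOn_curryOn {T : Type*} [TopologicalSpace T] [CompactSpace T] {W : Type*}
    [NormedAddCommGroup W] {U : Set ℂ} {k : T → ℂ → W}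
    (hk : ContinuousOn (Function.uncurry k) (univ ×ˢ U)) : ContinuousOn (curryOn U k) U := by
  rw [continuousOn_iff_continuous_domRestrict]
  refine ContinuousMap.continuous_of_continuous_uncurry _ ?_
  have h1 : (Function.uncurry fun (x : U) (y : T) => (U.domRestrict (curryOn U k) x) y) =
      fun p : U × T => k p.2 p.1 := by
    ext p
    exact curryOn_apply hk p.1.2 p.2
  rw [h1]
  have h2 : Continuous (fun p : U × T => ((p.2, (p.1 : ℂ)) : T × ℂ)) := by fun_prop
  rw [← continuousOn_univ] at h2 ⊢
  exact hk.comp h2 (fun p _ => ⟨trivial, p.1.2⟩)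

lemma differentiableOn_curryOn {T : Type*} [TopologicalSpace T] [CompactSpace T] {W : Type*}
    [NormedAddCommGroup W] [NormedSpace ℂ W] [CompleteSpace W] {U : Set ℂ} (hU : IsOpen U)
    {k : T → ℂ → W} (hk : ContinuousOn (Function.uncurry k) (univ ×ˢ U))
    (hd : ∀ τ, DifferentiableOn ℂ (k τ) U) : DifferentiableOn ℂ (curryOn U k) U := by
  refine differentiableOn_of_pointwise hU (continuousOn_curryOn hk) fun τ => ?_
  exact (hd τ).congr fun z hz => curryOn_apply hk hz τ

/-- Integration over `[a, b]` as a continuous linear map. -/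
noncomputable def intCLM {W : Type*} [NormedAddCommGroup W] [NormedSpace ℂ W] {a b : ℝ}
    (hab : a ≤ b) : C(Icc a b, W) →L[ℂ] W :=
  LinearMap.mkContinuous
    { toFun := fun f => ∫ τ in a..b, f (projIcc a b hab τ)
      map_add' := fun f g => by
        have hf : ∀ f : C(Icc a b, W), IntervalIntegrable (fun τ => f (projIcc a b hab τ))
            MeasureTheory.volume a b := fun f =>
          (f.continuous.comp continuous_projIcc).intervalIntegrable _ _
        rw [← intervalIntegral.integral_add (hf f) (hf g)]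
        rfl
      map_smul' := fun c f => by
        rw [RingHom.id_apply, ← intervalIntegral.integral_smul]
        rfl } (b - a) (fun f => by
        have := intervalIntegral.norm_integral_le_of_norm_le_const (a := a) (b := b) (C := ‖f‖)
          (f := fun τ => f (projIcc a b hab τ)) (fun τ _ => f.norm_coe_le_norm _)
        rw [abs_of_nonneg (sub_nonneg.2 hab)] at this
        simpa [mul_comm] using this)

lemma intCLM_apply {W : Type*} [NormedAddCommGroup W] [NormedSpace ℂ W] {a b : ℝ}
    (hab : a ≤ b) (f : C(Icc a b, W)) : intCLM hab f = ∫ τ in a..b, f (projIcc a b hab τ) := rfl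

/-- Integrals of holomorphic functions depending on a parameter. -/
theorem differentiableOn_paramIntegral {W : Type*} [NormedAddCommGroup W] [NormedSpace ℂ W]
    [CompleteSpace W] {a b : ℝ} (hab : a ≤ b) {U : Set ℂ} (hU : IsOpen U) {k : ℝ → ℂ → W}
    (hk : ContinuousOn (Function.uncurry k) (Icc a b ×ˢ U))
    (hd : ∀ τ ∈ Icc a b, DifferentiableOn ℂ (k τ) U) :
    DifferentiableOn ℂ (fun z => ∫ τ in a..b, k τ z) U := by
  let k' : Icc a b → ℂ → W := fun τ z => k τ z
  have hk' : ContinuousOn (Function.uncurry k') (univ ×ˢ U) := by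
    have h2 : Continuous (fun p : Icc a b × ℂ => (((p.1 : ℝ), p.2) : ℝ × ℂ)) := by fun_prop
    exact hk.comp h2.continuousOn (fun p hp => ⟨p.1.2, hp.2⟩)
  have h1 := differentiableOn_curryOn hU hk' (fun τ => hd τ τ.2)
  have h2 : DifferentiableOn ℂ (fun z => intCLM hab (curryOn U k' z)) U :=
    fun z hz => (intCLM (W := W) hab).differentiableAt.comp_differentiableWithinAt z (h1 z hz)
  refine h2.congr fun z hz => ?_
  rw [intCLM_apply]
  refine intervalIntegral.integral_congr fun τ hτ => ?_
  rw [uIcc_of_le hab] at hτ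
  rw [curryOn_apply hk' hz, projIcc_of_mem hab hτ]

end Pool.Agent.Y261.VG
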