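import Mathlib
import Pool.Agent.Y261.VG.Hol
import Pool.Agent.Y261.VG.PW

set_option autoImplicit false
set_option linter.unusedSectionVars false
set_option linter.style.haveILetI false

open Set Filter Topology Metric

namespace Pool.Agent.Y261.VG

/-! # Functions of `(x, q)`, `q` a parameter in a compact subset of `ℂ × ℂ` -/

/-- holomorphic in each of the two variables, at a point -/
def SHAt {W : Type*} [NormedAddCommGroup W] [NormedSpace ℂ W] (f : ℂ × ℂ → W) (q : ℂ × ℂ) : Prop :=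
  DifferentiableAt ℂ (fun t => f (t, q.2)) q.1 ∧ DifferentiableAt ℂ (fun y => f (q.1, y)) q.2

section
variable {Q : Set (ℂ × ℂ)} {W : Type*} [NormedAddCommGroup W] [NormedSpace ℂ W]

open Classical in
/-- extension by zero -/
noncomputable def extQ (f : C(Q, W)) : ℂ × ℂ → W := fun x => if h : x ∈ Q then f ⟨x, h⟩ else 0

lemma extQ_apply (f : C(Q, W)) {x : ℂ × ℂ} (h : x ∈ Q) : extQ f x = f ⟨x, h⟩ := by
  simp [extQ, h]

lemma tendsto_slice1 {q : ℂ × ℂ} (hq : q ∈ interior Q) : ∀ᶠ t in 𝓝 q.1, (t, q.2) ∈ interior Q := by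
  have hc : ContinuousAt (fun t : ℂ => ((t, q.2) : ℂ × ℂ)) q.1 := by fun_prop
  exact hc (isOpen_interior.mem_nhds hq)

lemma tendsto_slice2 {q : ℂ × ℂ} (hq : q ∈ interior Q) : ∀ᶠ y in 𝓝 q.2, (q.1, y) ∈ interior Q := by
  have hc : ContinuousAt (fun y : ℂ => ((q.1, y) : ℂ × ℂ)) q.2 := by fun_prop
  exact hc (isOpen_interior.mem_nhds hq)

lemma SHAt.congr {f g : ℂ × ℂ → W} {q : ℂ × ℂ} (hq : q ∈ interior Q) (h : SHAt f q)
    (hfg : ∀ q ∈ Q, g q = f q) : SHAt g q := by
  constructor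
  · refine h.1.congr_of_eventuallyEq ?_
    filter_upwards [tendsto_slice1 hq] with t ht
    exact hfg _ (interior_subset ht)
  · refine h.2.congr_of_eventuallyEq ?_
    filter_upwards [tendsto_slice2 hq] with t ht
    exact hfg _ (interior_subset ht)

variable (Q W) in
/-- the space of functions on `Q` holomorphic in each variable inside -/
noncomputable def qSub : Submodule ℂ C(Q, W) where
  carrier := {f | ∀ q ∈ interior Q, SHAt (extQ f) q}
  add_mem' {f g} hf hg := by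
    intro q hq
    refine SHAt.congr (f := fun x => extQ f x + extQ g x) hq
      ⟨(hf q hq).1.add (hg q hq).1, (hf q hq).2.add (hg q hq).2⟩ ?_
    intro x hx; simp [extQ_apply _ hx]
  zero_mem' := by
    intro q hq
    refine SHAt.congr (f := fun _ => 0) hq
      ⟨differentiableAt_const _, differentiableAt_const _⟩ ?_
    intro x hx; simp [extQ_apply _ hx]
  smul_mem' c f hf := by
    intro q hq
    refine SHAt.congr (f := fun x => c • extQ f x) hq
      ⟨(hf q hq).1.const_smul c, (hf q hq).2.const_smul c⟩ ?_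
    intro x hx; simp [extQ_apply _ hx]

lemma isClosed_qSub [CompactSpace Q] [CompleteSpace W] :
    IsClosed (qSub Q W : Set C(Q, W)) := by
  refine isClosed_of_closure_subset fun f hf => ?_
  obtain ⟨u, hu, hlim⟩ := mem_closure_iff_seq_limit.1 hf
  have h1 : TendstoUniformlyOn (fun n => extQ (u n)) (extQ f) atTop Q := by
    rw [Metric.tendstoUniformlyOn_iff]
    intro ε hε
    have h2 := (Metric.tendsto_nhds.1 hlim) ε hε
    filter_upwards [h2] with n hn x hx
    rw [extQ_apply _ hx, extQ_apply _ hx, dist_comm]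
    exact (ContinuousMap.dist_apply_le_dist _).trans_lt hn
  intro q hq
  constructor
  · have hO : IsOpen {t : ℂ | (t, q.2) ∈ interior Q} :=
      isOpen_interior.preimage (by fun_prop)
    have h2 : TendstoUniformlyOn (fun n => fun t : ℂ => extQ (u n) (t, q.2))
        (fun t : ℂ => extQ f (t, q.2)) atTop {t : ℂ | (t, q.2) ∈ interior Q} := by
      exact (h1.comp (fun t : ℂ => (t, q.2))).mono
        (fun t ht => (interior_subset ht : (t, q.2) ∈ Q))
    exact (h2.tendstoLocallyUniformlyOn.differentiableOn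
      (Eventually.of_forall fun n t ht => ((hu n) (t, q.2) ht).1.differentiableWithinAt)
      hO).differentiableAt (hO.mem_nhds hq)
  · have hO : IsOpen {t : ℂ | (q.1, t) ∈ interior Q} :=
      isOpen_interior.preimage (by fun_prop)
    have h2 : TendstoUniformlyOn (fun n => fun t : ℂ => extQ (u n) (q.1, t))
        (fun t : ℂ => extQ f (q.1, t)) atTop {t : ℂ | (q.1, t) ∈ interior Q} := by
      exact (h1.comp (fun t : ℂ => (q.1, t))).mono
        (fun t ht => (interior_subset ht : (q.1, t) ∈ Q))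
    exact (h2.tendstoLocallyUniformlyOn.differentiableOn
      (Eventually.of_forall fun n t ht => ((hu n) (q.1, t) ht).2.differentiableWithinAt)
      hO).differentiableAt (hO.mem_nhds hq)

/-- the Banach space of parameter functions -/
def QS (Q : Set (ℂ × ℂ)) (W : Type*) [NormedAddCommGroup W] [NormedSpace ℂ W] : Type _ := qSub Q W

noncomputable instance [CompactSpace Q] : NormedAddCommGroup (QS Q W) :=
  Submodule.normedAddCommGroup (qSub Q W)

noncomputable instance [CompactSpace Q] : NormedSpace ℂ (QS Q W) :=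
  Submodule.normedSpace (qSub Q W)

instance [CompactSpace Q] [CompleteSpace W] : CompleteSpace (QS Q W) :=
  (isClosed_qSub (Q := Q) (W := W)).completeSpace_coe

namespace QS

/-- the underlying continuous function -/
def toC (f : QS Q W) : C(Q, W) := f.1

lemma sh (f : QS Q W) : ∀ q ∈ interior Q, SHAt (extQ f.toC) q := f.2

@[ext] lemma ext' {f g : QS Q W} (h : ∀ x, f.toC x = g.toC x) : f = g :=
  Subtype.ext (ContinuousMap.ext h)

variable (Q W) in
/-- the inclusion into continuous functions -/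
noncomputable def toCL [CompactSpace Q] : QS Q W →ₗᵢ[ℂ] C(Q, W) :=
  (qSub Q W).subtypeₗᵢ

lemma toCL_apply [CompactSpace Q] (f : QS Q W) : toCL Q W f = f.toC := rfl

end QS
end

section
variable {Q : Set (ℂ × ℂ)} {W : Type*} [NormedRing W] [NormedAlgebra ℂ W]

variable (Q W) in
/-- the algebra of functions on `Q` holomorphic in each variable inside -/
noncomputable def qAlg : Subalgebra ℂ C(Q, W) where
  carrier := {f | ∀ q ∈ interior Q, SHAt (extQ f) q}
  add_mem' {f g} hf hg := (qSub Q W).add_mem hf hg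
  mul_mem' {f g} hf hg := by
    intro q hq
    refine SHAt.congr (f := fun x => extQ f x * extQ g x) hq
      ⟨(hf q hq).1.mul (hg q hq).1, (hf q hq).2.mul (hg q hq).2⟩ ?_
    intro x hx; simp [extQ_apply _ hx]
  algebraMap_mem' c := by
    intro q hq
    refine SHAt.congr (f := fun _ => algebraMap ℂ W c) hq
      ⟨differentiableAt_const _, differentiableAt_const _⟩ ?_
    intro x hx; rw [extQ_apply _ hx]; rfl

/-- the Banach algebra of parameter functions -/
def QA (Q : Set (ℂ × ℂ)) (W : Type*) [NormedRing W] [NormedAlgebra ℂ W] : Type _ := qAlg Q W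

noncomputable instance [CompactSpace Q] : NormedRing (QA Q W) :=
  Subalgebra.normedRing (qAlg Q W)

noncomputable instance [CompactSpace Q] : NormedAlgebra ℂ (QA Q W) :=
  Subalgebra.toNormedAlgebra (qAlg Q W)

instance [CompactSpace Q] [CompleteSpace W] : CompleteSpace (QA Q W) :=
  (isClosed_qSub (Q := Q) (W := W)).completeSpace_coe

namespace QA

/-- the underlying continuous function -/
def toC (f : QA Q W) : C(Q, W) := f.1

lemma sh (f : QA Q W) : ∀ q ∈ interior Q, SHAt (extQ f.toC) q := f.2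

@[ext] lemma ext' {f g : QA Q W} (h : ∀ x, f.toC x = g.toC x) : f = g :=
  Subtype.ext (ContinuousMap.ext h)

/-- constructor -/
def mkQA (f : C(Q, W)) (h : f ∈ qAlg Q W) : QA Q W := ⟨f, h⟩

lemma mkQA_toC (f : C(Q, W)) (h : f ∈ qAlg Q W) : (mkQA f h).toC = f := rfl

lemma toC_one [CompactSpace Q] (x : Q) : (1 : QA Q W).toC x = 1 := rfl
lemma toC_mul [CompactSpace Q] (f g : QA Q W) (x : Q) : (f * g).toC x = f.toC x * g.toC x := rfl

variable (Q W) in
/-- the inclusion into continuous functions -/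
noncomputable def toCL [CompactSpace Q] : QA Q W →ₗᵢ[ℂ] C(Q, W) where
  toFun f := f.toC
  map_add' _ _ := rfl
  map_smul' _ _ := rfl
  norm_map' _ := rfl

lemma toCL_apply [CompactSpace Q] (f : QA Q W) : toCL Q W f = f.toC := rfl

lemma isUnit_eval [CompactSpace Q] {f : QA Q W} (hf : IsUnit f) (x : Q) : IsUnit (f.toC x) := by
  rw [isUnit_iff_exists] at hf ⊢
  obtain ⟨b, hab, hba⟩ := hf
  refine ⟨b.toC x, ?_, ?_⟩
  · rw [← toC_mul, hab, toC_one]
  · rw [← toC_mul, hba, toC_one]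

lemma isUnit_of_eval [CompactSpace Q] [CompleteSpace W] {f : QA Q W}
    (hf : ∀ x, IsUnit (f.toC x)) : IsUnit f := by
  have hc : Continuous (fun x => Ring.inverse (f.toC x)) := by
    rw [continuous_iff_continuousAt]
    intro x
    obtain ⟨u, hu⟩ := hf x
    have := NormedRing.inverse_continuousAt u
    rw [hu] at this
    exact ContinuousAt.comp (f := fun x => f.toC x) this f.toC.continuous.continuousAt
  have hmem : ∀ q ∈ interior Q, SHAt (extQ (⟨fun x => Ring.inverse (f.toC x), hc⟩ : C(Q, W))) q := by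
    intro q hq
    have hu : IsUnit (extQ f.toC q) := by
      rw [extQ_apply _ (interior_subset hq)]; exact hf _
    have hd := differentiableAt_inverse (𝕜 := ℂ) hu
    refine SHAt.congr (f := fun x => Ring.inverse (extQ f.toC x)) hq ⟨?_, ?_⟩ ?_
    · exact DifferentiableAt.comp (f := fun t => extQ f.toC (t, q.2)) (g := Ring.inverse) q.1 hd
        (f.sh q hq).1
    · exact DifferentiableAt.comp (f := fun t => extQ f.toC (q.1, t)) (g := Ring.inverse) q.2 hd
        (f.sh q hq).2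
    · intro x hx
      rw [extQ_apply _ hx, extQ_apply _ hx]; rfl
  rw [isUnit_iff_exists]
  refine ⟨mkQA (⟨fun x => Ring.inverse (f.toC x), hc⟩ : C(Q, W)) hmem, ?_, ?_⟩
  · ext x
    rw [toC_mul, toC_one]
    exact Ring.mul_inverse_cancel _ (hf x)
  · ext x
    rw [toC_mul, toC_one]
    exact Ring.inverse_mul_cancel _ (hf x)

end QA
end

/-! ### admissible functions of `(x, q)` -/

/-- Pointwise regularity of a function on `K × Q` -/
def JHAt {W : Type*} [NormedAddCommGroup W] [NormedSpace ℂ W] (K : Set ℂ) (Q : Set (ℂ × ℂ))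
    (G : ℂ × (ℂ × ℂ) → W) (z : ℂ × (ℂ × ℂ)) : Prop :=
  ContinuousWithinAt G (K ×ˢ Q) z ∧
  (z.1 ∈ interior K → DifferentiableAt ℂ (fun x => G (x, z.2)) z.1) ∧
  (z.2 ∈ interior Q → SHAt (fun q => G (z.1, q)) z.2)

section
variable {K : Set ℂ} {Q : Set (ℂ × ℂ)} {W : Type*} [NormedAddCommGroup W] [NormedSpace ℂ W]

lemma JHAt.congr {G G' : ℂ × (ℂ × ℂ) → W} {z : ℂ × (ℂ × ℂ)} (hz : z ∈ K ×ˢ Q) (h : JHAt K Q G z)
    (hev : ∀ᶠ z' in 𝓝[K ×ˢ Q] z, G' z' = G z') : JHAt K Q G' z := by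
  have hzz : G' z = G z := hev.self_of_nhdsWithin hz
  rw [eventually_nhdsWithin_iff] at hev
  refine ⟨h.1.congr_of_eventuallyEq (eventually_nhdsWithin_iff.2 hev) hzz, fun hK => ?_,
    fun hQ => ⟨?_, ?_⟩⟩
  · refine (h.2.1 hK).congr_of_eventuallyEq ?_
    have hc : ContinuousAt (fun x : ℂ => ((x, z.2) : ℂ × (ℂ × ℂ))) z.1 := by fun_prop
    filter_upwards [hc hev, isOpen_interior.mem_nhds hK] with x h1 h2
    exact h1 ⟨interior_subset h2, hz.2⟩
  · refine (h.2.2 hQ).1.congr_of_eventuallyEq ?_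
    have hc : ContinuousAt (fun t : ℂ => ((z.1, (t, z.2.2)) : ℂ × (ℂ × ℂ))) z.2.1 := by fun_prop
    filter_upwards [hc hev, tendsto_slice1 hQ] with x h1 h2
    exact h1 ⟨hz.1, interior_subset h2⟩
  · refine (h.2.2 hQ).2.congr_of_eventuallyEq ?_
    have hc : ContinuousAt (fun t : ℂ => ((z.1, (z.2.1, t)) : ℂ × (ℂ × ℂ))) z.2.2 := by fun_prop
    filter_upwards [hc hev, tendsto_slice2 hQ] with x h1 h2
    exact h1 ⟨hz.1, interior_subset h2⟩

lemma JHAt.mono {K' : Set ℂ} {Q' : Set (ℂ × ℂ)} (hK : K' ⊆ K) (hQ : Q' ⊆ Q)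
    {G : ℂ × (ℂ × ℂ) → W} {z : ℂ × (ℂ × ℂ)} (h : JHAt K Q G z) : JHAt K' Q' G z :=
  ⟨h.1.mono (prod_mono hK hQ), fun h1 => h.2.1 (interior_mono hK h1),
    fun h1 => h.2.2 (interior_mono hQ h1)⟩

lemma JHAt.of_differentiableAt {G : ℂ × (ℂ × ℂ) → W} {z : ℂ × (ℂ × ℂ)}
    (h : DifferentiableAt ℂ G z) : JHAt K Q G z := by
  refine ⟨h.continuousAt.continuousWithinAt, fun _ => ?_, fun _ => ⟨?_, ?_⟩⟩
  · exact DifferentiableAt.comp (f := fun x : ℂ => ((x, z.2) : ℂ × (ℂ × ℂ))) (g := G) z.1 h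
      (by fun_prop)
  · exact DifferentiableAt.comp (f := fun t : ℂ => ((z.1, (t, z.2.2)) : ℂ × (ℂ × ℂ))) (g := G) z.2.1
      h (by fun_prop)
  · exact DifferentiableAt.comp (f := fun t : ℂ => ((z.1, (z.2.1, t)) : ℂ × (ℂ × ℂ))) (g := G) z.2.2
      h (by fun_prop)

lemma JHAt.add {G G' : ℂ × (ℂ × ℂ) → W} {z : ℂ × (ℂ × ℂ)} (h : JHAt K Q G z)
    (h' : JHAt K Q G' z) : JHAt K Q (fun z => G z + G' z) z :=
  ⟨h.1.add h'.1, fun h1 => (h.2.1 h1).add (h'.2.1 h1),
    fun h1 => ⟨(h.2.2 h1).1.add (h'.2.2 h1).1, (h.2.2 h1).2.add (h'.2.2 h1).2⟩⟩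

lemma JHAt.sub {G G' : ℂ × (ℂ × ℂ) → W} {z : ℂ × (ℂ × ℂ)} (h : JHAt K Q G z)
    (h' : JHAt K Q G' z) : JHAt K Q (fun z => G z - G' z) z :=
  ⟨h.1.sub h'.1, fun h1 => (h.2.1 h1).sub (h'.2.1 h1),
    fun h1 => ⟨(h.2.2 h1).1.sub (h'.2.2 h1).1, (h.2.2 h1).2.sub (h'.2.2 h1).2⟩⟩

lemma JHAt.clm_apply {F : Type*} [NormedAddCommGroup F] [NormedSpace ℂ F]
    {G : ℂ × (ℂ × ℂ) → (F →L[ℂ] W)} {G' : ℂ × (ℂ × ℂ) → F} {z : ℂ × (ℂ × ℂ)}
    (h : JHAt K Q G z) (h' : JHAt K Q G' z) : JHAt K Q (fun z => G z (G' z)) z :=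
  ⟨h.1.clm_apply h'.1, fun h1 => (h.2.1 h1).clm_apply (h'.2.1 h1),
    fun h1 => ⟨(h.2.2 h1).1.clm_apply (h'.2.2 h1).1, (h.2.2 h1).2.clm_apply (h'.2.2 h1).2⟩⟩

lemma JHAt.mul {W : Type*} [NormedRing W] [NormedAlgebra ℂ W] {G G' : ℂ × (ℂ × ℂ) → W}
    {z : ℂ × (ℂ × ℂ)} (h : JHAt K Q G z)
    (h' : JHAt K Q G' z) : JHAt K Q (fun z => G z * G' z) z :=
  ⟨h.1.mul h'.1, fun h1 => (h.2.1 h1).mul (h'.2.1 h1),
    fun h1 => ⟨(h.2.2 h1).1.mul (h'.2.2 h1).1, (h.2.2 h1).2.mul (h'.2.2 h1).2⟩⟩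

lemma JHAt.inverse {W : Type*} [NormedRing W] [NormedAlgebra ℂ W] [CompleteSpace W]
    {G : ℂ × (ℂ × ℂ) → W} {z : ℂ × (ℂ × ℂ)} (h : JHAt K Q G z) (hu : IsUnit (G z)) :
    JHAt K Q (fun z => Ring.inverse (G z)) z := by
  have hd := differentiableAt_inverse (𝕜 := ℂ) hu
  refine ⟨hd.continuousAt.comp_continuousWithinAt h.1, fun h1 => ?_, fun h1 => ⟨?_, ?_⟩⟩
  · exact DifferentiableAt.comp (f := fun x : ℂ => G (x, z.2)) (g := Ring.inverse) z.1 hd (h.2.1 h1)
  · exact DifferentiableAt.comp (f := fun t : ℂ => G (z.1, (t, z.2.2))) (g := Ring.inverse) z.2.1 hd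
      (h.2.2 h1).1
  · exact DifferentiableAt.comp (f := fun t : ℂ => G (z.1, (z.2.1, t))) (g := Ring.inverse) z.2.2 hd
      (h.2.2 h1).2

end

end Pool.Agent.Y261.VG
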