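import Mathlib
import Pool.Agent.Y261.VG.QSp
import Pool.Agent.Y288.VG.Rect

set_option autoImplicit false
set_option linter.unusedSectionVars false
set_option linter.style.haveILetI false

open Set Filter Topology Metric Complex

namespace Pool.Agent.Y261.VG

lemma differentiableAt_of_isometry {E F : Type*} [NormedAddCommGroup E] [NormedSpace ℂ E]
    [CompleteSpace E] [NormedAddCommGroup F] [NormedSpace ℂ F] (L : E →ₗᵢ[ℂ] F) {g : ℂ → E} {z : ℂ}
    (h : DifferentiableAt ℂ (fun x => L (g x)) z) : DifferentiableAt ℂ g z := by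
  have h1 := h.hasDerivAt
  rw [hasDerivAt_iff_tendsto_slope] at h1
  have hcl : IsClosed (range L) := L.isometry.isClosedEmbedding.isClosed_range
  have hs : ∀ x, slope (fun x => L (g x)) z x = L (slope g z x) := by
    intro x
    simp only [slope, vsub_eq_sub, map_smul, map_sub]
  have hmem : deriv (fun x => L (g x)) z ∈ range L :=
    hcl.mem_of_tendsto h1 (Eventually.of_forall fun x => ⟨slope g z x, (hs x).symm⟩)
  obtain ⟨d, hd⟩ := hmem
  have h2 : Tendsto (slope g z) (𝓝[≠] z) (𝓝 d) := by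
    rw [L.isometry.isEmbedding.isInducing.tendsto_nhds_iff, hd]
    exact h1.congr hs
  exact (hasDerivAt_iff_tendsto_slope.2 h2).differentiableAt

section
variable {K : Set ℂ} {Q : Set (ℂ × ℂ)} {W : Type*} [NormedAddCommGroup W] [NormedSpace ℂ W]

/-- Slices of a good function. -/
lemma slice_cont {G : ℂ × (ℂ × ℂ) → W} (hG : ∀ z ∈ K ×ˢ Q, JHAt K Q G z) {x : ℂ} (hx : x ∈ K) :
    Continuous (fun q : Q => G (x, q)) := by
  have h1 : ContinuousOn G (K ×ˢ Q) := fun z hz => (hG z hz).1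
  exact h1.comp_continuous (f := fun q : Q => (x, (q : ℂ × ℂ))) (by fun_prop)
    (fun q => ⟨hx, q.2⟩)

/-- the slice as a continuous function -/
noncomputable def sliceC (G : ℂ × (ℂ × ℂ) → W) (Q : Set (ℂ × ℂ)) (x : ℂ) : C(Q, W) := by
  classical
  exact if h : Continuous (fun q : Q => G (x, q)) then ⟨_, h⟩ else 0

lemma sliceC_apply {G : ℂ × (ℂ × ℂ) → W} (hG : ∀ z ∈ K ×ˢ Q, JHAt K Q G z) {x : ℂ} (hx : x ∈ K)
    (q : Q) : sliceC G Q x q = G (x, q) := by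
  simp [sliceC, slice_cont hG hx]

lemma sliceC_mem {G : ℂ × (ℂ × ℂ) → W} (hG : ∀ z ∈ K ×ˢ Q, JHAt K Q G z) {x : ℂ} (hx : x ∈ K) :
    ∀ q ∈ interior Q, SHAt (extQ (sliceC G Q x)) q := by
  intro q hq
  refine SHAt.congr (f := fun q => G (x, q)) hq ((hG (x, q) ⟨hx, interior_subset hq⟩).2.2 hq) ?_
  intro q' hq'
  rw [extQ_apply _ hq', sliceC_apply hG hx]

lemma sliceC_continuousOn [CompactSpace Q] {G : ℂ × (ℂ × ℂ) → W}
    (hG : ∀ z ∈ K ×ˢ Q, JHAt K Q G z) : ContinuousOn (sliceC G Q) K := by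
  rw [continuousOn_iff_continuous_domRestrict]
  refine ContinuousMap.continuous_of_continuous_uncurry _ ?_
  have h1 : (Function.uncurry fun (x : K) (y : Q) => (K.domRestrict (sliceC G Q) x) y) =
      fun p : K × Q => G (p.1, p.2) := by
    ext p
    exact sliceC_apply hG p.1.2 p.2
  rw [h1]
  have h2 : ContinuousOn G (K ×ˢ Q) := fun z hz => (hG z hz).1
  exact h2.comp_continuous (f := fun p : K × Q => ((p.1 : ℂ), (p.2 : ℂ × ℂ))) (by fun_prop)
    (fun p => ⟨p.1.2, p.2.2⟩)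

lemma sliceC_differentiableOn [CompactSpace Q] [CompleteSpace W] {G : ℂ × (ℂ × ℂ) → W}
    (hG : ∀ z ∈ K ×ˢ Q, JHAt K Q G z) : DifferentiableOn ℂ (sliceC G Q) (interior K) := by
  refine differentiableOn_of_pointwise isOpen_interior
    ((sliceC_continuousOn hG).mono interior_subset) fun q => ?_
  intro x hx
  have h1 := ((hG (x, q) ⟨interior_subset hx, q.2⟩).2.1 hx).differentiableWithinAt
    (s := interior K)
  exact h1.congr (fun y hy => sliceC_apply hG (interior_subset hy) q)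
    (sliceC_apply hG (interior_subset hx) q)

/-- From parameter functions to functions on the product. -/
lemma JHAt_of_CH [CompactSpace Q] {g : ℂ → C(Q, W)} (hg : CH K g)
    (hs : ∀ x ∈ K, ∀ q ∈ interior Q, SHAt (extQ (g x)) q) {z : ℂ × (ℂ × ℂ)} (hz : z ∈ K ×ˢ Q) :
    JHAt K Q (fun z => extQ (g z.1) z.2) z := by
  refine ⟨?_, fun h1 => ?_, fun h1 => hs z.1 hz.1 z.2 h1⟩
  · have h2 : ContinuousOn (fun z : ℂ × (ℂ × ℂ) => extQ (g z.1) z.2) (K ×ˢ Q) := by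
      rw [continuousOn_iff_continuous_domRestrict]
      have h3 : Continuous (K.domRestrict g) := continuousOn_iff_continuous_domRestrict.1 hg.1
      have h4 : Continuous (fun p : (K ×ˢ Q : Set (ℂ × (ℂ × ℂ))) =>
          ((K.domRestrict g ⟨p.1.1, p.2.1⟩, ⟨p.1.2, p.2.2⟩) : C(Q, W) × Q)) :=
        (h3.comp (by fun_prop)).prodMk (by fun_prop)
      have h5 := (ContinuousEval.continuous_eval (F := C(Q, W)) (X := Q) (Y := W)).comp h4
      refine h5.congr fun p => ?_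
      change (g p.1.1) ⟨p.1.2, p.2.2⟩ = extQ (g p.1.1) p.1.2
      rw [extQ_apply _ p.2.2]
    exact h2 z hz
  · have h2 : DifferentiableAt ℂ g z.1 := (hg.2.differentiableAt (isOpen_interior.mem_nhds h1))
    have h3 := (ContinuousMap.evalCLM ℂ (⟨z.2, hz.2⟩ : Q) : C(Q, W) →L[ℂ] W).differentiableAt.comp
      z.1 h2
    refine h3.congr_of_eventuallyEq (Eventually.of_forall fun x => ?_)
    change extQ (g x) z.2 = (g x) ⟨z.2, hz.2⟩
    rw [extQ_apply _ hz.2]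

end

section toQS
variable {K : Set ℂ} {Q : Set (ℂ × ℂ)} {W : Type*} [NormedAddCommGroup W] [NormedSpace ℂ W]

/-- constructor -/
def mkQS (f : C(Q, W)) (h : f ∈ qSub Q W) : QS Q W := ⟨f, h⟩

lemma mkQS_toC (f : C(Q, W)) (h : f ∈ qSub Q W) : (mkQS f h).toC = f := rfl

open Classical in
/-- the parameter function attached to a function on the product -/
noncomputable def toQS (G : ℂ × (ℂ × ℂ) → W) (Q : Set (ℂ × ℂ)) (x : ℂ) : QS Q W :=
  if h : sliceC G Q x ∈ qSub Q W then mkQS _ h else mkQS 0 (Submodule.zero_mem _)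

lemma toQS_toC {G : ℂ × (ℂ × ℂ) → W} (hG : ∀ z ∈ K ×ˢ Q, JHAt K Q G z) {x : ℂ} (hx : x ∈ K) :
    (toQS G Q x).toC = sliceC G Q x := by
  have h : sliceC G Q x ∈ qSub Q W := sliceC_mem hG hx
  simp [toQS, h, mkQS_toC]

lemma toQS_apply {G : ℂ × (ℂ × ℂ) → W} (hG : ∀ z ∈ K ×ˢ Q, JHAt K Q G z) {x : ℂ} (hx : x ∈ K)
    (q : Q) : (toQS G Q x).toC q = G (x, q) := by
  rw [toQS_toC hG hx, sliceC_apply hG hx]

lemma toQS_CH [CompactSpace Q] [CompleteSpace W] {G : ℂ × (ℂ × ℂ) → W}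
    (hG : ∀ z ∈ K ×ˢ Q, JHAt K Q G z) : CH K (toQS G Q) := by
  constructor
  · intro x hx
    rw [ContinuousWithinAt, (QS.toCL Q W).isometry.isEmbedding.isInducing.tendsto_nhds_iff]
    refine ((sliceC_continuousOn hG) x hx).congr_of_eventuallyEq ?_ ?_
    · filter_upwards [self_mem_nhdsWithin] with y hy
      exact toQS_toC hG hy
    · exact toQS_toC hG hx
  · intro x hx
    refine (differentiableAt_of_isometry (QS.toCL Q W) ?_).differentiableWithinAt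
    refine ((sliceC_differentiableOn hG).differentiableAt
      (isOpen_interior.mem_nhds hx)).congr_of_eventuallyEq ?_
    filter_upwards [isOpen_interior.mem_nhds hx] with y hy
    exact toQS_toC hG (interior_subset hy)

lemma JHAt_of_QS [CompactSpace Q] {g : ℂ → QS Q W} (hg : CH K g)
    {z : ℂ × (ℂ × ℂ)} (hz : z ∈ K ×ˢ Q) :
    JHAt K Q (fun z => extQ (g z.1).toC z.2) z := by
  refine JHAt_of_CH (g := fun x => (g x).toC) ?_ (fun x _ q hq => (g x).sh q hq) hz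
  have h := (QS.toCL Q W).toContinuousLinearMap
  exact ⟨(QS.toCL Q W).continuous.comp_continuousOn hg.1,
    (QS.toCL Q W).toContinuousLinearMap.differentiable.comp_differentiableOn hg.2⟩

end toQS

section toQA
variable {K : Set ℂ} {Q : Set (ℂ × ℂ)} {W : Type*} [NormedRing W] [NormedAlgebra ℂ W]

open Classical in
/-- the parameter function attached to a function on the product -/
noncomputable def toQA (G : ℂ × (ℂ × ℂ) → W) (Q : Set (ℂ × ℂ)) (x : ℂ) : QA Q W :=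
  if h : sliceC G Q x ∈ qAlg Q W then QA.mkQA _ h else QA.mkQA 0 (Subalgebra.zero_mem _)

lemma toQA_toC {G : ℂ × (ℂ × ℂ) → W} (hG : ∀ z ∈ K ×ˢ Q, JHAt K Q G z) {x : ℂ} (hx : x ∈ K) :
    (toQA G Q x).toC = sliceC G Q x := by
  have h : sliceC G Q x ∈ qAlg Q W := sliceC_mem hG hx
  simp [toQA, h, QA.mkQA_toC]

lemma toQA_apply {G : ℂ × (ℂ × ℂ) → W} (hG : ∀ z ∈ K ×ˢ Q, JHAt K Q G z) {x : ℂ} (hx : x ∈ K)
    (q : Q) : (toQA G Q x).toC q = G (x, q) := by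
  rw [toQA_toC hG hx, sliceC_apply hG hx]

lemma toQA_CH [CompactSpace Q] [CompleteSpace W] {G : ℂ × (ℂ × ℂ) → W}
    (hG : ∀ z ∈ K ×ˢ Q, JHAt K Q G z) : CH K (toQA G Q) := by
  constructor
  · intro x hx
    rw [ContinuousWithinAt, (QA.toCL Q W).isometry.isEmbedding.isInducing.tendsto_nhds_iff]
    refine ((sliceC_continuousOn hG) x hx).congr_of_eventuallyEq ?_ ?_
    · filter_upwards [self_mem_nhdsWithin] with y hy
      exact toQA_toC hG hy
    · exact toQA_toC hG hx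
  · intro x hx
    refine (differentiableAt_of_isometry (QA.toCL Q W) ?_).differentiableWithinAt
    refine ((sliceC_differentiableOn hG).differentiableAt
      (isOpen_interior.mem_nhds hx)).congr_of_eventuallyEq ?_
    filter_upwards [isOpen_interior.mem_nhds hx] with y hy
    exact toQA_toC hG (interior_subset hy)

lemma JHAt_of_QA [CompactSpace Q] {g : ℂ → QA Q W} (hg : CH K g)
    {z : ℂ × (ℂ × ℂ)} (hz : z ∈ K ×ˢ Q) :
    JHAt K Q (fun z => extQ (g z.1).toC z.2) z := by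
  refine JHAt_of_CH (g := fun x => (g x).toC) ?_ (fun x _ q hq => (g x).sh q hq) hz
  exact ⟨(QA.toCL Q W).continuous.comp_continuousOn hg.1,
    (QA.toCL Q W).toContinuousLinearMap.differentiable.comp_differentiableOn hg.2⟩

end toQA

/-! ### Cartan's lemma with parameters on rectangles -/

/-- the closed rectangle -/
def Rct (a b c d : ℝ) : Set ℂ := Icc a b ×ℂ Icc c d

lemma mem_Rct {a b c d : ℝ} {z : ℂ} :
    z ∈ Rct a b c d ↔ (a ≤ z.re ∧ z.re ≤ b) ∧ (c ≤ z.im ∧ z.im ≤ d) := by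
  rw [Rct, mem_reProdIm]; rfl

lemma interior_Rct (a b c d : ℝ) : interior (Rct a b c d) = Ioo a b ×ℂ Ioo c d := by
  rw [Rct, interior_reProdIm, interior_Icc, interior_Icc]

lemma mem_interior_Rct {a b c d : ℝ} {z : ℂ} :
    z ∈ interior (Rct a b c d) ↔ (a < z.re ∧ z.re < b) ∧ (c < z.im ∧ z.im < d) := by
  rw [interior_Rct, mem_reProdIm]; rfl

lemma isCompact_Rct (a b c d : ℝ) : IsCompact (Rct a b c d) :=
  isCompact_Icc.reProdIm isCompact_Icc

lemma convex_Rct (a b c d : ℝ) : Convex ℝ (Rct a b c d) := by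
  have h : Rct a b c d = reCLM ⁻¹' Icc a b ∩ imCLM ⁻¹' Icc c d := rfl
  rw [h]
  exact ((convex_Icc a b).is_linear_preimage reCLM.isLinear).inter
    ((convex_Icc c d).is_linear_preimage imCLM.isLinear)

/-- additive splitting -/
theorem split_param {W : Type*} [NormedAddCommGroup W] [NormedSpace ℂ W] [CompleteSpace W]
    {Q : Set (ℂ × ℂ)} (hQ : IsCompact Q)
    {a α β b γ δ : ℝ} (h1 : a ≤ α) (h2 : α < β) (h3 : β ≤ b) (h4 : γ < δ)
    {h : ℂ × (ℂ × ℂ) → W} (hh : ∀ z ∈ Rct α β γ δ ×ˢ Q, JHAt (Rct α β γ δ) Q h z) :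
    ∃ f₁ f₂ : ℂ × (ℂ × ℂ) → W, (∀ z ∈ Rct a β γ δ ×ˢ Q, JHAt (Rct a β γ δ) Q f₁ z) ∧
      (∀ z ∈ Rct α b γ δ ×ˢ Q, JHAt (Rct α b γ δ) Q f₂ z) ∧
      ∀ z ∈ Rct α β γ δ ×ˢ Q, h z = f₁ z + f₂ z := by
  haveI : CompactSpace Q := isCompact_iff_compactSpace.1 hQ
  have hg := toQS_CH hh
  obtain ⟨g₁, g₂, a1, a2, a3, a4, a5⟩ := Pool.Agent.Y288.VG.rect_split h1 h2 h3 h4 hg.1
    (hg.2.mono (interior_Rct α β γ δ).ge)
  have c1 : CH (Rct a β γ δ) g₁ := ⟨a1, by rw [interior_Rct]; exact a2⟩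
  have c2 : CH (Rct α b γ δ) g₂ := ⟨a3, by rw [interior_Rct]; exact a4⟩
  refine ⟨fun z => extQ (g₁ z.1).toC z.2, fun z => extQ (g₂ z.1).toC z.2,
    fun z hz => JHAt_of_QS c1 hz, fun z hz => JHAt_of_QS c2 hz, fun z hz => ?_⟩
  have h5 := congrArg (fun f : QS Q W => f.toC ⟨z.2, hz.2⟩) (a5 z.1 hz.1)
  beta_reduce at h5 ⊢
  rw [toQS_apply hh hz.1] at h5
  rw [extQ_apply _ hz.2, extQ_apply _ hz.2]
  exact h5

/-- multiplicative splitting -/
theorem cartan_param {W : Type*} [NormedRing W] [NormedAlgebra ℂ W] [CompleteSpace W]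
    {Q : Set (ℂ × ℂ)} (hQ : IsCompact Q)
    {a α β b γ δ : ℝ} (h1 : a ≤ α) (h2 : α < β) (h3 : β ≤ b) (h4 : γ < δ)
    {G : ℂ × (ℂ × ℂ) → W} (hG : ∀ z ∈ Rct α β γ δ ×ˢ Q, JHAt (Rct α β γ δ) Q G z)
    (hGu : ∀ z ∈ Rct α β γ δ ×ˢ Q, IsUnit (G z)) :
    ∃ A₁ A₂ : ℂ × (ℂ × ℂ) → W,
      (∀ z ∈ Rct a β γ δ ×ˢ Q, JHAt (Rct a β γ δ) Q A₁ z ∧ IsUnit (A₁ z)) ∧
      (∀ z ∈ Rct α b γ δ ×ˢ Q, JHAt (Rct α b γ δ) Q A₂ z ∧ IsUnit (A₂ z)) ∧
      ∀ z ∈ Rct α β γ δ ×ˢ Q, G z = A₁ z * A₂ z := by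
  haveI : CompactSpace Q := isCompact_iff_compactSpace.1 hQ
  have hg := toQA_CH hG
  have e1 : Rct α β γ δ ⊆ Rct a β γ δ := by
    intro z hz; rw [mem_Rct] at hz ⊢; exact ⟨⟨h1.trans hz.1.1, hz.1.2⟩, hz.2⟩
  have e2 : Rct α β γ δ ⊆ Rct α b γ δ := by
    intro z hz; rw [mem_Rct] at hz ⊢; exact ⟨⟨hz.1.1, hz.1.2.trans h3⟩, hz.2⟩
  have hcN : (⟨(α + β) / 2, (γ + δ) / 2⟩ : ℂ) ∈ interior (Rct α β γ δ) := by
    rw [mem_interior_Rct]
    refine ⟨⟨?_, ?_⟩, ?_, ?_⟩ <;> simp only <;> linarith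
  obtain ⟨A₁, A₂, a1, a2, a3, a4, a5⟩ := cartan_general (W := QA Q W) (isCompact_Rct a β γ δ)
    (isCompact_Rct α b γ δ) (isCompact_Rct α β γ δ) e1 e2 (convex_Rct _ _ _ _) hcN
    (fun f hf => by
      obtain ⟨g₁, g₂, a1, a2, a3, a4, a5⟩ := Pool.Agent.Y288.VG.rect_split h1 h2 h3 h4 hf.1
        (hf.2.mono (interior_Rct α β γ δ).ge)
      exact ⟨g₁, g₂, ⟨a1, by rw [interior_Rct]; exact a2⟩, ⟨a3, by rw [interior_Rct]; exact a4⟩, a5⟩)
    (fun f hf ε hε => by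
      obtain ⟨F, a1, a2, a3⟩ := Pool.Agent.Y288.VG.rect_dense h2 h3 h4 hf.1
        (hf.2.mono (interior_Rct α β γ δ).ge) hε
      exact ⟨F, ⟨a1, by rw [interior_Rct]; exact a2⟩, a3⟩)
    hg (fun x hx => QA.isUnit_of_eval fun q => by
      rw [toQA_apply hG hx]; exact hGu (x, q) ⟨hx, q.2⟩)
  refine ⟨fun z => extQ (A₁ z.1).toC z.2, fun z => extQ (A₂ z.1).toC z.2,
    fun z hz => ⟨JHAt_of_QA a1 hz, ?_⟩, fun z hz => ⟨JHAt_of_QA a2 hz, ?_⟩, fun z hz => ?_⟩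
  · beta_reduce; rw [extQ_apply _ hz.2]; exact QA.isUnit_eval (a3 z.1 hz.1) _
  · beta_reduce; rw [extQ_apply _ hz.2]; exact QA.isUnit_eval (a4 z.1 hz.1) _
  · have h5 := congrArg (fun f : QA Q W => f.toC ⟨z.2, hz.2⟩) (a5 z.1 hz.1)
    simp only [QA.toC_mul] at h5
    rw [toQA_apply hG hz.1] at h5
    beta_reduce
    rw [extQ_apply _ hz.2, extQ_apply _ hz.2]
    exact h5

end Pool.Agent.Y261.VG
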