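import Mathlib
import Pool.Agent.Y261.VG.Cart

set_option autoImplicit false
set_option linter.unusedSectionVars false
set_option linter.style.haveILetI false

open Set Filter Topology Metric Complex

namespace Pool.Agent.Y261.VG

/-! # Cocycles of affine bundles and their frames -/

/-- The cocycle of an affine bundle over `ℂ × D`, in coordinates: `τ_{e'} = M e' e τ_e + m e' e`. -/
structure Cocyc (I : Type*) (F : Type*) [NormedAddCommGroup F] [NormedSpace ℂ F] where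
  /-- the parameter domain -/
  D : Set (ℂ × ℂ)
  isOpen_D : IsOpen D
  /-- the charts -/
  U : I → Set (ℂ × (ℂ × ℂ))
  isOpen_U : ∀ e, IsOpen (U e)
  cov : ∀ z : ℂ × (ℂ × ℂ), z.2 ∈ D → ∃ e, z ∈ U e
  /-- the linear part -/
  M : I → I → ℂ × (ℂ × ℂ) → (F →L[ℂ] F)
  /-- the translation part -/
  m : I → I → ℂ × (ℂ × ℂ) → F
  dM : ∀ e' e, ∀ z ∈ U e, z ∈ U e' → DifferentiableAt ℂ (M e' e) z
  dm : ∀ e' e, ∀ z ∈ U e, z ∈ U e' → DifferentiableAt ℂ (m e' e) z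
  uM : ∀ e' e, ∀ z ∈ U e, z ∈ U e' → IsUnit (M e' e z)
  cM : ∀ e'' e' e, ∀ z ∈ U e, z ∈ U e' → z ∈ U e'' → M e'' e z = M e'' e' z * M e' e z
  cm : ∀ e'' e' e, ∀ z ∈ U e, z ∈ U e' → z ∈ U e'' →
    m e'' e z = M e'' e' z (m e' e z) + m e'' e' z

/-- A trivialisation over `K × Q`. -/
structure Frame {I : Type*} {F : Type*} [NormedAddCommGroup F] [NormedSpace ℂ F]
    (c : Cocyc I F) (K : Set ℂ) (Q : Set (ℂ × ℂ)) where
  /-- the linear part -/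
  A : I → ℂ × (ℂ × ℂ) → (F →L[ℂ] F)
  /-- the translation part -/
  b : I → ℂ × (ℂ × ℂ) → F
  jA : ∀ e, ∀ z ∈ K ×ˢ Q, z ∈ c.U e → JHAt K Q (A e) z
  jb : ∀ e, ∀ z ∈ K ×ˢ Q, z ∈ c.U e → JHAt K Q (b e) z
  uA : ∀ e, ∀ z ∈ K ×ˢ Q, z ∈ c.U e → IsUnit (A e z)
  cA : ∀ e' e, ∀ z ∈ K ×ˢ Q, z ∈ c.U e → z ∈ c.U e' → A e z = A e' z * c.M e' e z
  cb : ∀ e' e, ∀ z ∈ K ×ˢ Q, z ∈ c.U e → z ∈ c.U e' → b e z = A e' z (c.m e' e z) + b e' z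

section
variable {I : Type*} {F : Type*} [NormedAddCommGroup F] [NormedSpace ℂ F] [CompleteSpace F]
  {c : Cocyc I F} {K K' : Set ℂ} {Q Q' : Set (ℂ × ℂ)}

/-- restriction of frames -/
def Frame.mono (φ : Frame c K Q) (hK : K' ⊆ K) (hQ : Q' ⊆ Q) : Frame c K' Q' where
  A := φ.A
  b := φ.b
  jA e z hz he := (φ.jA e z (prod_mono hK hQ hz) he).mono hK hQ
  jb e z hz he := (φ.jb e z (prod_mono hK hQ hz) he).mono hK hQ
  uA e z hz he := φ.uA e z (prod_mono hK hQ hz) he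
  cA e' e z hz h1 h2 := φ.cA e' e z (prod_mono hK hQ hz) h1 h2
  cb e' e z hz h1 h2 := φ.cb e' e z (prod_mono hK hQ hz) h1 h2

/-- local frames -/
def Frame.loc (c : Cocyc I F) (e₀ : I) (h : K ×ˢ Q ⊆ c.U e₀) : Frame c K Q where
  A e := c.M e₀ e
  b e := c.m e₀ e
  jA e z hz he := JHAt.of_differentiableAt (c.dM e₀ e z he (h hz))
  jb e z hz he := JHAt.of_differentiableAt (c.dm e₀ e z he (h hz))
  uA e z hz he := c.uM e₀ e z he (h hz)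
  cA e' e z hz h1 h2 := c.cM e₀ e' e z h1 h2 (h hz)
  cb e' e z hz h1 h2 := c.cm e₀ e' e z h1 h2 (h hz)

/-- change of frame -/
noncomputable def Frame.tr (φ : Frame c K Q) (P : ℂ × (ℂ × ℂ) → (F →L[ℂ] F))
    (p : ℂ × (ℂ × ℂ) → F) (hP : ∀ z ∈ K ×ˢ Q, JHAt K Q P z) (hPu : ∀ z ∈ K ×ˢ Q, IsUnit (P z))
    (hp : ∀ z ∈ K ×ˢ Q, JHAt K Q p z) : Frame c K Q where
  A e z := P z * φ.A e z
  b e z := P z (φ.b e z) + p z
  jA e z hz he := (hP z hz).mul (φ.jA e z hz he)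
  jb e z hz he := ((hP z hz).clm_apply (φ.jb e z hz he)).add (hp z hz)
  uA e z hz he := (hPu z hz).mul (φ.uA e z hz he)
  cA e' e z hz h1 h2 := by rw [φ.cA e' e z hz h1 h2, mul_assoc]
  cb e' e z hz h1 h2 := by
    rw [φ.cb e' e z hz h1 h2, map_add, add_assoc, ContinuousLinearMap.mul_apply]

lemma Frame.tr_A (φ : Frame c K Q) (P : ℂ × (ℂ × ℂ) → (F →L[ℂ] F))
    (p : ℂ × (ℂ × ℂ) → F) (hP : ∀ z ∈ K ×ˢ Q, JHAt K Q P z) (hPu : ∀ z ∈ K ×ˢ Q, IsUnit (P z))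
    (hp : ∀ z ∈ K ×ˢ Q, JHAt K Q p z) (e : I) (z) : (φ.tr P p hP hPu hp).A e z = P z * φ.A e z := rfl

lemma Frame.tr_b (φ : Frame c K Q) (P : ℂ × (ℂ × ℂ) → (F →L[ℂ] F))
    (p : ℂ × (ℂ × ℂ) → F) (hP : ∀ z ∈ K ×ˢ Q, JHAt K Q P z) (hPu : ∀ z ∈ K ×ˢ Q, IsUnit (P z))
    (hp : ∀ z ∈ K ×ˢ Q, JHAt K Q p z) (e : I) (z) :
    (φ.tr P p hP hPu hp).b e z = P z (φ.b e z) + p z := rfl

/-- the transition of two frames: existence -/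
lemma Frame.exists_transition (φ₁ φ₂ : Frame c K Q) (hQ : Q ⊆ c.D) :
    ∃ (G : ℂ × (ℂ × ℂ) → (F →L[ℂ] F)) (h : ℂ × (ℂ × ℂ) → F),
      (∀ z ∈ K ×ˢ Q, JHAt K Q G z) ∧ (∀ z ∈ K ×ˢ Q, IsUnit (G z)) ∧ (∀ z ∈ K ×ˢ Q, JHAt K Q h z) ∧
      ∀ z ∈ K ×ˢ Q, ∀ e, z ∈ c.U e → φ₁.A e z = G z * φ₂.A e z ∧
        φ₁.b e z = G z (φ₂.b e z) + h z := by
  classical
  have hI : ∀ z : ℂ × (ℂ × ℂ), z ∈ K ×ˢ Q → ∃ e, z ∈ c.U e := fun z hz => c.cov z (hQ hz.2)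
  -- pointwise definitions
  let G : ℂ × (ℂ × ℂ) → (F →L[ℂ] F) := fun z =>
    if hz : z ∈ K ×ˢ Q then φ₁.A (hI z hz).choose z * Ring.inverse (φ₂.A (hI z hz).choose z) else 0
  let h : ℂ × (ℂ × ℂ) → F := fun z =>
    if hz : z ∈ K ×ˢ Q then φ₁.b (hI z hz).choose z - G z (φ₂.b (hI z hz).choose z) else 0
  have hG : ∀ z ∈ K ×ˢ Q, ∀ e, z ∈ c.U e → G z = φ₁.A e z * Ring.inverse (φ₂.A e z) := by
    intro z hz e he
    have h0 := (hI z hz).choose_spec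
    have hGz : G z = φ₁.A (hI z hz).choose z * Ring.inverse (φ₂.A (hI z hz).choose z) := by
      exact dif_pos hz
    generalize (hI z hz).choose = e' at h0 hGz
    rw [Ring.eq_mul_inverse_iff_mul_eq _ _ _ (φ₂.uA e z hz he), hGz, φ₂.cA e' e z hz he h0,
      φ₁.cA e' e z hz he h0, ← mul_assoc, Ring.inverse_mul_cancel_right _ _ (φ₂.uA e' z hz h0)]
  have hG' : ∀ z ∈ K ×ˢ Q, ∀ e, z ∈ c.U e → φ₁.A e z = G z * φ₂.A e z := by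
    intro z hz e he
    rw [hG z hz e he, Ring.inverse_mul_cancel_right _ _ (φ₂.uA e z hz he)]
  have hh : ∀ z ∈ K ×ˢ Q, ∀ e, z ∈ c.U e → h z = φ₁.b e z - G z (φ₂.b e z) := by
    intro z hz e he
    have h0 := (hI z hz).choose_spec
    have hhz : h z = φ₁.b (hI z hz).choose z - G z (φ₂.b (hI z hz).choose z) := by
      exact dif_pos hz
    generalize (hI z hz).choose = e' at h0 hhz
    rw [hhz, φ₁.cb e' e z hz he h0, φ₂.cb e' e z hz he h0, map_add, hG' z hz e' h0,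
      ContinuousLinearMap.mul_apply]
    abel
  have hev : ∀ z ∈ K ×ˢ Q, ∀ e, z ∈ c.U e → ∀ᶠ z' in 𝓝[K ×ˢ Q] z, z' ∈ K ×ˢ Q ∧ z' ∈ c.U e := by
    intro z hz e he
    exact (eventually_mem_nhdsWithin).and (mem_nhdsWithin_of_mem_nhds ((c.isOpen_U e).mem_nhds he))
  have hGJ : ∀ z ∈ K ×ˢ Q, JHAt K Q G z := by
    intro z hz
    obtain ⟨e, he⟩ := hI z hz
    refine JHAt.congr hz ((φ₁.jA e z hz he).mul ((φ₂.jA e z hz he).inverse (φ₂.uA e z hz he))) ?_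
    filter_upwards [hev z hz e he] with z' hz'
    exact hG z' hz'.1 e hz'.2
  refine ⟨G, h, hGJ, ?_, ?_, ?_⟩
  · intro z hz
    obtain ⟨e, he⟩ := hI z hz
    rw [hG z hz e he]
    exact (φ₁.uA e z hz he).mul (φ₂.uA e z hz he).ringInverse
  · intro z hz
    obtain ⟨e, he⟩ := hI z hz
    refine JHAt.congr hz ((φ₁.jb e z hz he).sub ((hGJ z hz).clm_apply (φ₂.jb e z hz he))) ?_
    filter_upwards [hev z hz e he] with z' hz'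
    exact hh z' hz'.1 e hz'.2
  · intro z hz e he
    refine ⟨hG' z hz e he, ?_⟩
    rw [hh z hz e he]; abel

/-- regularity on a union -/
lemma JHAt.union {K₁ K₂ : Set ℂ} (h1 : IsClosed K₁) (h2 : IsClosed K₂) (hQ : IsClosed Q)
    (hK : K = K₁ ∪ K₂) (hint : interior K ⊆ interior K₁ ∪ interior K₂) {W : Type*}
    [NormedAddCommGroup W] [NormedSpace ℂ W] {f : ℂ × (ℂ × ℂ) → W} {z : ℂ × (ℂ × ℂ)}
    (hz : z ∈ K ×ˢ Q) (e1 : z.1 ∈ K₁ → JHAt K₁ Q f z) (e2 : z.1 ∈ K₂ → JHAt K₂ Q f z) :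
    JHAt K Q f z := by
  have hcont : ∀ K' : Set ℂ, IsClosed K' → (z.1 ∈ K' → JHAt K' Q f z) →
      ContinuousWithinAt f (K' ×ˢ Q) z := by
    intro K' hK' h
    by_cases hz1 : z.1 ∈ K'
    · exact (h hz1).1
    · apply continuousWithinAt_of_notMem_closure
      rw [(hK'.prod hQ).closure_eq]
      exact fun h => hz1 h.1
  refine ⟨?_, fun h => ?_, fun h => ?_⟩
  · rw [hK, union_prod]
    exact (hcont K₁ h1 e1).union (hcont K₂ h2 e2)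
  · rcases hint h with h3 | h3
    · exact (e1 (interior_subset h3)).2.1 h3
    · exact (e2 (interior_subset h3)).2.1 h3
  · have hz1 := hz.1
    rw [hK] at hz1
    rcases hz1 with h3 | h3
    · exact (e1 h3).2.2 h
    · exact (e2 h3).2.2 h

/-- gluing two frames which agree on the intersection -/
lemma Frame.glue {K₁ K₂ : Set ℂ} (h1 : IsClosed K₁) (h2 : IsClosed K₂) (hQ : IsClosed Q)
    (hK : K = K₁ ∪ K₂) (hint : interior K ⊆ interior K₁ ∪ interior K₂) (φ₁ : Frame c K₁ Q)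
    (φ₂ : Frame c K₂ Q) (hA : ∀ z ∈ (K₁ ∩ K₂) ×ˢ Q, ∀ e, z ∈ c.U e → φ₁.A e z = φ₂.A e z)
    (hb : ∀ z ∈ (K₁ ∩ K₂) ×ˢ Q, ∀ e, z ∈ c.U e → φ₁.b e z = φ₂.b e z) :
    Nonempty (Frame c K Q) := by
  classical
  let A : I → ℂ × (ℂ × ℂ) → (F →L[ℂ] F) := fun e z => if z.1 ∈ K₁ then φ₁.A e z else φ₂.A e z
  let b : I → ℂ × (ℂ × ℂ) → F := fun e z => if z.1 ∈ K₁ then φ₁.b e z else φ₂.b e z
  have hA1 : ∀ e z, z.1 ∈ K₁ → A e z = φ₁.A e z := fun e z hz => if_pos hz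
  have hA2 : ∀ e z, z.1 ∈ K₂ → z.2 ∈ Q → z ∈ c.U e → A e z = φ₂.A e z := by
    intro e z hz hq he
    by_cases h3 : z.1 ∈ K₁
    · rw [hA1 e z h3]; exact hA z ⟨⟨h3, hz⟩, hq⟩ e he
    · exact if_neg h3
  have hb1 : ∀ e z, z.1 ∈ K₁ → b e z = φ₁.b e z := fun e z hz => if_pos hz
  have hb2 : ∀ e z, z.1 ∈ K₂ → z.2 ∈ Q → z ∈ c.U e → b e z = φ₂.b e z := by
    intro e z hz hq he
    by_cases h3 : z.1 ∈ K₁
    · rw [hb1 e z h3]; exact hb z ⟨⟨h3, hz⟩, hq⟩ e he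
    · exact if_neg h3
  have hev : ∀ (K' : Set ℂ), ∀ z ∈ K' ×ˢ Q, ∀ e, z ∈ c.U e →
      ∀ᶠ z' in 𝓝[K' ×ˢ Q] z, z' ∈ K' ×ˢ Q ∧ z' ∈ c.U e := by
    intro K' z hz e he
    exact (eventually_mem_nhdsWithin).and (mem_nhdsWithin_of_mem_nhds ((c.isOpen_U e).mem_nhds he))
  have hcase : ∀ z ∈ K ×ˢ Q, z.1 ∈ K₁ ∨ z.1 ∈ K₂ := by
    intro z hz
    have := hz.1
    rwa [hK] at this
  refine ⟨⟨A, b, ?_, ?_, ?_, ?_, ?_⟩⟩
  · intro e z hz he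
    refine JHAt.union h1 h2 hQ hK hint hz (fun h3 => ?_) (fun h3 => ?_)
    · refine JHAt.congr ⟨h3, hz.2⟩ (φ₁.jA e z ⟨h3, hz.2⟩ he) ?_
      filter_upwards [hev K₁ z ⟨h3, hz.2⟩ e he] with z' hz'
      exact hA1 e z' hz'.1.1
    · refine JHAt.congr ⟨h3, hz.2⟩ (φ₂.jA e z ⟨h3, hz.2⟩ he) ?_
      filter_upwards [hev K₂ z ⟨h3, hz.2⟩ e he] with z' hz'
      exact hA2 e z' hz'.1.1 hz'.1.2 hz'.2
  · intro e z hz he
    refine JHAt.union h1 h2 hQ hK hint hz (fun h3 => ?_) (fun h3 => ?_)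
    · refine JHAt.congr ⟨h3, hz.2⟩ (φ₁.jb e z ⟨h3, hz.2⟩ he) ?_
      filter_upwards [hev K₁ z ⟨h3, hz.2⟩ e he] with z' hz'
      exact hb1 e z' hz'.1.1
    · refine JHAt.congr ⟨h3, hz.2⟩ (φ₂.jb e z ⟨h3, hz.2⟩ he) ?_
      filter_upwards [hev K₂ z ⟨h3, hz.2⟩ e he] with z' hz'
      exact hb2 e z' hz'.1.1 hz'.1.2 hz'.2
  · intro e z hz he
    rcases hcase z hz with h3 | h3
    · rw [hA1 e z h3]; exact φ₁.uA e z ⟨h3, hz.2⟩ he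
    · rw [hA2 e z h3 hz.2 he]; exact φ₂.uA e z ⟨h3, hz.2⟩ he
  · intro e' e z hz he he'
    rcases hcase z hz with h3 | h3
    · rw [hA1 e z h3, hA1 e' z h3]; exact φ₁.cA e' e z ⟨h3, hz.2⟩ he he'
    · rw [hA2 e z h3 hz.2 he, hA2 e' z h3 hz.2 he']; exact φ₂.cA e' e z ⟨h3, hz.2⟩ he he'
  · intro e' e z hz he he'
    rcases hcase z hz with h3 | h3
    · rw [hb1 e z h3, hA1 e' z h3, hb1 e' z h3]; exact φ₁.cb e' e z ⟨h3, hz.2⟩ he he'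
    · rw [hb2 e z h3 hz.2 he, hA2 e' z h3 hz.2 he', hb2 e' z h3 hz.2 he']
      exact φ₂.cb e' e z ⟨h3, hz.2⟩ he he'

lemma Rct_mono {a b γ δ a' b' γ' δ' : ℝ} (h1 : a' ≤ a) (h2 : b ≤ b') (h3 : γ' ≤ γ) (h4 : δ ≤ δ') :
    Rct a b γ δ ⊆ Rct a' b' γ' δ' := by
  intro z hz
  rw [mem_Rct] at hz ⊢
  exact ⟨⟨h1.trans hz.1.1, hz.1.2.trans h2⟩, h3.trans hz.2.1, hz.2.2.trans h4⟩

/-- gluing frames over overlapping rectangles -/
theorem Frame.hglue {a α β b γ δ : ℝ} (h1 : a ≤ α) (h2 : α < β) (h3 : β ≤ b) (h4 : γ < δ)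
    (hQ : IsCompact Q) (hQD : Q ⊆ c.D) (φ₁ : Frame c (Rct a β γ δ) Q)
    (φ₂ : Frame c (Rct α b γ δ) Q) : Nonempty (Frame c (Rct a b γ δ) Q) := by
  have e1 : Rct α β γ δ ⊆ Rct a β γ δ := Rct_mono h1 le_rfl le_rfl le_rfl
  have e2 : Rct α β γ δ ⊆ Rct α b γ δ := Rct_mono le_rfl h3 le_rfl le_rfl
  obtain ⟨G, h, hGJ, hGu, hhJ, hGh⟩ := Frame.exists_transition (φ₁.mono e1 (Subset.refl Q))
    (φ₂.mono e2 (Subset.refl Q)) hQD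
  obtain ⟨A₁, A₂, hA₁, hA₂, hGA⟩ := cartan_param hQ h1 h2 h3 h4 hGJ hGu
  -- additive splitting
  have hiJ : ∀ z ∈ Rct α β γ δ ×ˢ Q, JHAt (Rct α β γ δ) Q (fun z => Ring.inverse (A₁ z) (h z)) z := by
    intro z hz
    have h5 := hA₁ z ⟨e1 hz.1, hz.2⟩
    exact ((h5.1.mono e1 (Subset.refl Q)).inverse h5.2).clm_apply (hhJ z hz)
  obtain ⟨f₁, f₂, hf₁, hf₂, hf⟩ := split_param hQ h1 h2 h3 h4 hiJ
  have hneg : ∀ z ∈ Rct a β γ δ ×ˢ Q, JHAt (Rct a β γ δ) Q (fun z => - f₁ z) z := by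
    intro z hz
    have h0 : JHAt (Rct a β γ δ) Q (fun _ => (0 : F)) z :=
      JHAt.of_differentiableAt (differentiableAt_const _)
    have h6 := h0.sub (hf₁ z hz)
    simpa only [zero_sub] using h6
  let ψ₁ := φ₁.tr (fun z => Ring.inverse (A₁ z)) (fun z => - f₁ z)
    (fun z hz => (hA₁ z hz).1.inverse (hA₁ z hz).2) (fun z hz => (hA₁ z hz).2.ringInverse) hneg
  let ψ₂ := φ₂.tr A₂ f₂ (fun z hz => (hA₂ z hz).1) (fun z hz => (hA₂ z hz).2) hf₂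
  have hinter : Rct a β γ δ ∩ Rct α b γ δ ⊆ Rct α β γ δ := by
    intro z hz
    have h5 := mem_Rct.1 hz.1
    have h6 := mem_Rct.1 hz.2
    exact mem_Rct.2 ⟨⟨h6.1.1, h5.1.2⟩, h5.2⟩
  have key : ∀ z ∈ Rct α β γ δ ×ˢ Q, Ring.inverse (A₁ z) * G z = A₂ z := by
    intro z hz
    rw [hGA z hz, Ring.inverse_mul_cancel_left _ _ (hA₁ z ⟨e1 hz.1, hz.2⟩).2]
  refine Frame.glue (K₁ := Rct a β γ δ) (K₂ := Rct α b γ δ) (isCompact_Rct _ _ _ _).isClosed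
    (isCompact_Rct _ _ _ _).isClosed hQ.isClosed ?_ ?_ ψ₁ ψ₂ ?_ ?_
  · ext z
    rw [mem_union, mem_Rct, mem_Rct, mem_Rct]
    constructor
    · rintro ⟨⟨h5, h6⟩, h7⟩
      rcases le_total z.re β with h8 | h8
      · exact Or.inl ⟨⟨h5, h8⟩, h7⟩
      · exact Or.inr ⟨⟨h2.le.trans h8, h6⟩, h7⟩
    · rintro (⟨⟨h5, h6⟩, h7⟩ | ⟨⟨h5, h6⟩, h7⟩)
      · exact ⟨⟨h5, h6.trans h3⟩, h7⟩
      · exact ⟨⟨h1.trans h5, h6⟩, h7⟩
  · intro z hz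
    rw [mem_union, mem_interior_Rct, mem_interior_Rct]
    rw [mem_interior_Rct] at hz
    rcases lt_or_ge z.re β with h8 | h8
    · exact Or.inl ⟨⟨hz.1.1, h8⟩, hz.2⟩
    · exact Or.inr ⟨⟨h2.trans_le h8, hz.1.2⟩, hz.2⟩
  · intro z hz e he
    have hz' : z ∈ Rct α β γ δ ×ˢ Q := ⟨hinter hz.1, hz.2⟩
    have h5 := (hGh z hz' e he).1
    change Ring.inverse (A₁ z) * φ₁.A e z = A₂ z * φ₂.A e z
    change φ₁.A e z = G z * φ₂.A e z at h5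
    rw [h5, ← mul_assoc, key z hz']
  · intro z hz e he
    have hz' : z ∈ Rct α β γ δ ×ˢ Q := ⟨hinter hz.1, hz.2⟩
    have h5 := (hGh z hz' e he).2
    change Ring.inverse (A₁ z) (φ₁.b e z) + - f₁ z = A₂ z (φ₂.b e z) + f₂ z
    change φ₁.b e z = G z (φ₂.b e z) + h z at h5
    have h6 := hf z hz'
    beta_reduce at h6
    rw [h5, map_add, h6, ← ContinuousLinearMap.mul_apply, key z hz']
    abel

end

end Pool.Agent.Y261.VG
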