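import Mathlib
import Pool.Agent.Y261.VG.Frame

set_option autoImplicit false
set_option linter.unusedSectionVars false
set_option linter.style.haveILetI false

open Set Filter Topology Metric Complex

namespace Pool.Agent.Y261.VG

section
variable {I : Type*} {F : Type*} [NormedAddCommGroup F] [NormedSpace ℂ F] [CompleteSpace F]
  {c : Cocyc I F} {K K' : Set ℂ} {Q Q' : Set (ℂ × ℂ)}

/-- regularity under multiplication of the first variable -/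
lemma JHAt.pull {W : Type*} [NormedAddCommGroup W] [NormedSpace ℂ W] {κ : ℂ} (hκ : κ ≠ 0)
    {G : ℂ × (ℂ × ℂ) → W} {z : ℂ × (ℂ × ℂ)} (h : JHAt K Q G (κ * z.1, z.2)) :
    JHAt {x | κ * x ∈ K} Q (fun z => G (κ * z.1, z.2)) z := by
  refine ⟨?_, fun h1 => ?_, fun h1 => ⟨(h.2.2 h1).1, (h.2.2 h1).2⟩⟩
  · refine ContinuousWithinAt.comp (t := K ×ˢ Q) (f := fun z : ℂ × (ℂ × ℂ) => (κ * z.1, z.2)) h.1
      (by fun_prop) ?_
    intro z hz
    exact ⟨hz.1, hz.2⟩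
  · have h2 : κ * z.1 ∈ interior K := by
      have h4 : interior ((fun x : ℂ => κ * x) ⁻¹' K) = (fun x : ℂ => κ * x) ⁻¹' interior K := by
        have := (Homeomorph.mulLeft₀ κ hκ).preimage_interior K
        exact this.symm
      change z.1 ∈ interior ((fun x : ℂ => κ * x) ⁻¹' K) at h1
      rw [h4] at h1
      exact h1
    exact DifferentiableAt.comp (f := fun x : ℂ => κ * x) (g := fun x => G (x, z.2)) z.1
      (h.2.1 h2) (by fun_prop)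

/-- pulling back a frame -/
noncomputable def Frame.pull {c c' : Cocyc I F} {κ : ℂ} (hκ : κ ≠ 0)
    (hU : ∀ e z, z ∈ c'.U e ↔ (κ * z.1, z.2) ∈ c.U e)
    (hM : ∀ e e' z, c'.M e' e z = c.M e' e (κ * z.1, z.2))
    (hm : ∀ e e' z, c'.m e' e z = c.m e' e (κ * z.1, z.2)) (φ : Frame c K Q) :
    Frame c' {x | κ * x ∈ K} Q where
  A e z := φ.A e (κ * z.1, z.2)
  b e z := φ.b e (κ * z.1, z.2)
  jA e z hz he := JHAt.pull hκ (φ.jA e (κ * z.1, z.2) ⟨hz.1, hz.2⟩ ((hU e z).1 he))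
  jb e z hz he := JHAt.pull hκ (φ.jb e (κ * z.1, z.2) ⟨hz.1, hz.2⟩ ((hU e z).1 he))
  uA e z hz he := φ.uA e (κ * z.1, z.2) ⟨hz.1, hz.2⟩ ((hU e z).1 he)
  cA e' e z hz h1 h2 := by
    rw [hM]
    exact φ.cA e' e (κ * z.1, z.2) ⟨hz.1, hz.2⟩ ((hU e z).1 h1) ((hU e' z).1 h2)
  cb e' e z hz h1 h2 := by
    rw [hm]
    exact φ.cb e' e (κ * z.1, z.2) ⟨hz.1, hz.2⟩ ((hU e z).1 h1) ((hU e' z).1 h2)

/-- the rotated cocycle -/
noncomputable def Cocyc.rot (c : Cocyc I F) (κ : ℂ) : Cocyc I F where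
  D := c.D
  isOpen_D := c.isOpen_D
  U e := {z | (κ * z.1, z.2) ∈ c.U e}
  isOpen_U e := (c.isOpen_U e).preimage (f := fun z : ℂ × (ℂ × ℂ) => (κ * z.1, z.2)) (by fun_prop)
  cov z hz := c.cov (κ * z.1, z.2) hz
  M e' e z := c.M e' e (κ * z.1, z.2)
  m e' e z := c.m e' e (κ * z.1, z.2)
  dM e' e z h1 h2 := DifferentiableAt.comp (g := c.M e' e)
    (f := fun z : ℂ × (ℂ × ℂ) => (κ * z.1, z.2)) z (c.dM e' e (κ * z.1, z.2) h1 h2) (by fun_prop)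
  dm e' e z h1 h2 := DifferentiableAt.comp (g := c.m e' e)
    (f := fun z : ℂ × (ℂ × ℂ) => (κ * z.1, z.2)) z (c.dm e' e (κ * z.1, z.2) h1 h2) (by fun_prop)
  uM e' e z h1 h2 := c.uM e' e (κ * z.1, z.2) h1 h2
  cM e'' e' e z h1 h2 h3 := c.cM e'' e' e (κ * z.1, z.2) h1 h2 h3
  cm e'' e' e z h1 h2 h3 := c.cm e'' e' e (κ * z.1, z.2) h1 h2 h3

lemma Frame.rotI {a b γ δ : ℝ} (φ : Frame c (Rct a b γ δ) Q) :
    Nonempty (Frame (c.rot Complex.I) (Rct γ δ (-b) (-a)) Q) := by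
  refine ⟨(φ.pull (c' := c.rot Complex.I) (κ := Complex.I) Complex.I_ne_zero
    (fun e z => Iff.rfl) (fun _ _ _ => rfl) (fun _ _ _ => rfl)).mono ?_ (Subset.refl Q)⟩
  intro x hx
  rw [mem_Rct] at hx
  change Complex.I * x ∈ Rct a b γ δ
  rw [mem_Rct, Complex.I_mul_re, Complex.I_mul_im]
  exact ⟨⟨by linarith [hx.2.2], by linarith [hx.2.1]⟩, hx.1⟩

lemma Frame.unrotI {a b γ δ : ℝ} (φ : Frame (c.rot Complex.I) (Rct γ δ (-b) (-a)) Q) :
    Nonempty (Frame c (Rct a b γ δ) Q) := by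
  have hI : ∀ x : ℂ, Complex.I * (-Complex.I * x) = x := by
    intro x
    rw [← mul_assoc, mul_neg, Complex.I_mul_I, neg_neg, one_mul]
  refine ⟨(φ.pull (c' := c) (κ := -Complex.I) (neg_ne_zero.2 Complex.I_ne_zero)
    (fun e z => ?_) (fun e e' z => ?_) (fun e e' z => ?_)).mono ?_ (Subset.refl Q)⟩
  · change z ∈ c.U e ↔ (Complex.I * (-Complex.I * z.1), z.2) ∈ c.U e
    rw [hI]
  · change c.M e' e z = c.M e' e (Complex.I * (-Complex.I * z.1), z.2)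
    rw [hI]
  · change c.m e' e z = c.m e' e (Complex.I * (-Complex.I * z.1), z.2)
    rw [hI]
  · intro x hx
    rw [mem_Rct] at hx
    change -Complex.I * x ∈ Rct γ δ (-b) (-a)
    have h1 : (-Complex.I * x).re = x.im := by simp
    have h2 : (-Complex.I * x).im = -x.re := by simp
    rw [mem_Rct, h1, h2]
    exact ⟨hx.2, by linarith [hx.1.2], by linarith [hx.1.1]⟩

/-- existence of a frame near a closed rectangle times a point -/
def PF (c : Cocyc I F) (q₀ : ℂ × ℂ) (a b γ δ : ℝ) : Prop :=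
  ∃ ε : ℝ, 0 < ε ∧ closedBall q₀ ε ⊆ c.D ∧
    Nonempty (Frame c (Rct (a - ε) (b + ε) (γ - ε) (δ + ε)) (closedBall q₀ ε))

lemma PF.mono {q₀ : ℂ × ℂ} {a b γ δ a' b' γ' δ' : ℝ} (h : PF c q₀ a' b' γ' δ') (h1 : a' ≤ a)
    (h2 : b ≤ b') (h3 : γ' ≤ γ) (h4 : δ ≤ δ') : PF c q₀ a b γ δ := by
  obtain ⟨ε, hε, hD, ⟨φ⟩⟩ := h
  exact ⟨ε, hε, hD, ⟨φ.mono (Rct_mono (by linarith) (by linarith) (by linarith) (by linarith))
    (Subset.refl _)⟩⟩

lemma PF.shrink {q₀ : ℂ × ℂ} {a b γ δ : ℝ} {ε ε' : ℝ} (hε : ε ≤ ε')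
    (φ : Frame c (Rct (a - ε') (b + ε') (γ - ε') (δ + ε')) (closedBall q₀ ε')) :
    Nonempty (Frame c (Rct (a - ε) (b + ε) (γ - ε) (δ + ε)) (closedBall q₀ ε)) :=
  ⟨φ.mono (Rct_mono (by linarith) (by linarith) (by linarith) (by linarith))
    (closedBall_subset_closedBall hε)⟩

lemma PF.hglue {q₀ : ℂ × ℂ} {a s b γ δ : ℝ} (h1 : a ≤ s) (h2 : s ≤ b) (h4 : γ ≤ δ)
    (hl : PF c q₀ a s γ δ) (hr : PF c q₀ s b γ δ) : PF c q₀ a b γ δ := by
  obtain ⟨ε₁, hε₁, hD₁, ⟨φ₁⟩⟩ := hl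
  obtain ⟨ε₂, hε₂, hD₂, ⟨φ₂⟩⟩ := hr
  obtain ⟨ψ₁⟩ := PF.shrink (min_le_left ε₁ ε₂) φ₁
  obtain ⟨ψ₂⟩ := PF.shrink (min_le_right ε₁ ε₂) φ₂
  have hε : 0 < min ε₁ ε₂ := lt_min hε₁ hε₂
  have hD : closedBall q₀ (min ε₁ ε₂) ⊆ c.D :=
    (closedBall_subset_closedBall (min_le_left _ _)).trans hD₁
  refine ⟨min ε₁ ε₂, hε, hD, ?_⟩
  exact Frame.hglue (by linarith) (by linarith) (by linarith) (by linarith)
    (isCompact_closedBall _ _) hD ψ₁ ψ₂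

lemma PF.rotI {q₀ : ℂ × ℂ} {a b γ δ : ℝ} (h : PF c q₀ a b γ δ) :
    PF (c.rot Complex.I) q₀ γ δ (-b) (-a) := by
  obtain ⟨ε, hε, hD, ⟨φ⟩⟩ := h
  obtain ⟨ψ⟩ := φ.rotI
  refine ⟨ε, hε, hD, ⟨ψ.mono (Rct_mono (by linarith) (by linarith) (by linarith) (by linarith))
    (Subset.refl _)⟩⟩

lemma PF.unrotI {q₀ : ℂ × ℂ} {a b γ δ : ℝ} (h : PF (c.rot Complex.I) q₀ γ δ (-b) (-a)) :
    PF c q₀ a b γ δ := by
  obtain ⟨ε, hε, hD, ⟨φ⟩⟩ := h
  have φ' := φ.mono (K' := Rct (γ - ε) (δ + ε) (-(b + ε)) (-(a - ε)))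
    (Rct_mono (by linarith) (by linarith) (by linarith) (by linarith)) (Subset.refl _)
  exact ⟨ε, hε, hD, φ'.unrotI⟩

lemma PF.vglue {q₀ : ℂ × ℂ} {a s b γ δ : ℝ} (h0 : a ≤ b) (h1 : γ ≤ s) (h2 : s ≤ δ)
    (hl : PF c q₀ a b γ s) (hr : PF c q₀ a b s δ) : PF c q₀ a b γ δ :=
  PF.unrotI (PF.hglue h1 h2 (by linarith) hl.rotI hr.rotI)

lemma PF.enlarge {q₀ : ℂ × ℂ} {a b γ δ : ℝ} (h : PF c q₀ a b γ δ) :
    ∃ η > 0, PF c q₀ (a - η) (b + η) (γ - η) (δ + η) := by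
  obtain ⟨ε, hε, hD, ⟨φ⟩⟩ := h
  refine ⟨ε / 2, by linarith, ε / 2, by linarith,
    (closedBall_subset_closedBall (by linarith)).trans hD, ?_⟩
  exact ⟨φ.mono (Rct_mono (by linarith) (by linarith) (by linarith) (by linarith))
    (closedBall_subset_closedBall (by linarith))⟩

lemma PF.point {q₀ : ℂ × ℂ} (hq₀ : q₀ ∈ c.D) (x : ℂ) : PF c q₀ x.re x.re x.im x.im := by
  obtain ⟨e, he⟩ := c.cov (x, q₀) hq₀
  obtain ⟨ε₁, hε₁, h1⟩ := nhds_basis_closedBall.mem_iff.1 ((c.isOpen_U e).mem_nhds he)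
  obtain ⟨ε₂, hε₂, h2⟩ := nhds_basis_closedBall.mem_iff.1 (c.isOpen_D.mem_nhds hq₀)
  set ε := min (ε₁ / 2) ε₂ with hε
  have hεp : 0 < ε := lt_min (by linarith) hε₂
  refine ⟨ε, hεp, (closedBall_subset_closedBall (min_le_right _ _)).trans h2, ⟨Frame.loc c e ?_⟩⟩
  rintro ⟨x', q'⟩ ⟨hx', hq'⟩
  apply h1
  rw [mem_closedBall, Prod.dist_eq]
  refine max_le ?_ ?_
  · have h3 := mem_Rct.1 hx'
    have h4 : ‖x' - x‖ ≤ |(x' - x).re| + |(x' - x).im| := Complex.norm_le_abs_re_add_abs_im _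
    have h5 : |(x' - x).re| ≤ ε := by
      rw [Complex.sub_re, abs_le]; constructor <;> linarith [h3.1.1, h3.1.2]
    have h6 : |(x' - x).im| ≤ ε := by
      rw [Complex.sub_im, abs_le]; constructor <;> linarith [h3.2.1, h3.2.2]
    have h7 : ε ≤ ε₁ / 2 := min_le_left _ _
    rw [dist_eq_norm]
    linarith
  · have h3 := mem_closedBall.1 hq'
    have h7 : ε ≤ ε₁ / 2 := min_le_left _ _
    change dist q' q₀ ≤ ε₁
    linarith

/-- one-dimensional induction -/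
lemma interval_induction {R : ℝ → ℝ → Prop}
    (hmono : ∀ a b a' b', R a' b' → a' ≤ a → b ≤ b' → R a b)
    (hglue : ∀ a s b, a ≤ s → s ≤ b → R a s → R s b → R a b)
    (hloc : ∀ x, ∃ η > 0, R (x - η) (x + η)) {a b : ℝ} (hab : a ≤ b) : R a b := by
  choose η hη hR using hloc
  obtain ⟨t, ht0, htm, ⟨m, hm⟩, hcov⟩ := exists_monotone_Icc_subset_open_cover_Icc hab
    (c := fun x : ℝ => (fun y : Icc a b => (y : ℝ)) ⁻¹' (Ioo (x - η x) (x + η x)))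
    (fun x => isOpen_Ioo.preimage continuous_subtype_val)
    (fun y _ => mem_iUnion.2 ⟨y, by
      have := hη y
      exact ⟨by linarith, by linarith⟩⟩)
  have hstep : ∀ n, R (t n) (t (n + 1)) := by
    intro n
    obtain ⟨x, hx⟩ := hcov n
    have h1 : t n ∈ Icc (t n) (t (n + 1)) := ⟨le_rfl, htm (Nat.le_succ n)⟩
    have h2 : t (n + 1) ∈ Icc (t n) (t (n + 1)) := ⟨htm (Nat.le_succ n), le_rfl⟩
    exact hmono _ _ _ _ (hR x) (hx h1).1.le (hx h2).2.le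
  have hall : ∀ n, R a (t n) := by
    intro n
    induction n with
    | zero =>
      rw [ht0]
      exact hmono _ _ _ _ (hR a) (by have := hη a; linarith) (by have := hη a; linarith)
    | succ n ih =>
      exact hglue _ _ _ (t n).2.1 (htm (Nat.le_succ n)) ih (hstep n)
  have := hall m
  rwa [hm m le_rfl] at this

theorem PF_all {q₀ : ℂ × ℂ} (hq₀ : q₀ ∈ c.D) {a b γ δ : ℝ} (hab : a ≤ b) (hγδ : γ ≤ δ) :
    PF c q₀ a b γ δ := by
  have h1 : ∀ y : ℝ, PF c q₀ a b y y := by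
    intro y
    refine interval_induction (R := fun a b => PF c q₀ a b y y)
      (fun a b a' b' h h1 h2 => h.mono h1 h2 le_rfl le_rfl)
      (fun a s b h1 h2 h3 h4 => PF.hglue h1 h2 le_rfl h3 h4) (fun x => ?_) hab
    obtain ⟨η, hη, h⟩ := (PF.point hq₀ ⟨x, y⟩).enlarge
    exact ⟨η, hη, h.mono le_rfl le_rfl (by simp only; linarith) (by simp only; linarith)⟩
  refine interval_induction (R := fun γ δ => PF c q₀ a b γ δ)
    (fun γ δ γ' δ' h h1 h2 => h.mono le_rfl le_rfl h1 h2)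
    (fun γ s δ h1 h2 h3 h4 => PF.vglue hab h1 h2 h3 h4) (fun y => ?_) hγδ
  obtain ⟨η, hη, h⟩ := (h1 y).enlarge
  exact ⟨η, hη, h.mono (by linarith) (by linarith) le_rfl le_rfl⟩

end

end Pool.Agent.Y261.VG
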