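import Mathlib

set_option autoImplicit false
set_option linter.unusedSectionVars false
set_option linter.style.haveILetI false

open Set Filter Topology
open scoped ContDiff

namespace Pool.Agent.Y261.VG

/-! # Analytic Fredholm theory, local form -/

section
variable {X Z : Type*} [NormedAddCommGroup X] [NormedSpace ℂ X] [CompleteSpace X]
  [NormedAddCommGroup Z] [NormedSpace ℂ Z] [CompleteSpace Z]

/-- the bordered operator -/
noncomputable def bord {r s : ℕ} (π : X →L[ℂ] (Fin r → ℂ)) (j : (Fin s → ℂ) →L[ℂ] Z)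
    (u : X →L[ℂ] Z) : X × (Fin s → ℂ) →L[ℂ] Z × (Fin r → ℂ) :=
  (u.comp (ContinuousLinearMap.fst ℂ _ _) + j.comp (ContinuousLinearMap.snd ℂ _ _)).prod
    (π.comp (ContinuousLinearMap.fst ℂ _ _))

lemma bord_apply {r s : ℕ} (π : X →L[ℂ] (Fin r → ℂ)) (j : (Fin s → ℂ) →L[ℂ] Z)
    (u : X →L[ℂ] Z) (p : X × (Fin s → ℂ)) : bord π j u p = (u p.1 + j p.2, π p.1) := rfl

lemma exists_bord {u : X →L[ℂ] Z} (hu : u.IsFredholm) :
    ∃ (r s : ℕ) (π : X →L[ℂ] (Fin r → ℂ)) (j : (Fin s → ℂ) →L[ℂ] Z),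
      Function.Bijective (bord π j u) := by
  haveI := hu.finite_ker
  obtain ⟨f, hf⟩ := hu.closedComplemented_ker
  obtain ⟨C, hC⟩ := hu.closedComplemented_range.exists_isTopCompl
  haveI : FiniteDimensional ℂ C := .of_fg (hu.finite_coker.fg_of_isCompl hC.isCompl)
  let eK : u.ker ≃L[ℂ] (Fin (Module.finrank ℂ u.ker) → ℂ) :=
    (Module.finBasis ℂ u.ker).equivFun.toContinuousLinearEquiv
  let eC : C ≃L[ℂ] (Fin (Module.finrank ℂ C) → ℂ) :=
    (Module.finBasis ℂ C).equivFun.toContinuousLinearEquiv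
  refine ⟨Module.finrank ℂ u.ker, Module.finrank ℂ C, (eK : u.ker →L[ℂ] _).comp f,
    C.subtypeL.comp (eC.symm : (Fin (Module.finrank ℂ C) → ℂ) →L[ℂ] C), ?_, ?_⟩
  · rw [injective_iff_map_eq_zero]
    rintro ⟨v, ζ⟩ h
    rw [bord_apply, Prod.mk_eq_zero] at h
    obtain ⟨h1, h2⟩ := h
    simp only [ContinuousLinearMap.comp_apply, ContinuousLinearEquiv.coe_coe,
      Submodule.subtypeL_apply] at h1 h2
    have h3 : u v = -(eC.symm ζ : Z) := eq_neg_of_add_eq_zero_left h1
    have h4 : u v = 0 := by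
      have h5 : u v ∈ u.range ⊓ C := ⟨⟨v, rfl⟩, by rw [h3]; exact C.neg_mem (eC.symm ζ).2⟩
      rw [hC.isCompl.inf_eq_bot] at h5
      simpa using h5
    have h5 : ζ = 0 := by
      rw [h4, zero_add] at h1
      have h6 : eC.symm ζ = 0 := Subtype.ext h1
      simpa using h6
    have h6 : f v = 0 := by simpa using h2
    have h7 := hf ⟨v, h4⟩
    simp only at h7
    rw [h6] at h7
    have h8 : v = 0 := by simpa using (congrArg Subtype.val h7).symm
    rw [h8, h5]; rfl
  · rintro ⟨z, ξ⟩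
    have h1 : z ∈ u.range ⊔ C := by rw [hC.isCompl.sup_eq_top]; trivial
    obtain ⟨a, ⟨v₁, rfl⟩, c, hc, rfl⟩ := Submodule.mem_sup.1 h1
    refine ⟨(v₁ + (eK.symm ξ - f v₁ : u.ker), eC ⟨c, hc⟩), ?_⟩
    rw [bord_apply]
    have h2 : u ((eK.symm ξ - f v₁ : u.ker) : X) = 0 := (eK.symm ξ - f v₁ : u.ker).2
    have h3 : f ((eK.symm ξ - f v₁ : u.ker) : X) = eK.symm ξ - f v₁ := hf _
    refine Prod.ext ?_ ?_
    · simp only [map_add, h2, add_zero]
      simp
    · simp only [map_add, ContinuousLinearMap.comp_apply, ContinuousLinearEquiv.coe_coe, h3]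
      rw [← map_add]
      simp

lemma bijective_iff_schur {r s : ℕ} {π : X →L[ℂ] (Fin r → ℂ)} {j : (Fin s → ℂ) →L[ℂ] Z}
    {u : X →L[ℂ] Z} {E : Z × (Fin r → ℂ) →L[ℂ] X × (Fin s → ℂ)}
    (hE1 : ∀ p, E (bord π j u p) = p) (hE2 : ∀ q, bord π j u (E q) = q) :
    Function.Bijective u ↔ Function.Bijective (fun ξ : Fin r → ℂ => (E (0, ξ)).2) := by
  have hE3 : ∀ z ξ, u (E (z, ξ)).1 + j (E (z, ξ)).2 = z := fun z ξ =>
    congrArg Prod.fst (hE2 (z, ξ))
  have hE4 : ∀ z ξ, π (E (z, ξ)).1 = ξ := fun z ξ => congrArg Prod.snd (hE2 (z, ξ))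
  have hE5 : ∀ v ζ, E (u v + j ζ, π v) = (v, ζ) := fun v ζ => hE1 (v, ζ)
  constructor
  · rintro ⟨h1, h2⟩
    constructor
    · have hlin : ∀ ξ ξ', (E (0, ξ)).2 = (E (0, ξ')).2 → (E (0, ξ - ξ')).2 = 0 := by
        intro ξ ξ' h
        have : ((0 : Z), ξ - ξ') = (0, ξ) - (0, ξ') := by simp
        rw [this, map_sub, Prod.snd_sub, h, sub_self]
      intro ξ ξ' h
      have h3 := hlin ξ ξ' h
      have h4 := hE3 0 (ξ - ξ')
      rw [h3, map_zero, add_zero] at h4
      have h5 : (E (0, ξ - ξ')).1 = 0 := h1 (by rw [h4, map_zero])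
      have h6 := hE4 0 (ξ - ξ')
      rw [h5, map_zero] at h6
      exact (sub_eq_zero.1 h6.symm)
    · intro ζ
      obtain ⟨v, hv⟩ := h2 (-j ζ)
      refine ⟨π v, ?_⟩
      have := hE5 v ζ
      rw [hv, neg_add_cancel] at this
      simp only [this]
  · rintro ⟨h1, h2⟩
    constructor
    · rw [injective_iff_map_eq_zero]
      intro v hv
      have h3 := hE5 v 0
      rw [hv, map_zero, add_zero] at h3
      have h4 : π v = 0 := by
        apply h1
        simp only [h3]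
        have : ((0 : Z), (0 : Fin r → ℂ)) = 0 := rfl
        rw [this, map_zero]; rfl
      rw [h4] at h3
      have : ((0 : Z), (0 : Fin r → ℂ)) = 0 := rfl
      rw [this, map_zero] at h3
      exact (congrArg Prod.fst h3).symm
    · intro z
      obtain ⟨ξ, hξ⟩ := h2 (-(E (z, 0)).2)
      refine ⟨(E (z, ξ)).1, ?_⟩
      have h3 : E (z, ξ) = E (z, 0) + E (0, ξ) := by rw [← map_add]; simp
      have h4 : (E (z, ξ)).2 = 0 := by
        rw [h3, Prod.snd_add]; simp only at hξ; rw [hξ]; simp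
      have h5 := hE3 z ξ
      rw [h4, map_zero, add_zero] at h5
      exact h5

lemma analyticAt_clm_comp {G₁ G₂ G₃ : Type*} [NormedAddCommGroup G₁] [NormedSpace ℂ G₁]
    [NormedAddCommGroup G₂] [NormedSpace ℂ G₂] [NormedAddCommGroup G₃] [NormedSpace ℂ G₃]
    {A : ℂ → (G₂ →L[ℂ] G₃)} {B : ℂ → (G₁ →L[ℂ] G₂)} {y₀ : ℂ} (hA : AnalyticAt ℂ A y₀)
    (hB : AnalyticAt ℂ B y₀) : AnalyticAt ℂ (fun y => (A y).comp (B y)) y₀ :=
  ((ContinuousLinearMap.compL ℂ G₁ G₂ G₃).analyticAt_bilinear (A y₀, B y₀)).comp₂ hA hB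

lemma analyticAt_clm_apply {G₁ G₂ : Type*} [NormedAddCommGroup G₁] [NormedSpace ℂ G₁]
    [NormedAddCommGroup G₂] [NormedSpace ℂ G₂]
    {A : ℂ → (G₁ →L[ℂ] G₂)} {y₀ : ℂ} (hA : AnalyticAt ℂ A y₀) {b : ℂ → G₁}
    (hb : AnalyticAt ℂ b y₀) : AnalyticAt ℂ (fun y => A y (b y)) y₀ :=
  ((ContinuousLinearMap.id ℂ (G₁ →L[ℂ] G₂)).analyticAt_bilinear (A y₀, b y₀)).comp₂ hA hb

/-- Matrices as continuous linear maps, linearly. -/
noncomputable def matCLM (r : ℕ) : (Fin r → Fin r → ℂ) →L[ℂ] ((Fin r → ℂ) →L[ℂ] (Fin r → ℂ)) :=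
  LinearMap.toContinuousLinearMap
    { toFun := fun M => LinearMap.toContinuousLinearMap (Matrix.toLin' (Matrix.of M))
      map_add' := fun M N => by
        ext v i
        simp [Matrix.toLin'_apply, Matrix.mulVec, dotProduct, add_mul, Finset.sum_add_distrib]
      map_smul' := fun c M => by
        ext v i
        simp [Matrix.toLin'_apply, Matrix.mulVec, dotProduct, Finset.mul_sum, mul_assoc] }

lemma matCLM_apply (r : ℕ) (M : Fin r → Fin r → ℂ) (v : Fin r → ℂ) :
    matCLM r M v = (Matrix.of M).mulVec v := rfl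

lemma analyticAt_det {r : ℕ} {M : ℂ → Matrix (Fin r) (Fin r) ℂ} {y₀ : ℂ}
    (h : ∀ i j, AnalyticAt ℂ (fun y => M y i j) y₀) : AnalyticAt ℂ (fun y => (M y).det) y₀ := by
  simp only [Matrix.det_apply']
  refine Finset.analyticAt_fun_sum _ fun σ _ => ?_
  refine AnalyticAt.mul analyticAt_const ?_
  exact Finset.analyticAt_fun_prod _ fun i _ => h _ _

lemma analyticAt_adjugate {r : ℕ} {M : ℂ → Matrix (Fin r) (Fin r) ℂ} {y₀ : ℂ}
    (h : ∀ i j, AnalyticAt ℂ (fun y => M y i j) y₀) (i j : Fin r) :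
    AnalyticAt ℂ (fun y => (M y).adjugate i j) y₀ := by
  simp only [Matrix.adjugate_apply]
  refine analyticAt_det fun k l => ?_
  simp only [Matrix.updateRow_apply]
  split_ifs
  · exact analyticAt_const
  · exact h k l

/-- Local form of the analytic Fredholm theorem. -/
theorem fredholm_local {Ω : ℂ → (X →L[ℂ] Z)} {y₀ : ℂ} (hΩ : AnalyticAt ℂ Ω y₀)
    (hF : (Ω y₀).IsFredholm) :
    ∃ (d : ℂ → ℂ) (R : ℂ → (Z →L[ℂ] X)), AnalyticAt ℂ d y₀ ∧ AnalyticAt ℂ R y₀ ∧
      ∀ᶠ y in 𝓝 y₀, (Function.Bijective (Ω y) ↔ d y ≠ 0) ∧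
        (d y ≠ 0 → ∀ z, Ω y ((d y)⁻¹ • R y z) = z) := by
  obtain ⟨r, s, π, j, hbij⟩ := exists_bord hF
  let e₀ : (X × (Fin s → ℂ)) ≃L[ℂ] (Z × (Fin r → ℂ)) :=
    ContinuousLinearEquiv.ofBijective (bord π j (Ω y₀)) (LinearMap.ker_eq_bot.2 hbij.1)
      (LinearMap.range_eq_top.2 hbij.2)
  have he₀ : (e₀ : (X × (Fin s → ℂ)) →L[ℂ] (Z × (Fin r → ℂ))) = bord π j (Ω y₀) := by
    ext p <;> rfl
  have hB : AnalyticAt ℂ (fun y => bord π j (Ω y)) y₀ := by
    have h1 : (fun y => bord π j (Ω y)) = fun y =>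
        (ContinuousLinearMap.inl ℂ Z (Fin r → ℂ)).comp ((Ω y).comp
          (ContinuousLinearMap.fst ℂ X (Fin s → ℂ))) + bord π j 0 := by
      funext y
      ext p <;> simp [bord_apply]
    rw [h1]
    exact (analyticAt_clm_comp analyticAt_const
      (analyticAt_clm_comp hΩ analyticAt_const)).add analyticAt_const
  let E : ℂ → (Z × (Fin r → ℂ) →L[ℂ] X × (Fin s → ℂ)) :=
    fun y => ContinuousLinearMap.inverse (bord π j (Ω y))
  have hE : AnalyticAt ℂ E y₀ := by
    have h1 : ContDiffAt ℂ ω (ContinuousLinearMap.inverse :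
        (X × (Fin s → ℂ) →L[ℂ] Z × (Fin r → ℂ)) → _) (bord π j (Ω y₀)) := by
      rw [← he₀]; exact contDiffAt_map_inverse e₀
    exact h1.analyticAt.comp_of_eq hB rfl
  have hinv : ∀ᶠ y in 𝓝 y₀, ∃ e : (X × (Fin s → ℂ)) ≃L[ℂ] (Z × (Fin r → ℂ)),
      (e : _ →L[ℂ] _) = bord π j (Ω y) := by
    have h1 := hB.continuousAt
    have h2 := ContinuousLinearEquiv.nhds e₀
    rw [he₀] at h2
    exact h1 h2
  have hE12 : ∀ᶠ y in 𝓝 y₀, (∀ p, E y (bord π j (Ω y) p) = p) ∧
      (∀ q, bord π j (Ω y) (E y q) = q) := by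
    filter_upwards [hinv] with y hy
    obtain ⟨e, he⟩ := hy
    have h1 : E y = e.symm := by
      simp only [E]; rw [← he]; exact ContinuousLinearMap.inverse_equiv e
    rw [h1, ← he]
    exact ⟨fun p => e.symm_apply_apply p, fun q => e.apply_symm_apply q⟩
  by_cases hrs : r = s
  · subst hrs
    let K : ℂ → Matrix (Fin r) (Fin r) ℂ := fun y => Matrix.of fun a b =>
      (E y (0, Pi.single b 1)).2 a
    have hK : ∀ y ξ, (K y).mulVec ξ = (E y (0, ξ)).2 := by
      intro y ξ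
      have h1 : (K y) = LinearMap.toMatrix' (((ContinuousLinearMap.snd ℂ X (Fin r → ℂ)).comp
          ((E y).comp (ContinuousLinearMap.inr ℂ Z (Fin r → ℂ)))).toLinearMap) := by
        ext a b
        simp [K, LinearMap.toMatrix'_apply]
      rw [h1, ← Matrix.toLin'_apply, Matrix.toLin'_toMatrix']
      simp
    have hKan : ∀ a b, AnalyticAt ℂ (fun y => K y a b) y₀ := by
      intro a b
      have h1 : AnalyticAt ℂ (fun y => E y ((0 : Z), (Pi.single b 1 : Fin r → ℂ))) y₀ :=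
        analyticAt_clm_apply hE analyticAt_const
      exact (((ContinuousLinearMap.proj (R := ℂ) (φ := fun _ : Fin r => ℂ) a).comp
        (ContinuousLinearMap.snd ℂ X (Fin r → ℂ))).analyticAt _).comp_of_eq h1 rfl
    let R : ℂ → (Z →L[ℂ] X) := fun y =>
      (K y).det • ((ContinuousLinearMap.fst ℂ X (Fin r → ℂ)).comp ((E y).comp
        (ContinuousLinearMap.inl ℂ Z (Fin r → ℂ)))) -
      (ContinuousLinearMap.fst ℂ X (Fin r → ℂ)).comp ((E y).comp
        ((ContinuousLinearMap.inr ℂ Z (Fin r → ℂ)).comp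
        ((matCLM r (fun a b => (K y).adjugate a b)).comp
        ((ContinuousLinearMap.snd ℂ X (Fin r → ℂ)).comp ((E y).comp
        (ContinuousLinearMap.inl ℂ Z (Fin r → ℂ)))))))
    have hR : ∀ y z, R y z = (K y).det • (E y (z, 0)).1 -
        (E y (0, ((K y).adjugate).mulVec (E y (z, 0)).2)).1 := by
      intro y z
      simp only [R, sub_apply, smul_apply,
        ContinuousLinearMap.comp_apply, matCLM_apply]
      rfl
    refine ⟨fun y => (K y).det, R, analyticAt_det hKan, ?_, ?_⟩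
    · refine AnalyticAt.sub (AnalyticAt.smul (analyticAt_det hKan) (analyticAt_clm_comp
        analyticAt_const (analyticAt_clm_comp hE analyticAt_const))) ?_
      refine analyticAt_clm_comp analyticAt_const (analyticAt_clm_comp hE (analyticAt_clm_comp
        analyticAt_const (analyticAt_clm_comp ?_ (analyticAt_clm_comp analyticAt_const
          (analyticAt_clm_comp hE analyticAt_const)))))
      have h1 : AnalyticAt ℂ (fun y => (fun a b => (K y).adjugate a b : Fin r → Fin r → ℂ)) y₀ := by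
        rw [analyticAt_pi_iff]; intro a
        rw [analyticAt_pi_iff]; intro b
        exact analyticAt_adjugate hKan a b
      exact ((matCLM r).analyticAt _).comp h1
    · filter_upwards [hE12] with y hy
      obtain ⟨h1, h2⟩ := hy
      constructor
      · rw [bijective_iff_schur h1 h2]
        have h3 : (fun ξ : Fin r → ℂ => (E y (0, ξ)).2) = (K y).mulVec := by
          funext ξ; rw [hK]
        rw [h3]
        constructor
        · intro h4
          have h5 := (Matrix.mulVec_injective_iff_isUnit).1 h4.1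
          exact ((Matrix.isUnit_iff_isUnit_det _).1 h5).ne_zero
        · intro h4
          have h5 : IsUnit (K y) := (Matrix.isUnit_iff_isUnit_det _).2 (isUnit_iff_ne_zero.2 h4)
          exact ⟨Matrix.mulVec_injective_iff_isUnit.2 h5, Matrix.mulVec_surjective_iff_isUnit.2 h5⟩
      · intro hd z
        have hE3 : ∀ ξ, Ω y (E y (z, ξ)).1 + j (E y (z, ξ)).2 = z := fun ξ =>
          congrArg Prod.fst (h2 (z, ξ))
        set ζ := (E y (z, 0)).2 with hζ
        let ξ : Fin r → ℂ := -((K y).det⁻¹ • ((K y).adjugate).mulVec ζ)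
        have h3 : E y (z, ξ) = E y (z, 0) + E y (0, ξ) := by rw [← map_add]; simp
        have h4 : (E y (z, ξ)).2 = 0 := by
          rw [h3, Prod.snd_add, ← hK, ← hζ]
          simp only [ξ, Matrix.mulVec_neg, Matrix.mulVec_smul, Matrix.mulVec_mulVec,
            Matrix.mul_adjugate, Matrix.smul_mulVec, Matrix.one_mulVec]
          rw [smul_smul, inv_mul_cancel₀ hd, one_smul, add_neg_cancel]
        have h5 := hE3 ξ
        rw [h4, map_zero, add_zero] at h5
        have h6 : ((K y).det)⁻¹ • R y z = (E y (z, ξ)).1 := by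
          rw [hR, h3, Prod.fst_add, smul_sub, smul_smul, inv_mul_cancel₀ hd, one_smul, ← hζ,
            sub_eq_add_neg]
          congr 1
          have h7 : ((0 : Z), ξ) = -((K y).det⁻¹ • ((0 : Z), ((K y).adjugate).mulVec ζ)) := by
            simp [ξ]
          rw [h7, map_neg, map_smul, Prod.fst_neg, Prod.smul_fst]
        rw [h6, h5]
  · refine ⟨fun _ => 0, fun _ => 0, analyticAt_const, analyticAt_const, ?_⟩
    filter_upwards [hE12] with y hy
    obtain ⟨h1, h2⟩ := hy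
    refine ⟨⟨fun h => ?_, fun h => absurd rfl h⟩, fun h => absurd rfl h⟩
    exfalso
    rw [bijective_iff_schur h1 h2] at h
    let L : (Fin r → ℂ) →ₗ[ℂ] (Fin s → ℂ) := (((ContinuousLinearMap.snd ℂ X (Fin s → ℂ)).comp
          ((E y).comp (ContinuousLinearMap.inr ℂ Z (Fin r → ℂ)))).toLinearMap)
    have h3 := (LinearEquiv.ofBijective L h).finrank_eq
    simp at h3
    exact hrs h3

end

end Pool.Agent.Y261.VG
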