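import Mathlib
import Pool.Agent.Y261.VG.Fred

set_option autoImplicit false
set_option linter.unusedSectionVars false
set_option linter.style.haveILetI false

open Set Filter Topology
open scoped ContDiff

namespace Pool.Agent.Y261.VG

open scoped LinearMap.FiniteRangeSetoid

section
variable {B H : Type*} [NormedAddCommGroup B] [NormedSpace ℂ B] [CompleteSpace B]
  [NormedAddCommGroup H] [NormedSpace ℂ H] [CompleteSpace H]
  (ι : H →L[ℂ] B) (p : B →L[ℂ] H)

/-- operators whose commutator with the projection has finite rank -/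
def KK : Set (B →L[ℂ] B) :=
  {c | ((ι.comp p).comp c - c.comp (ι.comp p)).toLinearMap.HasFiniteRange}

variable {ι p}

/-- Toeplitz operators with symbols whose inverse is nearly in `KK` are Fredholm. -/
theorem toeplitz_fredholm (hpι : ∀ v, p (ι v) = v) {g gi : B →L[ℂ] B}
    (h1 : g.comp gi = ContinuousLinearMap.id ℂ B) (h2 : gi.comp g = ContinuousLinearMap.id ℂ B)
    (h3 : gi ∈ closure (KK ι p)) : (p.comp (g.comp ι)).IsFredholm := by
  -- choose a good approximation
  have hcont1 : Continuous (fun c : B →L[ℂ] B => p.comp (g.comp (c.comp ι))) := by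
    fun_prop
  have hcont2 : Continuous (fun c : B →L[ℂ] B => p.comp (c.comp (g.comp ι))) := by
    fun_prop
  have e1 : p.comp (g.comp (gi.comp ι)) = (1 : H →L[ℂ] H) := by
    ext v
    have := congrArg (fun T : B →L[ℂ] B => T (ι v)) h1
    simp only [ContinuousLinearMap.comp_apply, ContinuousLinearMap.id_apply] at this
    simp only [ContinuousLinearMap.comp_apply, this, hpι]
    rfl
  have e2 : p.comp (gi.comp (g.comp ι)) = (1 : H →L[ℂ] H) := by
    ext v
    have := congrArg (fun T : B →L[ℂ] B => T (ι v)) h2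
    simp only [ContinuousLinearMap.comp_apply, ContinuousLinearMap.id_apply] at this
    simp only [ContinuousLinearMap.comp_apply, this, hpι]
    rfl
  have hU : {T : H →L[ℂ] H | IsUnit T} ∈ 𝓝 (1 : H →L[ℂ] H) := Units.isOpen.mem_nhds isUnit_one
  have n1 : {c : B →L[ℂ] B | IsUnit (p.comp (g.comp (c.comp ι)))} ∈ 𝓝 gi := by
    have := hcont1.continuousAt (x := gi)
    rw [ContinuousAt, e1] at this
    exact this hU
  have n2 : {c : B →L[ℂ] B | IsUnit (p.comp (c.comp (g.comp ι)))} ∈ 𝓝 gi := by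
    have := hcont2.continuousAt (x := gi)
    rw [ContinuousAt, e2] at this
    exact this hU
  obtain ⟨c, ⟨hc1, hc2⟩, hcK⟩ := mem_closure_iff_nhds.1 h3 _ (inter_mem n1 n2)
  obtain ⟨a, ha⟩ := hc1
  obtain ⟨b, hb⟩ := hc2
  -- the commutator
  set K : B →L[ℂ] B := (ι.comp p).comp c - c.comp (ι.comp p) with hK
  have hKf : K.toLinearMap.HasFiniteRange := hcK
  let u : H →ₗ[ℂ] H := (p.comp (g.comp ι)).toLinearMap
  let Tc : H →ₗ[ℂ] H := (p.comp (c.comp ι)).toLinearMap
  have hKz : K.toLinearMap ≈ 0 :=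
    LinearMap.FiniteRangeSetoid.equiv_zero_iff_hasFiniteRange.2 hKf
  have q1 : u ∘ₗ Tc ≈ (a : H →L[ℂ] H).toLinearMap := by
    have : u ∘ₗ Tc = (a : H →L[ℂ] H).toLinearMap +
        (p.comp g).toLinearMap ∘ₗ (K.toLinearMap ∘ₗ ι.toLinearMap) := by
      ext v
      rw [ha]
      simp only [u, Tc, LinearMap.comp_apply, LinearMap.add_apply, ContinuousLinearMap.coe_coe,
        ContinuousLinearMap.comp_apply, hK, sub_apply, hpι, map_sub]
      abel
    rw [this, LinearMap.FiniteRangeSetoid.equiv_iff_hasFiniteRange, add_sub_cancel_left]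
    exact (hKf.comp_right _).comp_left _
  have q2 : Tc ∘ₗ u ≈ (b : H →L[ℂ] H).toLinearMap := by
    have : Tc ∘ₗ u = (b : H →L[ℂ] H).toLinearMap -
        p.toLinearMap ∘ₗ (K.toLinearMap ∘ₗ (g.comp ι).toLinearMap) := by
      ext v
      rw [hb]
      simp only [u, Tc, LinearMap.comp_apply, LinearMap.sub_apply, ContinuousLinearMap.coe_coe,
        ContinuousLinearMap.comp_apply, hK, sub_apply, hpι, map_sub]
      abel
    rw [this, LinearMap.FiniteRangeSetoid.equiv_iff_hasFiniteRange]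
    have e : (b : H →L[ℂ] H).toLinearMap - p.toLinearMap ∘ₗ (K.toLinearMap ∘ₗ
      (g.comp ι).toLinearMap) - (b : H →L[ℂ] H).toLinearMap = -(p.toLinearMap ∘ₗ (K.toLinearMap ∘ₗ
      (g.comp ι).toLinearMap)) := by abel
    rw [e]
    exact LinearMap.HasFiniteRange.neg ((hKf.comp_right _).comp_left _)
  -- quasi-inverses
  let v : H →ₗ[ℂ] H := ((b⁻¹ : (H →L[ℂ] H)ˣ) : H →L[ℂ] H).toLinearMap ∘ₗ Tc
  let w : H →ₗ[ℂ] H := Tc ∘ₗ ((a⁻¹ : (H →L[ℂ] H)ˣ) : H →L[ℂ] H).toLinearMap
  have hv : v ∘ₗ u ≈ LinearMap.id := by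
    calc v ∘ₗ u = ((b⁻¹ : (H →L[ℂ] H)ˣ) : H →L[ℂ] H).toLinearMap ∘ₗ (Tc ∘ₗ u) := rfl
      _ ≈ ((b⁻¹ : (H →L[ℂ] H)ˣ) : H →L[ℂ] H).toLinearMap ∘ₗ (b : H →L[ℂ] H).toLinearMap :=
          LinearMap.FiniteRangeSetoid.equiv_comp_left q2
      _ = LinearMap.id := by
          ext x
          have := congrArg (fun T : H →L[ℂ] H => T x) (b.inv_mul)
          exact this
  have hw : u ∘ₗ w ≈ LinearMap.id := by
    calc u ∘ₗ w = (u ∘ₗ Tc) ∘ₗ ((a⁻¹ : (H →L[ℂ] H)ˣ) : H →L[ℂ] H).toLinearMap := rfl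
      _ ≈ (a : H →L[ℂ] H).toLinearMap ∘ₗ ((a⁻¹ : (H →L[ℂ] H)ˣ) : H →L[ℂ] H).toLinearMap :=
          LinearMap.FiniteRangeSetoid.equiv_comp_right q1
      _ = LinearMap.id := by
          ext x
          have := congrArg (fun T : H →L[ℂ] H => T x) (a.mul_inv)
          exact this
  have hvw : v ≈ w := by
    calc v = v ∘ₗ LinearMap.id := by simp
      _ ≈ v ∘ₗ (u ∘ₗ w) := LinearMap.FiniteRangeSetoid.equiv_comp_left (Setoid.symm hw)
      _ = (v ∘ₗ u) ∘ₗ w := rfl
      _ ≈ LinearMap.id ∘ₗ w := LinearMap.FiniteRangeSetoid.equiv_comp_right hv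
      _ = w := by simp
  refine ContinuousLinearMap.IsFredholm.of_isQuasiInverse
    (v := ((b⁻¹ : (H →L[ℂ] H)ˣ) : H →L[ℂ] H).comp (p.comp (c.comp ι))) ⟨hv, ?_⟩
  have : u ∘ₗ v ≈ LinearMap.id :=
    Setoid.trans (LinearMap.FiniteRangeSetoid.equiv_comp_left hvw) hw
  exact this

/-- A quotient-like map `C` on which a given Fredholm pair becomes bijective, and all Toeplitz
Fredholm pairs stay Fredholm. -/
theorem exists_reduction (hpι : ∀ v, p (ι v) = v) {g gi : B →L[ℂ] B}
    (h2 : gi.comp g = ContinuousLinearMap.id ℂ B) (hF : (p.comp (g.comp ι)).IsFredholm) :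
    ∃ (X₀ Z₁ : Submodule ℂ H) (_ : CompleteSpace Z₁) (_ : CompleteSpace X₀)
      (C : B →L[ℂ] (Z₁ × X₀)),
      Function.Bijective (C.comp (g.comp ι)) ∧
      ∀ g' : B →L[ℂ] B, (p.comp (g'.comp ι)).IsFredholm → (C.comp (g'.comp ι)).IsFredholm := by
  obtain ⟨pkg⟩ := hF.nonempty_fredholmPackage
  have hfd := pkg.decDom.finite_X₀
  have hfd' := pkg.decCodom.finite_X₀
  have hZ1c : IsClosed (pkg.decCodom.X₁ : Set H) := by
    rw [← pkg.range_eq]; exact hF.isClosed_range
  have hZc : CompleteSpace pkg.decCodom.X₁ := hZ1c.completeSpace_coe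
  have hXc : CompleteSpace pkg.decDom.X₀ := FiniteDimensional.complete ℂ _
  let πZ : H →L[ℂ] pkg.decCodom.X₁ := pkg.decCodom.proj
  let πX : H →L[ℂ] pkg.decDom.X₀ :=
    pkg.decDom.X₀.projectionOntoL pkg.decDom.X₁ pkg.decDom.isTopCompl.symm
  let C : B →L[ℂ] (pkg.decCodom.X₁ × pkg.decDom.X₀) := (πZ.comp p).prod (πX.comp (p.comp gi))
  refine ⟨pkg.decDom.X₀, pkg.decCodom.X₁, hZc, hXc, C, ?_, ?_⟩
  · have hC : ∀ v : H, (C.comp (g.comp ι)) v = (pkg.equiv (pkg.decDom.proj v), πX v) := by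
      intro v
      have e1 : gi (g (ι v)) = ι v := congrArg (fun T : B →L[ℂ] B => T (ι v)) h2
      have e2 : p (g (ι v)) = (pkg.equiv (pkg.decDom.proj v) : H) :=
        congrArg (fun T : H →L[ℂ] H => T v) pkg.eq_equiv
      refine Prod.ext ?_ ?_
      · change πZ (p (g (ι v))) = _
        rw [e2]
        exact Submodule.projectionOntoL_apply_left _ _
      · change πX (p (gi (g (ι v)))) = _
        rw [e1, hpι]
    constructor
    · rw [injective_iff_map_eq_zero]
      intro v hv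
      rw [hC, Prod.mk_eq_zero] at hv
      have h3 : pkg.decDom.proj v = 0 := by simpa using hv.1
      have h4 : v ∈ pkg.decDom.X₀ := (Submodule.projectionOntoL_apply_eq_zero_iff _).1 h3
      have h5 : v ∈ pkg.decDom.X₁ := (Submodule.projectionOntoL_apply_eq_zero_iff _).1 hv.2
      have h6 : v ∈ pkg.decDom.X₁ ⊓ pkg.decDom.X₀ := ⟨h5, h4⟩
      rw [pkg.decDom.isTopCompl.isCompl.inf_eq_bot] at h6
      simpa using h6
    · rintro ⟨z, x⟩
      refine ⟨(pkg.equiv.symm z : H) + (x : H), ?_⟩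
      rw [hC]
      refine Prod.ext ?_ ?_
      · simp only [map_add]
        have e3 : pkg.decDom.proj (pkg.equiv.symm z : H) = pkg.equiv.symm z :=
          Submodule.projectionOntoL_apply_left _ _
        have e4 : pkg.decDom.proj (x : H) = 0 := Submodule.projectionOntoL_apply_right _ _
        rw [e3, e4]; simp
      · simp only [map_add]
        have e3 : πX (pkg.equiv.symm z : H) = 0 := Submodule.projectionOntoL_apply_right _ _
        have e4 : πX (x : H) = x := Submodule.projectionOntoL_apply_left _ _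
        rw [e3, e4]; simp
  · intro g' hg'
    obtain ⟨v, hv⟩ := hg'.exists_isQuasiInverse
    have hZ : LinearMap.IsQuasiInverse pkg.decCodom.X₁.subtype (πZ.toLinearMap) :=
      LinearMap.isQuasiInverse_subtype_projectionOnto _
    have h3 := hv.comp hZ
    -- inclusion
    have h4 : LinearMap.IsQuasiInverse
        (LinearMap.fst ℂ pkg.decCodom.X₁ pkg.decDom.X₀) (LinearMap.inl ℂ pkg.decCodom.X₁ pkg.decDom.X₀) := by
      constructor
      · change _ ∘ₗ _ ≈ _
        simp
      · change _ ∘ₗ _ ≈ _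
        rw [LinearMap.FiniteRangeSetoid.equiv_iff_hasFiniteRange]
        have e5 : (LinearMap.inl ℂ pkg.decCodom.X₁ pkg.decDom.X₀) ∘ₗ
            (LinearMap.fst ℂ pkg.decCodom.X₁ pkg.decDom.X₀) - LinearMap.id =
            -((LinearMap.inr ℂ pkg.decCodom.X₁ pkg.decDom.X₀) ∘ₗ
            (LinearMap.snd ℂ pkg.decCodom.X₁ pkg.decDom.X₀)) := by
          ext x <;> simp
        rw [e5]
        refine LinearMap.HasFiniteRange.neg ?_
        exact LinearMap.HasFiniteRange.comp_right (LinearMap.HasFiniteRange.of_finite_dom) _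
    have h5 := h3.comp h4
    have h6 : (C.comp (g'.comp ι)).toLinearMap ≈
        (LinearMap.inl ℂ pkg.decCodom.X₁ pkg.decDom.X₀) ∘ₗ (πZ.toLinearMap ∘ₗ
          (p.comp (g'.comp ι)).toLinearMap) := by
      rw [LinearMap.FiniteRangeSetoid.equiv_iff_hasFiniteRange]
      have e6 : (C.comp (g'.comp ι)).toLinearMap - (LinearMap.inl ℂ pkg.decCodom.X₁ pkg.decDom.X₀) ∘ₗ (πZ.toLinearMap ∘ₗ
          (p.comp (g'.comp ι)).toLinearMap) = (LinearMap.inr ℂ pkg.decCodom.X₁ pkg.decDom.X₀) ∘ₗ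
          (πX.comp (p.comp (gi.comp (g'.comp ι)))).toLinearMap := by
        ext x
        · simp [C]
        · simp [C]
      rw [e6]
      exact LinearMap.HasFiniteRange.comp_right (LinearMap.HasFiniteRange.of_finite_dom) _
    refine ContinuousLinearMap.IsFredholm.of_isQuasiInverse
      (v := v.comp (pkg.decCodom.X₁.subtypeL.comp (ContinuousLinearMap.fst ℂ pkg.decCodom.X₁ pkg.decDom.X₀))) ?_
    exact LinearMap.IsQuasiInverse.congr h5 (Setoid.refl _) h6

end

end Pool.Agent.Y261.VG
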