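import Mathlib
import Pool.Agent.Y261.VG.Hol
import Pool.Agent.Y261.VG.Toep

set_option autoImplicit false
set_option linter.unusedSectionVars false
set_option linter.style.haveILetI false

open Set Filter Topology Metric

namespace Pool.Agent.Y261.VG

section
variable {K : Set ℂ} {W : Type*} [NormedAddCommGroup W] [NormedSpace ℂ W]

/-- The Banach space `A(K; W)`, as a separate type. -/
def HS (K : Set ℂ) (W : Type*) [NormedAddCommGroup W] [NormedSpace ℂ W] : Type _ := holSub K W

noncomputable instance [CompactSpace K] : NormedAddCommGroup (HS K W) :=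
  Submodule.normedAddCommGroup (holSub K W)

noncomputable instance [CompactSpace K] : NormedSpace ℂ (HS K W) :=
  Submodule.normedSpace (holSub K W)

instance [CompactSpace K] [CompleteSpace W] : CompleteSpace (HS K W) :=
  (isClosed_holSub (K := K) (W := W)).completeSpace_coe

namespace HS

/-- the underlying continuous function -/
def toC (f : HS K W) : C(K, W) := f.1

lemma ch (f : HS K W) : CH K (ext0 f.toC) := f.2

@[ext] lemma ext' {f g : HS K W} (h : ∀ x, f.toC x = g.toC x) : f = g :=
  Subtype.ext (ContinuousMap.ext h)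

lemma toC_add [CompactSpace K] (f g : HS K W) (x : K) : (f + g).toC x = f.toC x + g.toC x := rfl
lemma toC_sub [CompactSpace K] (f g : HS K W) (x : K) : (f - g).toC x = f.toC x - g.toC x := rfl
lemma toC_zero [CompactSpace K] (x : K) : (0 : HS K W).toC x = 0 := rfl
lemma toC_smul [CompactSpace K] (c : ℂ) (f : HS K W) (x : K) :
    (c • f).toC x = c • f.toC x := rfl

lemma continuous_iff {T : Type*} [TopologicalSpace T] [CompactSpace K] {γ : T → HS K W} :
    Continuous γ ↔ Continuous (fun t => (γ t).toC) :=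
  Topology.IsInducing.subtypeVal.continuous_iff

lemma continuous_toC [CompactSpace K] : Continuous (toC : HS K W → C(K, W)) :=
  continuous_subtype_val

lemma norm_eq [CompactSpace K] (f : HS K W) : ‖f‖ = ‖f.toC‖ := rfl

lemma norm_apply_le [CompactSpace K] (f : HS K W) (x : K) : ‖f.toC x‖ ≤ ‖f‖ :=
  f.toC.norm_coe_le_norm x

lemma norm_le [CompactSpace K] {f : HS K W} {c : ℝ} (hc : 0 ≤ c) :
    ‖f‖ ≤ c ↔ ∀ x, ‖f.toC x‖ ≤ c := ContinuousMap.norm_le _ hc

variable (K W) in
/-- the inclusion into continuous functions -/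
noncomputable def toCL [CompactSpace K] : HS K W →L[ℂ] C(K, W) :=
  (holSub K W).subtypeL

lemma toCL_apply [CompactSpace K] (f : HS K W) : toCL K W f = f.toC := rfl

end HS

/-- element of the space given by a function -/
noncomputable def mkS {F : ℂ → W} (h : CH K F) : HS K W := ⟨mkC h.1, mkC_mem h⟩

lemma mkS_apply {F : ℂ → W} (h : CH K F) (x : K) : (mkS h).toC x = F x := rfl

/-- restriction -/
noncomputable def restS {L : Set ℂ} [CompactSpace K] [CompactSpace L] (hL : L ⊆ K) :
    HS K W →L[ℂ] HS L W :=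
  LinearMap.mkContinuous
    { toFun := fun f => mkS (F := ext0 f.toC) (f.ch.mono hL)
      map_add' := fun f g => by
        ext x
        rw [HS.toC_add, mkS_apply, mkS_apply, mkS_apply, ext0_apply _ (hL x.2),
          ext0_apply _ (hL x.2), ext0_apply _ (hL x.2), HS.toC_add]
      map_smul' := fun c f => by
        ext x
        rw [RingHom.id_apply, HS.toC_smul, mkS_apply, mkS_apply, ext0_apply _ (hL x.2),
          ext0_apply _ (hL x.2), HS.toC_smul] } 1 (fun f => by
        rw [one_mul, HS.norm_le (norm_nonneg _)]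
        intro x
        change ‖ext0 f.toC x‖ ≤ _
        rw [ext0_apply _ (hL x.2)]
        exact f.norm_apply_le _)

lemma restS_apply {L : Set ℂ} [CompactSpace K] [CompactSpace L] (hL : L ⊆ K) (f : HS K W)
    (x : L) : (restS hL f).toC x = f.toC ⟨x, hL x.2⟩ :=
  ext0_apply _ (hL x.2)

end

section
variable {K : Set ℂ} {F : Type*} [NormedAddCommGroup F] [NormedSpace ℂ F]

lemma CH.clm_apply {g : ℂ → (F →L[ℂ] F)} {f : ℂ → F} (hg : CH K g) (hf : CH K f) :
    CH K (fun x => g x (f x)) :=
  ⟨hg.1.clm_apply hf.1, hg.2.clm_apply hf.2⟩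

/-- multiplication operators -/
noncomputable def mulS [CompactSpace K] :
    HS K (F →L[ℂ] F) →L[ℂ] (HS K F →L[ℂ] HS K F) :=
  LinearMap.mkContinuous₂
    (LinearMap.mk₂ ℂ
      (fun (g : HS K (F →L[ℂ] F)) (f : HS K F) =>
        mkS (F := fun x => ext0 g.toC x (ext0 f.toC x)) (g.ch.clm_apply f.ch))
      (fun g g' f => by
        ext x
        rw [HS.toC_add, mkS_apply, mkS_apply, mkS_apply, ext0_apply _ x.2, ext0_apply _ x.2,
          ext0_apply _ x.2, ext0_apply _ x.2, HS.toC_add]; rfl)
      (fun c g f => by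
        ext x
        rw [HS.toC_smul, mkS_apply, mkS_apply, ext0_apply _ x.2, ext0_apply _ x.2,
          ext0_apply _ x.2, HS.toC_smul]; rfl)
      (fun g f f' => by
        ext x
        rw [HS.toC_add, mkS_apply, mkS_apply, mkS_apply, ext0_apply _ x.2, ext0_apply _ x.2,
          ext0_apply _ x.2, ext0_apply _ x.2, HS.toC_add, map_add])
      (fun c g f => by
        ext x
        rw [HS.toC_smul, mkS_apply, mkS_apply, ext0_apply _ x.2, ext0_apply _ x.2,
          ext0_apply _ x.2, HS.toC_smul, map_smul]))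
    1 (fun g f => by
      rw [one_mul, HS.norm_le (by positivity)]
      intro x
      change ‖ext0 g.toC x (ext0 f.toC x)‖ ≤ _
      rw [ext0_apply _ x.2, ext0_apply _ x.2]
      exact ((g.toC x).le_opNorm _).trans (mul_le_mul (g.norm_apply_le x) (f.norm_apply_le x)
        (norm_nonneg _) (norm_nonneg _)))

lemma mulS_apply [CompactSpace K] (g : HS K (F →L[ℂ] F)) (f : HS K F) (x : K) :
    (mulS g f).toC x = g.toC x (f.toC x) := by
  change ext0 g.toC x (ext0 f.toC x) = _
  rw [ext0_apply _ x.2, ext0_apply _ x.2]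

end

/-- the closed annulus -/
def Anu (r R : ℝ) : Set ℂ := closedBall 0 R \ ball 0 r

/-- the closed disc -/
def Dsk (R : ℝ) : Set ℂ := closedBall 0 R

instance (r R : ℝ) : CompactSpace (Anu r R) :=
  isCompact_iff_compactSpace.1 ((isCompact_closedBall _ _).diff isOpen_ball)

instance (R : ℝ) : CompactSpace (Dsk R) :=
  isCompact_iff_compactSpace.1 (isCompact_closedBall _ _)

lemma Anu_subset_Dsk (r R : ℝ) : Anu r R ⊆ Dsk R := fun _ h => h.1

lemma CH_of_open {W : Type*} [NormedAddCommGroup W] [NormedSpace ℂ W] {K U : Set ℂ} {G : ℂ → W}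
    (hKU : K ⊆ U) (hG : DifferentiableOn ℂ G U) : CH K G :=
  ⟨(hG.continuousOn).mono hKU, hG.mono (interior_subset.trans hKU)⟩

end Pool.Agent.Y261.VG
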