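import Mathlib
import Pool.Agent.Y261.VG.Cart
import Pool.Agent.Y261.VG.HS

set_option autoImplicit false
set_option linter.unusedSectionVars false
set_option linter.style.haveILetI false

open Set Filter Topology Metric Complex

namespace Pool.Agent.Y261.VG

/-! # Slices in the other direction: `q ↦ G(·, q) ∈ A(L; W)` -/

section
variable {L : Set ℂ} {Q : Set (ℂ × ℂ)} {W : Type*} [NormedAddCommGroup W] [NormedSpace ℂ W]

open Classical in
/-- the slice -/
noncomputable def sliceS (G : ℂ × (ℂ × ℂ) → W) (L : Set ℂ) (q : ℂ × ℂ) : HS L W :=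
  if h : CH L (fun x => G (x, q)) then mkS h else ⟨0, Submodule.zero_mem _⟩

lemma JH_CH {G : ℂ × (ℂ × ℂ) → W} (hG : ∀ z ∈ L ×ˢ Q, JHAt L Q G z) {q : ℂ × ℂ} (hq : q ∈ Q) :
    CH L (fun x => G (x, q)) := by
  constructor
  · intro x hx
    refine ContinuousWithinAt.comp (t := L ×ˢ Q) (f := fun x : ℂ => (x, q)) (hG (x, q) ⟨hx, hq⟩).1
      (by fun_prop) ?_
    intro y hy
    exact ⟨hy, hq⟩
  · intro x hx
    exact ((hG (x, q) ⟨interior_subset hx, hq⟩).2.1 hx).differentiableWithinAt

lemma sliceS_apply {G : ℂ × (ℂ × ℂ) → W} (hG : ∀ z ∈ L ×ˢ Q, JHAt L Q G z) {q : ℂ × ℂ}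
    (hq : q ∈ Q) (x : L) : (sliceS G L q).toC x = G (x, q) := by
  have h := JH_CH hG hq
  rw [sliceS, dif_pos h, mkS_apply]

lemma sliceS_eq {G : ℂ × (ℂ × ℂ) → W} {q : ℂ × ℂ} (h : CH L (fun x => G (x, q))) :
    sliceS G L q = mkS h := by
  rw [sliceS, dif_pos h]

variable (L W) in
/-- the inclusion as an isometry -/
noncomputable def HS.toCI [CompactSpace L] : HS L W →ₗᵢ[ℂ] C(L, W) :=
  (holSub L W).subtypeₗᵢ

lemma HS.toCI_apply [CompactSpace L] (f : HS L W) : HS.toCI L W f = f.toC := rfl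

lemma sliceS_continuousOn [CompactSpace L] {G : ℂ × (ℂ × ℂ) → W}
    (hG : ∀ z ∈ L ×ˢ Q, JHAt L Q G z) : ContinuousOn (sliceS G L) Q := by
  rw [continuousOn_iff_continuous_domRestrict, (HS.toCI L W).isometry.isEmbedding.isInducing.continuous_iff]
  refine ContinuousMap.continuous_of_continuous_uncurry _ ?_
  have h1 : (Function.uncurry fun (q : Q) (x : L) => (Q.domRestrict (sliceS G L) q).toC x) =
      fun p : Q × L => G (p.2, p.1) := by
    ext p
    exact sliceS_apply hG p.1.2 p.2
  change Continuous (Function.uncurry fun (q : Q) (x : L) =>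
    (Q.domRestrict (sliceS G L) q).toC x)
  rw [h1]
  have h2 : ContinuousOn G (L ×ˢ Q) := fun z hz => (hG z hz).1
  exact h2.comp_continuous (f := fun p : Q × L => ((p.2 : ℂ), (p.1 : ℂ × ℂ))) (by fun_prop)
    (fun p => ⟨p.2.2, p.1.2⟩)

lemma sliceS_analytic_fst [CompactSpace L] [CompleteSpace W] {G : ℂ × (ℂ × ℂ) → W}
    (hG : ∀ z ∈ L ×ˢ Q, JHAt L Q G z) {q : ℂ × ℂ} (hq : q ∈ interior Q) :
    AnalyticAt ℂ (fun t => sliceS G L (t, q.2)) q.1 := by
  have hO : IsOpen {t : ℂ | (t, q.2) ∈ interior Q} := isOpen_interior.preimage (by fun_prop)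
  have hd : DifferentiableOn ℂ (fun t => (sliceS G L (t, q.2)).toC)
      {t : ℂ | (t, q.2) ∈ interior Q} := by
    refine differentiableOn_of_pointwise hO ?_ fun x => ?_
    · have h1 : ContinuousOn (fun q => (sliceS G L q).toC) Q :=
        HS.continuous_toC.comp_continuousOn (sliceS_continuousOn hG)
      exact h1.comp (f := fun t : ℂ => (t, q.2)) (by fun_prop) (fun t ht => interior_subset ht)
    · intro t ht
      have h2 := ((hG (x, (t, q.2)) ⟨x.2, interior_subset ht⟩).2.2 ht).1.differentiableWithinAt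
        (s := {t : ℂ | (t, q.2) ∈ interior Q})
      exact h2.congr (fun t' ht' => sliceS_apply hG (interior_subset ht') x)
        (sliceS_apply hG (interior_subset ht) x)
  have hd' : DifferentiableOn ℂ (fun t => sliceS G L (t, q.2)) {t : ℂ | (t, q.2) ∈ interior Q} := by
    intro t ht
    exact (differentiableAt_of_isometry (HS.toCI L W)
      (hd.differentiableAt (hO.mem_nhds ht))).differentiableWithinAt
  exact hd'.analyticAt (hO.mem_nhds hq)

lemma sliceS_analytic_snd [CompactSpace L] [CompleteSpace W] {G : ℂ × (ℂ × ℂ) → W}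
    (hG : ∀ z ∈ L ×ˢ Q, JHAt L Q G z) {q : ℂ × ℂ} (hq : q ∈ interior Q) :
    AnalyticAt ℂ (fun y => sliceS G L (q.1, y)) q.2 := by
  have hO : IsOpen {t : ℂ | (q.1, t) ∈ interior Q} := isOpen_interior.preimage (by fun_prop)
  have hd : DifferentiableOn ℂ (fun t => (sliceS G L (q.1, t)).toC)
      {t : ℂ | (q.1, t) ∈ interior Q} := by
    refine differentiableOn_of_pointwise hO ?_ fun x => ?_
    · have h1 : ContinuousOn (fun q => (sliceS G L q).toC) Q :=
        HS.continuous_toC.comp_continuousOn (sliceS_continuousOn hG)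
      exact h1.comp (f := fun t : ℂ => (q.1, t)) (by fun_prop) (fun t ht => interior_subset ht)
    · intro t ht
      have h2 := ((hG (x, (q.1, t)) ⟨x.2, interior_subset ht⟩).2.2 ht).2.differentiableWithinAt
        (s := {t : ℂ | (q.1, t) ∈ interior Q})
      exact h2.congr (fun t' ht' => sliceS_apply hG (interior_subset ht') x)
        (sliceS_apply hG (interior_subset ht) x)
  have hd' : DifferentiableOn ℂ (fun t => sliceS G L (q.1, t)) {t : ℂ | (q.1, t) ∈ interior Q} := by
    intro t ht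
    exact (differentiableAt_of_isometry (HS.toCI L W)
      (hd.differentiableAt (hO.mem_nhds ht))).differentiableWithinAt
  exact hd'.analyticAt (hO.mem_nhds hq)

end

end Pool.Agent.Y261.VG
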