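import Mathlib
import Pool.Agent.Y261.VG.Toep

set_option autoImplicit false
set_option linter.unusedSectionVars false
set_option linter.style.haveILetI false

open Set Filter Topology
open scoped ContDiff

namespace Pool.Agent.Y261.VG

section
variable {B H Z : Type*} [NormedAddCommGroup B] [NormedSpace ℂ B] [CompleteSpace B]
  [NormedAddCommGroup H] [NormedSpace ℂ H] [CompleteSpace H]
  [NormedAddCommGroup Z] [NormedSpace ℂ Z] [CompleteSpace Z]
  (ι : H →L[ℂ] B) (p : B →L[ℂ] H) (C : B →L[ℂ] Z)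

/-- `C` is bijective on `S` -/
def Good (S : Set B) : Prop := ∀ z, ∃! w, w ∈ S ∧ C w = z

open Classical in
/-- the point of `S` killed by `C` -/
noncomputable def sol (S : Set B) : B := if h : Good C S then (h 0).choose else 0

variable {ι p C}

lemma sol_mem {S : Set B} (h : Good C S) : sol C S ∈ S := by
  unfold sol; rw [dif_pos h]; exact (h 0).choose_spec.1.1

lemma sol_eq {S : Set B} (h : Good C S) {w : B} (hw : w ∈ S) (hC : C w = 0) : sol C S = w := by
  unfold sol; rw [dif_pos h]; exact ((h 0).choose_spec.2 w ⟨hw, hC⟩).symm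

lemma good_iff {S : Set B} {g : B →L[ℂ] B} {h : B} (hS : S = {w | ∃ v, w = g (ι v) + h})
    (hg : Function.Injective (fun v => g (ι v))) :
    Good C S ↔ Function.Bijective (C.comp (g.comp ι)) := by
  have hap : ∀ v, (C.comp (g.comp ι)) v = C (g (ι v)) := fun v => rfl
  constructor
  · intro hG
    constructor
    · intro v v' hv
      rw [hap, hap] at hv
      obtain ⟨w, hw, hw'⟩ := hG (C (g (ι v) + h))
      have e1 := hw' (g (ι v) + h) ⟨by rw [hS]; exact ⟨v, rfl⟩, rfl⟩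
      have e2 := hw' (g (ι v') + h) ⟨by rw [hS]; exact ⟨v', rfl⟩, by
        simp only [map_add]; rw [hv]⟩
      exact hg (add_right_cancel (e1.trans e2.symm))
    · intro z
      obtain ⟨w, ⟨hw1, hw2⟩, -⟩ := hG (z + C h)
      rw [hS] at hw1
      obtain ⟨v, rfl⟩ := hw1
      refine ⟨v, ?_⟩
      rw [hap]
      rw [map_add] at hw2
      exact add_right_cancel hw2
  · rintro ⟨h1, h2⟩ z
    obtain ⟨v, hv⟩ := h2 (z - C h)
    rw [hap] at hv
    refine ⟨g (ι v) + h, ⟨by rw [hS]; exact ⟨v, rfl⟩, by rw [map_add, hv]; abel⟩, ?_⟩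
    rintro w ⟨hw1, hw2⟩
    rw [hS] at hw1
    obtain ⟨v', rfl⟩ := hw1
    have : v' = v := by
      apply h1
      rw [hap, hap, hv, ← hw2, map_add]; abel
    rw [this]

lemma sol_formula {S : Set B} {g : B →L[ℂ] B} {h : B} (hS : S = {w | ∃ v, w = g (ι v) + h})
    (hG : Good C S) {v : H} (hv : C (g (ι v)) = -C h) : sol C S = g (ι v) + h :=
  sol_eq hG (by rw [hS]; exact ⟨v, rfl⟩) (by rw [map_add, hv]; abel)

variable (ι p) in
/-- Local structure of a family of affine subspaces depending on one variable. -/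
def Loc1 (S : ℂ → Set B) (y₀ : ℂ) : Prop :=
  ∃ (g : ℂ → B →L[ℂ] B) (h : ℂ → B), AnalyticAt ℂ g y₀ ∧ AnalyticAt ℂ h y₀ ∧
    (p.comp ((g y₀).comp ι)).IsFredholm ∧
    ∀ᶠ y in 𝓝 y₀, Function.Injective (fun v => g y (ι v)) ∧
      S y = {w | ∃ v, w = g y (ι v) + h y}

lemma local1 (hC : ∀ g' : B →L[ℂ] B, (p.comp (g'.comp ι)).IsFredholm →
      (C.comp (g'.comp ι)).IsFredholm) {S : ℂ → Set B} {y₀ : ℂ} (hS : Loc1 ι p S y₀) :
    ∃ (d : ℂ → ℂ) (A Bf : ℂ → B), AnalyticAt ℂ d y₀ ∧ AnalyticAt ℂ A y₀ ∧ AnalyticAt ℂ Bf y₀ ∧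
      ∀ᶠ y in 𝓝 y₀, (Good C (S y) ↔ d y ≠ 0) ∧
        (d y ≠ 0 → sol C (S y) = A y + (d y)⁻¹ • Bf y) := by
  obtain ⟨g, h, hg, hh, hF, hev⟩ := hS
  have hΩ : AnalyticAt ℂ (fun y => C.comp ((g y).comp ι)) y₀ :=
    analyticAt_clm_comp analyticAt_const (analyticAt_clm_comp hg analyticAt_const)
  obtain ⟨d, R, hd, hR, hev2⟩ := fredholm_local hΩ (hC _ hF)
  have hBan : AnalyticAt ℂ (fun y => -(g y) (ι (R y (C (h y))))) y₀ := by
    refine AnalyticAt.neg ?_
    refine analyticAt_clm_apply hg ?_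
    refine analyticAt_clm_apply analyticAt_const ?_
    exact analyticAt_clm_apply hR (analyticAt_clm_apply analyticAt_const hh)
  refine ⟨d, h, fun y => -(g y) (ι (R y (C (h y)))), hd, hh, hBan, ?_⟩
  filter_upwards [hev, hev2] with y hy hy2
  obtain ⟨hinj, hSy⟩ := hy
  obtain ⟨hb, hsol⟩ := hy2
  have hgood : Good C (S y) ↔ d y ≠ 0 := by
    rw [good_iff hSy hinj]; exact hb
  refine ⟨hgood, fun hdy => ?_⟩
  have h1 := hsol hdy (C (h y))
  have h2 : C (g y (ι (-((d y)⁻¹ • R y (C (h y)))))) = -C (h y) := by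
    rw [map_neg, map_neg, map_neg]
    exact congrArg Neg.neg h1
  rw [sol_formula hSy (hgood.2 hdy) h2]
  simp only [map_neg, map_smul, smul_neg]
  abel

/-- Propagation in one variable. -/
theorem propagate (hC : ∀ g' : B →L[ℂ] B, (p.comp (g'.comp ι)).IsFredholm →
      (C.comp (g'.comp ι)).IsFredholm) {S : ℂ → Set B} {D : Set ℂ} (hDo : IsOpen D)
    (hDc : IsPreconnected D) (hS : ∀ y ∈ D, Loc1 ι p S y) {y₁ : ℂ} (hy₁ : y₁ ∈ D)
    (hgood : Good C (S y₁)) : ∀ y ∈ D, (∀ᶠ y' in 𝓝[≠] y, Good C (S y')) ∧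
      MeromorphicAt (fun y => sol C (S y)) y ∧
      (Good C (S y) → AnalyticAt ℂ (fun y => sol C (S y)) y) := by
  -- local dichotomy
  have hopen : ∀ y ∈ D, Good C (S y) → ∀ᶠ y' in 𝓝 y, Good C (S y') := by
    intro y hy hG
    obtain ⟨d, A, Bf, hd, hA, hBf, hev⟩ := local1 hC (hS y hy)
    have h1 : d y ≠ 0 := (hev.self_of_nhds.1).1 hG
    filter_upwards [hev, hd.continuousAt.eventually_ne h1] with y' h2 h3
    exact h2.1.2 h3
  have hdich : ∀ y ∈ D, (∀ᶠ y' in 𝓝[≠] y, Good C (S y')) ∨ (∀ᶠ y' in 𝓝 y, ¬ Good C (S y')) := by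
    intro y hy
    obtain ⟨d, A, Bf, hd, hA, hBf, hev⟩ := local1 hC (hS y hy)
    rcases hd.eventually_eq_zero_or_eventually_ne_zero with h | h
    · right
      filter_upwards [hev, h] with y' h2 h3 h4
      exact (h2.1.1 h4) h3
    · left
      filter_upwards [hev.filter_mono nhdsWithin_le_nhds, h] with y' h2 h3
      exact h2.1.2 h3
  -- the two open sets
  let U : Set ℂ := {y | ∀ᶠ y' in 𝓝[≠] y, Good C (S y')}
  let V : Set ℂ := {y | ∀ᶠ y' in 𝓝 y, ¬ Good C (S y')}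
  have hV : IsOpen V := isOpen_setOfPred_eventually_nhds
  have hU : IsOpen (U ∩ D) := by
    rw [isOpen_iff_mem_nhds]
    rintro y ⟨hy, hyD⟩
    have h1 : ∀ᶠ y' in 𝓝 y, y' ≠ y → Good C (S y') := eventually_nhdsWithin_iff.1 hy
    filter_upwards [h1.eventually_nhds, hDo.mem_nhds hyD] with y' h3 h4
    refine ⟨?_, h4⟩
    by_cases h5 : y' = y
    · rw [h5]; exact hy
    · have h6 : Good C (S y') := h3.self_of_nhds h5
      exact (hopen y' h4 h6).filter_mono nhdsWithin_le_nhds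
  have hcov : D ⊆ (U ∩ D) ∪ V := by
    intro y hy
    rcases hdich y hy with h | h
    · exact Or.inl ⟨h, hy⟩
    · exact Or.inr h
  have hdisj : D ∩ ((U ∩ D) ∩ V) = ∅ := by
    rw [Set.eq_empty_iff_forall_notMem]
    rintro y ⟨-, ⟨h1, -⟩, h2⟩
    have h3 : ∀ᶠ y' in 𝓝[≠] y, False := by
      filter_upwards [h1, h2.filter_mono nhdsWithin_le_nhds] with y' h4 h5
      exact h5 h4
    simp only [eventually_false_iff_eq_bot] at h3
    exact (NormedField.nhdsNE_neBot y).ne h3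
  have hsub : D ⊆ U := by
    have h1 : D ⊆ U ∩ D := by
      refine hDc.subset_left_of_subset_union hU hV ?_ hcov ⟨y₁, hy₁, ?_, hy₁⟩
      · rw [Set.disjoint_iff_inter_eq_empty, Set.eq_empty_iff_forall_notMem]
        rintro y ⟨h1, h2⟩
        have : y ∈ D ∩ ((U ∩ D) ∩ V) := ⟨h1.2, h1, h2⟩
        rw [hdisj] at this; exact this
      · exact (hopen y₁ hy₁ hgood).filter_mono nhdsWithin_le_nhds
    exact fun y hy => (h1 hy).1
  intro y hy
  refine ⟨hsub hy, ?_, ?_⟩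
  · obtain ⟨d, A, Bf, hd, hA, hBf, hev⟩ := local1 hC (hS y hy)
    have h1 : MeromorphicAt (fun y' => A y' + (d y')⁻¹ • Bf y') y :=
      hA.meromorphicAt.add ((hd.meromorphicAt.inv).smul hBf.meromorphicAt)
    refine h1.congr ?_
    filter_upwards [hev.filter_mono nhdsWithin_le_nhds, hsub hy] with y' h2 h3
    exact (h2.2 (h2.1.1 h3)).symm
  · intro hG
    obtain ⟨d, A, Bf, hd, hA, hBf, hev⟩ := local1 hC (hS y hy)
    have h1 : d y ≠ 0 := (hev.self_of_nhds.1).1 hG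
    have h2 : AnalyticAt ℂ (fun y' => A y' + (d y')⁻¹ • Bf y') y :=
      hA.add ((hd.inv h1).smul hBf)
    refine h2.congr ?_
    filter_upwards [hev, hd.continuousAt.eventually_ne h1] with y' h3 h4
    exact (h3.2 h4).symm

end

end Pool.Agent.Y261.VG
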