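import Mathlib
import Pool.Agent.Y261.VG.OneVar

set_option autoImplicit false
set_option linter.unusedSectionVars false
set_option linter.style.haveILetI false

open Set Filter Topology Metric
open scoped ContDiff

namespace Pool.Agent.Y261.VG

section
variable {B H Z : Type*} [NormedAddCommGroup B] [NormedSpace ℂ B] [CompleteSpace B]
  [NormedAddCommGroup H] [NormedSpace ℂ H] [CompleteSpace H]
  [NormedAddCommGroup Z] [NormedSpace ℂ Z] [CompleteSpace Z]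
  (ι : H →L[ℂ] B) (p : B →L[ℂ] H) (C : B →L[ℂ] Z)

/-- Local structure of a family of affine subspaces depending on two variables. -/
def Loc2 (S : ℂ × ℂ → Set B) (q₀ : ℂ × ℂ) : Prop :=
  ∃ (N : Set (ℂ × ℂ)) (g : ℂ × ℂ → B →L[ℂ] B) (h : ℂ × ℂ → B), IsOpen N ∧ q₀ ∈ N ∧
    ContinuousOn g N ∧ ContinuousOn h N ∧
    ∀ q ∈ N, AnalyticAt ℂ (fun t => g (t, q.2)) q.1 ∧ AnalyticAt ℂ (fun y => g (q.1, y)) q.2 ∧
      AnalyticAt ℂ (fun t => h (t, q.2)) q.1 ∧ AnalyticAt ℂ (fun y => h (q.1, y)) q.2 ∧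
      (∃ gi : B →L[ℂ] B, (g q).comp gi = ContinuousLinearMap.id ℂ B ∧
        gi.comp (g q) = ContinuousLinearMap.id ℂ B ∧ gi ∈ closure (KK ι p)) ∧
      S q = {w | ∃ v, w = g q (ι v) + h q}

variable {ι p C}

lemma inj_of_inv (hpι : ∀ v, p (ι v) = v) {g gi : B →L[ℂ] B}
    (h : gi.comp g = ContinuousLinearMap.id ℂ B) : Function.Injective (fun v => g (ι v)) := by
  intro v v' hv
  have h1 : ∀ w, gi (g w) = w := fun w => congrArg (fun T : B →L[ℂ] B => T w) h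
  have h2 := congrArg gi hv
  simp only [h1] at h2
  have h3 := congrArg p h2
  rwa [hpι, hpι] at h3

lemma Loc2.loc1_snd (hpι : ∀ v, p (ι v) = v) {S : ℂ × ℂ → Set B} {q₀ : ℂ × ℂ}
    (h : Loc2 ι p S q₀) : Loc1 ι p (fun y => S (q₀.1, y)) q₀.2 := by
  obtain ⟨N, g, h, hN, hq₀, -, -, hall⟩ := h
  obtain ⟨-, h2, -, h4, ⟨gi, hgi1, hgi2, hgi3⟩, -⟩ := hall q₀ hq₀
  refine ⟨fun y => g (q₀.1, y), fun y => h (q₀.1, y), h2, h4,
    toeplitz_fredholm hpι hgi1 hgi2 hgi3, ?_⟩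
  have hc : ContinuousAt (fun y : ℂ => ((q₀.1, y) : ℂ × ℂ)) q₀.2 := by fun_prop
  filter_upwards [hc (hN.mem_nhds hq₀)] with y hy
  obtain ⟨-, -, -, -, ⟨gi, -, hgi, -⟩, hSy⟩ := hall _ hy
  exact ⟨inj_of_inv hpι hgi, hSy⟩

lemma Loc2.loc1_fst (hpι : ∀ v, p (ι v) = v) {S : ℂ × ℂ → Set B} {q₀ : ℂ × ℂ}
    (h : Loc2 ι p S q₀) : Loc1 ι p (fun t => S (t, q₀.2)) q₀.1 := by
  obtain ⟨N, g, h, hN, hq₀, -, -, hall⟩ := h
  obtain ⟨h1, -, h3, -, ⟨gi, hgi1, hgi2, hgi3⟩, -⟩ := hall q₀ hq₀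
  refine ⟨fun t => g (t, q₀.2), fun t => h (t, q₀.2), h1, h3,
    toeplitz_fredholm hpι hgi1 hgi2 hgi3, ?_⟩
  have hc : ContinuousAt (fun t : ℂ => ((t, q₀.2) : ℂ × ℂ)) q₀.1 := by fun_prop
  filter_upwards [hc (hN.mem_nhds hq₀)] with y hy
  obtain ⟨-, -, -, -, ⟨gi, -, hgi, -⟩, hSy⟩ := hall _ hy
  exact ⟨inj_of_inv hpι hgi, hSy⟩

lemma Loc2.cont_sol (hpι : ∀ v, p (ι v) = v) {S : ℂ × ℂ → Set B} {q₀ : ℂ × ℂ}
    (hl : Loc2 ι p S q₀) (hG : Good C (S q₀)) :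
    (∀ᶠ q in 𝓝 q₀, Good C (S q)) ∧ ContinuousAt (fun q => sol C (S q)) q₀ := by
  obtain ⟨N, g, h, hN, hq₀, hgc, hhc, hall⟩ := hl
  have hgc' : ContinuousAt g q₀ := hgc.continuousAt (hN.mem_nhds hq₀)
  have hhc' : ContinuousAt h q₀ := hhc.continuousAt (hN.mem_nhds hq₀)
  let Ω : ℂ × ℂ → (H →L[ℂ] Z) := fun q => C.comp ((g q).comp ι)
  have hΩ : ContinuousAt Ω q₀ := by
    have : Continuous (fun T : B →L[ℂ] B => C.comp (T.comp ι)) := by fun_prop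
    exact this.continuousAt.comp hgc'
  obtain ⟨-, -, -, -, ⟨gi, -, hgi, -⟩, hSq⟩ := hall q₀ hq₀
  have hbij : Function.Bijective (Ω q₀) := (good_iff hSq (inj_of_inv hpι hgi)).1 hG
  let e₀ : H ≃L[ℂ] Z := ContinuousLinearEquiv.ofBijective (Ω q₀) (LinearMap.ker_eq_bot.2 hbij.1)
      (LinearMap.range_eq_top.2 hbij.2)
  have he₀ : (e₀ : H →L[ℂ] Z) = Ω q₀ := by ext p; rfl
  have hev : ∀ᶠ q in 𝓝 q₀, ∃ e : H ≃L[ℂ] Z, (e : H →L[ℂ] Z) = Ω q := by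
    have h2 := ContinuousLinearEquiv.nhds e₀
    rw [he₀] at h2
    exact hΩ h2
  have hinvc : ContinuousAt (fun q => ContinuousLinearMap.inverse (Ω q)) q₀ := by
    have h1 : ContinuousAt (ContinuousLinearMap.inverse : (H →L[ℂ] Z) → _) (Ω q₀) := by
      rw [← he₀]
      exact (contDiffAt_map_inverse (𝕜 := ℂ) (n := ω) e₀).continuousAt
    exact ContinuousAt.comp (f := Ω) h1 hΩ
  have hgood : ∀ᶠ q in 𝓝 q₀, Good C (S q) := by
    filter_upwards [hev, hN.mem_nhds hq₀] with q hq hqN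
    obtain ⟨e, he⟩ := hq
    obtain ⟨-, -, -, -, ⟨gi, -, hgi, -⟩, hSq⟩ := hall q hqN
    rw [good_iff hSq (inj_of_inv hpι hgi)]
    change Function.Bijective (Ω q)
    rw [← he]
    exact e.bijective
  refine ⟨hgood, ?_⟩
  have hF : ContinuousAt (fun q => (g q) (ι (ContinuousLinearMap.inverse (Ω q) (-C (h q)))) + h q)
      q₀ := by
    refine ContinuousAt.add ?_ hhc'
    refine hgc'.clm_apply ?_
    refine ι.continuous.continuousAt.comp ?_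
    exact hinvc.clm_apply ((C.continuous.continuousAt.comp hhc').neg)
  refine hF.congr ?_
  filter_upwards [hev, hN.mem_nhds hq₀, hgood] with q hq hqN hGq
  obtain ⟨e, he⟩ := hq
  obtain ⟨-, -, -, -, ⟨gi, -, hgi, -⟩, hSq⟩ := hall q hqN
  refine (sol_formula hSq hGq ?_).symm
  change Ω q (ContinuousLinearMap.inverse (Ω q) (-C (h q))) = _
  rw [← he, ContinuousLinearMap.inverse_equiv]
  simp

end

end Pool.Agent.Y261.VG
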