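import Mathlib
import Pool.Agent.Y261.VG.Frame2
import Pool.Agent.Y261.VG.SliceS
import Pool.Agent.Y261.VG.TwoVar

set_option autoImplicit false
set_option linter.unusedSectionVars false
set_option linter.style.haveILetI false

open Set Filter Topology Metric Complex

namespace Pool.Agent.Y261.VG

section
variable {I : Type*} {F : Type*} [NormedAddCommGroup F] [NormedSpace ℂ F]

/-- A section of the bundle over `Dsk R × {q}`, in coordinates. -/
def LocSec (c : Cocyc I F) (R : ℝ) (q : ℂ × ℂ) (s : I → ℂ → F) : Prop :=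
  ∀ e, ∀ x ∈ Dsk R, (x, q) ∈ c.U e → ContinuousWithinAt (s e) (Dsk R) x ∧
    (x ∈ ball (0 : ℂ) R → DifferentiableAt ℂ (s e) x) ∧
    ∀ e', (x, q) ∈ c.U e' → s e' x = c.M e' e (x, q) (s e x) + c.m e' e (x, q)

/-- the restrictions to the annulus of sections over the disc -/
def Sx (c : Cocyc I F) (r R : ℝ) (ep : I) (q : ℂ × ℂ) : Set (HS (Anu r R) F) :=
  {w | ∃ s, LocSec c R q s ∧ ∀ x : Anu r R, w.toC x = s ep x}

variable [CompleteSpace F] {c : Cocyc I F} {K : Set ℂ} {Q : Set (ℂ × ℂ)}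

lemma Frame.inv_comp {e e' : I} (φ : Frame c K Q) {z : ℂ × (ℂ × ℂ)} (hz : z ∈ K ×ˢ Q)
    (he : z ∈ c.U e) (he' : z ∈ c.U e') :
    c.M e' e z = Ring.inverse (φ.A e' z) * φ.A e z := by
  rw [φ.cA e' e z hz he he', Ring.inverse_mul_cancel_left _ _ (φ.uA e' z hz he')]

lemma inv_apply_self {T : F →L[ℂ] F} (h : IsUnit T) (v : F) : Ring.inverse T (T v) = v := by
  rw [← ContinuousLinearMap.mul_apply, Ring.inverse_mul_cancel _ h]; rfl

lemma self_apply_inv {T : F →L[ℂ] F} (h : IsUnit T) (v : F) : T (Ring.inverse T v) = v := by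
  rw [← ContinuousLinearMap.mul_apply, Ring.mul_inverse_cancel _ h]; rfl

/-- from frame coordinates to sections -/
lemma LocSec.of_frame (φ : Frame c K Q) {R : ℝ} (hK : Dsk R ⊆ K) {q : ℂ × ℂ} (hq : q ∈ Q)
    {v : ℂ → F} (hvc : ContinuousOn v (Dsk R)) (hvd : DifferentiableOn ℂ v (ball 0 R)) :
    LocSec c R q (fun e x => Ring.inverse (φ.A e (x, q)) (v x - φ.b e (x, q))) := by
  intro e x hx he
  have hz : (x, q) ∈ K ×ˢ Q := ⟨hK hx, hq⟩
  have hiJ := (φ.jA e (x, q) hz he).inverse (φ.uA e (x, q) hz he)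
  have hbJ := φ.jb e (x, q) hz he
  have hmaps : MapsTo (fun x : ℂ => (x, q)) (Dsk R) (K ×ˢ Q) := fun y hy => ⟨hK hy, hq⟩
  refine ⟨?_, fun hxb => ?_, fun e' he' => ?_⟩
  · refine ContinuousWithinAt.clm_apply ?_ ((hvc x hx).sub ?_)
    · exact ContinuousWithinAt.comp (f := fun x : ℂ => (x, q)) hiJ.1 (by fun_prop) hmaps
    · exact ContinuousWithinAt.comp (f := fun x : ℂ => (x, q)) hbJ.1 (by fun_prop) hmaps
  · have hxi : x ∈ interior K := by
      refine interior_mono hK ?_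
      rw [mem_interior_iff_mem_nhds]
      exact mem_of_superset (isOpen_ball.mem_nhds hxb) ball_subset_closedBall
    exact (hiJ.2.1 hxi).clm_apply ((hvd.differentiableAt (isOpen_ball.mem_nhds hxb)).sub
      (hbJ.2.1 hxi))
  · beta_reduce
    have h1 := φ.cb e' e (x, q) hz he he'
    have hu' := φ.uA e' (x, q) hz he'
    rw [φ.inv_comp hz he he', ContinuousLinearMap.mul_apply,
      self_apply_inv (φ.uA e (x, q) hz he), h1, map_sub, map_sub, map_add, inv_apply_self hu']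
    abel

/-- from sections to frame coordinates -/
lemma LocSec.to_frame (φ : Frame c K Q) {R : ℝ} (hR : 0 < R) (hK : Dsk R ⊆ K) {q : ℂ × ℂ}
    (hq : q ∈ Q) (hqD : q ∈ c.D) {s : I → ℂ → F} (hs : LocSec c R q s) :
    ∃ v : ℂ → F, CH (Dsk R) v ∧
      ∀ x ∈ Dsk R, ∀ e, (x, q) ∈ c.U e → v x = φ.A e (x, q) (s e x) + φ.b e (x, q) := by
  classical
  have hI : ∀ x : ℂ, ∃ e, (x, q) ∈ c.U e := fun x => c.cov (x, q) hqD
  choose ee hee using hI
  let v : ℂ → F := fun x => φ.A (ee x) (x, q) (s (ee x) x) + φ.b (ee x) (x, q)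
  have hv : ∀ x ∈ Dsk R, ∀ e, (x, q) ∈ c.U e → v x = φ.A e (x, q) (s e x) + φ.b e (x, q) := by
    intro x hx e he
    have hz : (x, q) ∈ K ×ˢ Q := ⟨hK hx, hq⟩
    have h0 := hee x
    have h1 := (hs e x hx he).2.2 (ee x) h0
    have h2 := φ.cA (ee x) e (x, q) hz he h0
    have h3 := φ.cb (ee x) e (x, q) hz he h0
    change φ.A (ee x) (x, q) (s (ee x) x) + φ.b (ee x) (x, q) = _
    rw [h1, h2, h3, map_add, ContinuousLinearMap.mul_apply]
    abel
  have hmaps : MapsTo (fun x : ℂ => (x, q)) (Dsk R) (K ×ˢ Q) := fun y hy => ⟨hK hy, hq⟩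
  have hev : ∀ x e, (x, q) ∈ c.U e → ∀ᶠ y in 𝓝 x, (y, q) ∈ c.U e := by
    intro x e he
    have hc : ContinuousAt (fun y : ℂ => (y, q)) x := by fun_prop
    exact hc ((c.isOpen_U e).mem_nhds he)
  refine ⟨v, ⟨?_, ?_⟩, hv⟩
  · intro x hx
    obtain ⟨e, he⟩ : ∃ e, (x, q) ∈ c.U e := ⟨ee x, hee x⟩
    have hz : (x, q) ∈ K ×ˢ Q := ⟨hK hx, hq⟩
    have h1 : ContinuousWithinAt (fun x => φ.A e (x, q) (s e x) + φ.b e (x, q)) (Dsk R) x := by
      refine (ContinuousWithinAt.clm_apply ?_ (hs e x hx he).1).add ?_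
      · exact ContinuousWithinAt.comp (f := fun x : ℂ => (x, q)) (φ.jA e (x, q) hz he).1
          (by fun_prop) hmaps
      · exact ContinuousWithinAt.comp (f := fun x : ℂ => (x, q)) (φ.jb e (x, q) hz he).1
          (by fun_prop) hmaps
    refine h1.congr_of_eventuallyEq ?_ (hv x hx e he)
    filter_upwards [self_mem_nhdsWithin, mem_nhdsWithin_of_mem_nhds (hev x e he)] with y hy1 hy2
    exact hv y hy1 e hy2
  · intro x hx
    rw [Dsk, interior_closedBall _ hR.ne'] at hx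
    have hx' : x ∈ Dsk R := ball_subset_closedBall hx
    obtain ⟨e, he⟩ : ∃ e, (x, q) ∈ c.U e := ⟨ee x, hee x⟩
    have hz : (x, q) ∈ K ×ˢ Q := ⟨hK hx', hq⟩
    have hxi : x ∈ interior K := by
      refine interior_mono hK ?_
      rw [mem_interior_iff_mem_nhds]
      exact mem_of_superset (isOpen_ball.mem_nhds hx) ball_subset_closedBall
    have h1 : DifferentiableAt ℂ (fun x => φ.A e (x, q) (s e x) + φ.b e (x, q)) x :=
      (((φ.jA e (x, q) hz he).2.1 hxi).clm_apply ((hs e x hx' he).2.1 hx)).add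
        ((φ.jb e (x, q) hz he).2.1 hxi)
    refine (h1.congr_of_eventuallyEq ?_).differentiableWithinAt
    filter_upwards [isOpen_ball.mem_nhds hx, hev x e he] with y hy1 hy2
    exact hv y (ball_subset_closedBall hy1) e hy2

lemma Dsk_subset_Rct {R ε : ℝ} (hε : 0 < ε) :
    Dsk R ⊆ interior (Rct (-R - ε) (R + ε) (-R - ε) (R + ε)) := by
  intro x hx
  have h1 : ‖x‖ ≤ R := by simpa [Dsk] using hx
  have h2 := (abs_le.1 ((Complex.abs_re_le_norm x).trans h1))
  have h3 := (abs_le.1 ((Complex.abs_im_le_norm x).trans h1))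
  rw [mem_interior_Rct]
  exact ⟨⟨by linarith [h2.1], by linarith [h2.2]⟩, by linarith [h3.1], by linarith [h3.2]⟩

/-- multiplication operators compose -/
lemma mulS_comp_inv {L : Set ℂ} [CompactSpace L] {G G' : HS L (F →L[ℂ] F)}
    (h : ∀ x : L, (G.toC x) * (G'.toC x) = 1) :
    (mulS G).comp (mulS G') = ContinuousLinearMap.id ℂ (HS L F) := by
  ext f x
  rw [ContinuousLinearMap.comp_apply, mulS_apply, mulS_apply, ← ContinuousLinearMap.mul_apply, h x]
  rfl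

theorem loc2_Sx {r R : ℝ} (hr : 0 < r) (hR : r < R)
    {p : HS (Anu r R) F →L[ℂ] HS (Dsk R) F}
    (hp : ∀ (G : ℂ → (F →L[ℂ] F)) (U : Set ℂ) (_ : IsOpen U) (hU : Anu r R ⊆ U)
        (hG : DifferentiableOn ℂ G U),
        mulS (mkS (CH_of_open hU hG)) ∈ closure (KK (restS (Anu_subset_Dsk r R)) p))
    {ep : I} (hplus : ∀ x ∈ Anu r R, ∀ q ∈ c.D, (x, q) ∈ c.U ep) {q₀ : ℂ × ℂ} (hq₀ : q₀ ∈ c.D) :
    Loc2 (restS (Anu_subset_Dsk r R)) p (Sx c r R ep) q₀ := by
  have hR0 : 0 < R := hr.trans hR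
  obtain ⟨ε, hε, hD, ⟨φ⟩⟩ := PF_all (c := c) hq₀ (a := -R) (b := R) (γ := -R) (δ := R)
    (by linarith) (by linarith)
  set K := Rct (-R - ε) (R + ε) (-R - ε) (R + ε) with hKdef
  set Q := closedBall q₀ ε with hQdef
  have hKi : Dsk R ⊆ interior K := Dsk_subset_Rct hε
  have hK : Dsk R ⊆ K := hKi.trans interior_subset
  set L := Anu r R with hL
  have hLK : L ⊆ K := (Anu_subset_Dsk r R).trans hK
  -- the good functions on `L × Q`
  have hU : ∀ z ∈ L ×ˢ Q, z ∈ c.U ep := fun z hz => hplus z.1 hz.1 z.2 (hD hz.2)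
  have hzK : ∀ z ∈ L ×ˢ Q, z ∈ K ×ˢ Q := fun z hz => ⟨hLK hz.1, hz.2⟩
  let Gf : ℂ × (ℂ × ℂ) → (F →L[ℂ] F) := fun z => Ring.inverse (φ.A ep z)
  let Hf : ℂ × (ℂ × ℂ) → F := fun z => Ring.inverse (φ.A ep z) ((fun _ => (0 : F)) z - φ.b ep z)
  have hGf : ∀ z ∈ L ×ˢ Q, JHAt L Q Gf z := fun z hz =>
    (((φ.jA ep z (hzK z hz) (hU z hz)).inverse (φ.uA ep z (hzK z hz) (hU z hz))).mono hLK
      (Subset.refl Q))
  have hHf : ∀ z ∈ L ×ˢ Q, JHAt L Q Hf z := fun z hz =>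
    (hGf z hz).clm_apply ((JHAt.of_differentiableAt (differentiableAt_const _)).sub
      ((φ.jb ep z (hzK z hz) (hU z hz)).mono hLK (Subset.refl Q)))
  have hNQ : ball q₀ ε ⊆ interior Q := by
    rw [hQdef]; exact interior_maximal ball_subset_closedBall isOpen_ball
  have hNQ' : ball q₀ ε ⊆ Q := hNQ.trans interior_subset
  refine ⟨ball q₀ ε, fun q => mulS (sliceS Gf L q), fun q => sliceS Hf L q, isOpen_ball,
    mem_ball_self hε, ?_, (sliceS_continuousOn hHf).mono hNQ', ?_⟩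
  · exact (mulS (K := L) (F := F)).continuous.comp_continuousOn
      ((sliceS_continuousOn hGf).mono hNQ')
  intro q hq
  have hqQ : q ∈ Q := hNQ' hq
  have hqi : q ∈ interior Q := hNQ hq
  have hqD : q ∈ c.D := hD hqQ
  refine ⟨?_, ?_, sliceS_analytic_fst hHf hqi, sliceS_analytic_snd hHf hqi, ?_, ?_⟩
  · exact ((mulS (K := L) (F := F)).analyticAt _).comp (sliceS_analytic_fst hGf hqi)
  · exact ((mulS (K := L) (F := F)).analyticAt _).comp (sliceS_analytic_snd hGf hqi)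
  · -- the inverse
    set U : Set ℂ := interior K ∩ {x | (x, q) ∈ c.U ep} with hUdef
    have hUo : IsOpen U := isOpen_interior.inter ((c.isOpen_U ep).preimage (by fun_prop))
    have hLU : L ⊆ U := fun x hx => ⟨hKi (Anu_subset_Dsk r R hx), hplus x hx q hqD⟩
    have hdiff : DifferentiableOn ℂ (fun x => φ.A ep (x, q)) U := by
      intro x hx
      exact ((φ.jA ep (x, q) ⟨interior_subset hx.1, hqQ⟩ hx.2).2.1 hx.1).differentiableWithinAt
    refine ⟨mulS (mkS (CH_of_open hLU hdiff)), ?_, ?_, hp _ U hUo hLU hdiff⟩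
    · refine mulS_comp_inv fun x => ?_
      rw [sliceS_apply hGf hqQ, mkS_apply]
      exact Ring.inverse_mul_cancel _ (φ.uA ep _ (hzK _ ⟨x.2, hqQ⟩) (hU _ ⟨x.2, hqQ⟩))
    · refine mulS_comp_inv fun x => ?_
      rw [sliceS_apply hGf hqQ, mkS_apply]
      exact Ring.mul_inverse_cancel _ (φ.uA ep _ (hzK _ ⟨x.2, hqQ⟩) (hU _ ⟨x.2, hqQ⟩))
  · ext w
    constructor
    · rintro ⟨s, hs, hw⟩
      obtain ⟨v, hv, hvs⟩ := hs.to_frame φ hR0 hK hqQ hqD
      refine ⟨mkS hv, ?_⟩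
      ext x
      have hxU : ((x : ℂ), q) ∈ c.U ep := hU _ ⟨x.2, hqQ⟩
      have hu := φ.uA ep (x, q) (hzK _ ⟨x.2, hqQ⟩) hxU
      rw [HS.toC_add, mulS_apply, restS_apply, mkS_apply, sliceS_apply hGf hqQ,
        sliceS_apply hHf hqQ, hw x]
      change s ep x = Ring.inverse (φ.A ep (x, q)) (v x) +
        Ring.inverse (φ.A ep (x, q)) (0 - φ.b ep (x, q))
      rw [hvs x (Anu_subset_Dsk r R x.2) ep hxU, ← map_add]
      have e1 : φ.A ep (x, q) (s ep x) + φ.b ep (x, q) + (0 - φ.b ep (x, q)) =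
        φ.A ep (x, q) (s ep x) := by abel
      rw [e1, inv_apply_self hu]
    · rintro ⟨v, hv⟩
      have hvc : ContinuousOn (ext0 v.toC) (Dsk R) := v.ch.1
      have hvd : DifferentiableOn ℂ (ext0 v.toC) (ball 0 R) := by
        have h5 := v.ch.2
        have h6 : interior (Dsk R) = ball 0 R := interior_closedBall _ hR0.ne'
        rwa [h6] at h5
      refine ⟨_, LocSec.of_frame φ hK hqQ hvc hvd, fun x => ?_⟩
      rw [hv, HS.toC_add, mulS_apply, restS_apply, sliceS_apply hGf hqQ,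
        sliceS_apply hHf hqQ]
      beta_reduce
      rw [ext0_apply _ (Anu_subset_Dsk r R x.2)]
      change Ring.inverse (φ.A ep (x, q)) _ + Ring.inverse (φ.A ep (x, q)) (0 - φ.b ep (x, q)) = _
      rw [← map_add]
      congr 1
      abel

end

end Pool.Agent.Y261.VG
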