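import Mathlib
import Pool.Agent.Y261.VG.Sec

set_option autoImplicit false
set_option linter.unusedSectionVars false
set_option linter.style.haveILetI false

open Set Filter Topology Metric Complex
open scoped Manifold ContDiff

namespace Pool.Agent.Y261.VG

/-! # Affine bundles and their cocycles -/

section
variable {VX : Type*} [NormedAddCommGroup VX] [NormedSpace ℂ VX] {HX : Type*} [TopologicalSpace HX]
  {IX : ModelWithCorners ℂ VX HX} {X : Type*} [TopologicalSpace X] [ChartedSpace HX X]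
  {V : Type*} [NormedAddCommGroup V] [NormedSpace ℂ V] {H : Type*} [TopologicalSpace H]
  {J : ModelWithCorners ℂ V H} {E : Type*} [TopologicalSpace E] [ChartedSpace H E]
  {k : ℕ} {pr : E → X}

/-- the coordinate change as a function of the point -/
noncomputable def TT (pt : ℂ × (ℂ × ℂ) → X) (e' e : Bundle.Trivialization (Fin k → ℂ) pr)
    (z : ℂ × (ℂ × ℂ)) (v : Fin k → ℂ) : Fin k → ℂ := e.coordChange e' (pt z) v

/-- its linear part -/
noncomputable def TM (pt : ℂ × (ℂ × ℂ) → X) (e' e : Bundle.Trivialization (Fin k → ℂ) pr)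
    (z : ℂ × (ℂ × ℂ)) : (Fin k → ℂ) →L[ℂ] (Fin k → ℂ) :=
  ∑ i, (ContinuousLinearMap.proj (R := ℂ) (φ := fun _ : Fin k => ℂ) i).smulRight
    (TT pt e' e z (Pi.single i 1) - TT pt e' e z 0)

lemma TM_apply {pt : ℂ × (ℂ × ℂ) → X} {e' e : Bundle.Trivialization (Fin k → ℂ) pr} {z : ℂ × (ℂ × ℂ)}
    (h : ∃ τ : (Fin k → ℂ) →ᵃ[ℂ] (Fin k → ℂ), ∀ v, e.coordChange e' (pt z) v = τ v)
    (v : Fin k → ℂ) : TT pt e' e z v = TM pt e' e z v + TT pt e' e z 0 := by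
  obtain ⟨τ, hτ⟩ := h
  have h1 : ∀ v, TT pt e' e z v = τ.linear v + TT pt e' e z 0 := by
    intro v
    have := AffineMap.decomp' τ
    change e.coordChange e' (pt z) v = τ.linear v + e.coordChange e' (pt z) 0
    rw [hτ, hτ]
    have h2 := congrFun (AffineMap.decomp τ) v
    simpa using h2
  rw [h1 v]
  congr 1
  rw [TM, ContinuousLinearMap.sum_apply]
  rw [LinearMap.pi_apply_eq_sum_univ τ.linear v]
  refine Finset.sum_congr rfl fun i _ => ?_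
  rw [ContinuousLinearMap.smulRight_apply, ContinuousLinearMap.proj_apply, h1 (Pi.single i 1),
    add_sub_cancel_right]
  congr 2
  ext j
  simp [Pi.single_apply, eq_comm]

/-- coordinate changes are differentiable -/
lemma TT_differentiableAt {pt : ℂ × (ℂ × ℂ) → X} {e' e : Bundle.Trivialization (Fin k → ℂ) pr}
    {z : ℂ × (ℂ × ℂ)} (hpt : MDifferentiableAt 𝓘(ℂ, ℂ × (ℂ × ℂ)) IX pt z)
    (he' : MDifferentiableOn J (IX.prod 𝓘(ℂ, Fin k → ℂ)) e' e'.source)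
    (he : MDifferentiableOn (IX.prod 𝓘(ℂ, Fin k → ℂ)) J e.toOpenPartialHomeomorph.symm e.target)
    (h1 : pt z ∈ e.baseSet) (h2 : pt z ∈ e'.baseSet) (v : Fin k → ℂ) :
    DifferentiableAt ℂ (fun z => TT pt e' e z v) z := by
  rw [← mdifferentiableAt_iff_differentiableAt]
  have f1 : MDifferentiableAt 𝓘(ℂ, ℂ × (ℂ × ℂ)) (IX.prod 𝓘(ℂ, Fin k → ℂ))
      (fun z => ((pt z, v) : X × (Fin k → ℂ))) z := hpt.prodMk mdifferentiableAt_const
  have ht : (pt z, v) ∈ e.target := e.mem_target.2 h1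
  have f2 : MDifferentiableAt (IX.prod 𝓘(ℂ, Fin k → ℂ)) J e.toOpenPartialHomeomorph.symm (pt z, v) :=
    (he _ ht).mdifferentiableAt (e.open_target.mem_nhds ht)
  have hs : e.toOpenPartialHomeomorph.symm (pt z, v) ∈ e'.source := by
    rw [e'.mem_source, e.proj_symm_apply' h1]; exact h2
  have f3 : MDifferentiableAt J (IX.prod 𝓘(ℂ, Fin k → ℂ)) e' (e.toOpenPartialHomeomorph.symm (pt z, v)) :=
    (he' _ hs).mdifferentiableAt (e'.open_source.mem_nhds hs)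
  have f4 := f3.comp z (f2.comp z f1)
  exact f4.snd

/-- differentiability of the linear part -/
lemma TM_differentiableAt {pt : ℂ × (ℂ × ℂ) → X} {e' e : Bundle.Trivialization (Fin k → ℂ) pr}
    {z : ℂ × (ℂ × ℂ)}
    (h : ∀ v, DifferentiableAt ℂ (fun z => TT pt e' e z v) z) :
    DifferentiableAt ℂ (TM pt e' e) z := by
  unfold TM
  refine DifferentiableAt.fun_sum fun i _ => ?_
  exact (ContinuousLinearMap.smulRightL ℂ (Fin k → ℂ) (Fin k → ℂ)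
    (ContinuousLinearMap.proj (R := ℂ) (φ := fun _ : Fin k => ℂ) i)).differentiableAt.comp z
    ((h _).sub (h _))

variable (IX J) in
/-- an atlas of a holomorphic affine bundle -/
structure AffAtlas (pr : E → X) (𝒜 : Set (Bundle.Trivialization (Fin k → ℂ) pr)) : Prop where
  cov : ∀ x, ∃ e ∈ 𝒜, x ∈ e.baseSet
  hol : ∀ e ∈ 𝒜, MDifferentiableOn J (IX.prod 𝓘(ℂ, Fin k → ℂ)) e e.source
  hol' : ∀ e ∈ 𝒜,
    MDifferentiableOn (IX.prod 𝓘(ℂ, Fin k → ℂ)) J e.toOpenPartialHomeomorph.symm e.target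
  aff : ∀ e ∈ 𝒜, ∀ e' ∈ 𝒜, ∀ x, x ∈ e.baseSet → x ∈ e'.baseSet →
    ∃ τ : (Fin k → ℂ) →ᵃ[ℂ] (Fin k → ℂ), ∀ v, e.coordChange e' x v = τ v

variable {𝒜 : Set (Bundle.Trivialization (Fin k → ℂ) pr)}

lemma TT_comp {pt : ℂ × (ℂ × ℂ) → X} {e'' e' e : Bundle.Trivialization (Fin k → ℂ) pr}
    {z : ℂ × (ℂ × ℂ)} (h1 : pt z ∈ e.baseSet) (h2 : pt z ∈ e'.baseSet) (v : Fin k → ℂ) :
    TT pt e'' e' z (TT pt e' e z v) = TT pt e'' e z v :=
  Bundle.Trivialization.coordChange_coordChange e e' e'' h1 h2 v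

lemma TT_self {pt : ℂ × (ℂ × ℂ) → X} {e : Bundle.Trivialization (Fin k → ℂ) pr}
    {z : ℂ × (ℂ × ℂ)} (h1 : pt z ∈ e.baseSet) (v : Fin k → ℂ) :
    TT pt e e z v = v :=
  Bundle.Trivialization.coordChange_same_apply e h1 v

lemma TM_comp {pt : ℂ × (ℂ × ℂ) → X} (hA : AffAtlas IX J pr 𝒜)
    {e'' e' e : Bundle.Trivialization (Fin k → ℂ) pr} (m'' : e'' ∈ 𝒜) (m' : e' ∈ 𝒜) (m0 : e ∈ 𝒜)
    {z : ℂ × (ℂ × ℂ)} (h1 : pt z ∈ e.baseSet) (h2 : pt z ∈ e'.baseSet) (h3 : pt z ∈ e''.baseSet) :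
    TM pt e'' e z = TM pt e'' e' z * TM pt e' e z ∧
      TT pt e'' e z 0 = TM pt e'' e' z (TT pt e' e z 0) + TT pt e'' e' z 0 := by
  have a1 := TM_apply (hA.aff e m0 e' m' _ h1 h2)
  have a2 := TM_apply (hA.aff e' m' e'' m'' _ h2 h3)
  have a3 := TM_apply (hA.aff e m0 e'' m'' _ h1 h3)
  have hc := fun v => TT_comp (e'' := e'') h1 h2 v
  have h0 : TT pt e'' e z 0 = TM pt e'' e' z (TT pt e' e z 0) + TT pt e'' e' z 0 := by
    rw [← hc 0, a2 (TT pt e' e z 0)]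
  refine ⟨?_, h0⟩
  ext1 v
  have h4 := hc v
  rw [a2, a1 v, a3 v, h0, map_add] at h4
  rw [ContinuousLinearMap.mul_apply]
  have h5 : TM pt e'' e' z (TM pt e' e z v) + (TM pt e'' e' z (TT pt e' e z 0) + TT pt e'' e' z 0) =
      TM pt e'' e z v + (TM pt e'' e' z (TT pt e' e z 0) + TT pt e'' e' z 0) := by
    rw [← h4]; abel
  exact (add_right_cancel h5).symm

lemma TM_self {pt : ℂ × (ℂ × ℂ) → X} (hA : AffAtlas IX J pr 𝒜)
    {e : Bundle.Trivialization (Fin k → ℂ) pr} (m0 : e ∈ 𝒜)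
    {z : ℂ × (ℂ × ℂ)} (h1 : pt z ∈ e.baseSet) : TM pt e e z = 1 := by
  have a1 := TM_apply (hA.aff e m0 e m0 _ h1 h1)
  ext1 v
  have h2 := a1 v
  rw [TT_self h1, TT_self h1, add_zero] at h2
  rw [← h2]; rfl

/-- The cocycle of an affine bundle. -/
noncomputable def cocycOf (hA : AffAtlas IX J pr 𝒜) (pt : ℂ × (ℂ × ℂ) → X)
    {Ω : Set (ℂ × (ℂ × ℂ))} (hΩ : IsOpen Ω)
    (hpt : ∀ z ∈ Ω, MDifferentiableAt 𝓘(ℂ, ℂ × (ℂ × ℂ)) IX pt z)
    {D : Set (ℂ × ℂ)} (hD : IsOpen D) (hDΩ : ∀ z : ℂ × (ℂ × ℂ), z.2 ∈ D → z ∈ Ω) :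
    Cocyc 𝒜 (Fin k → ℂ) where
  D := D
  isOpen_D := hD
  U e := Ω ∩ pt ⁻¹' e.1.baseSet
  isOpen_U e := (show ContinuousOn pt Ω from
    fun z hz => (hpt z hz).continuousAt.continuousWithinAt).isOpen_inter_preimage hΩ
      e.1.open_baseSet
  cov z hz := by
    obtain ⟨e, he, hx⟩ := hA.cov (pt z)
    exact ⟨⟨e, he⟩, hDΩ z hz, hx⟩
  M e' e := TM pt e'.1 e.1
  m e' e z := TT pt e'.1 e.1 z 0
  dM e' e z h1 h2 := TM_differentiableAt fun v => TT_differentiableAt (hpt z h1.1)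
    (hA.hol _ e'.2) (hA.hol' _ e.2) h1.2 h2.2 v
  dm e' e z h1 h2 := TT_differentiableAt (hpt z h1.1)
    (hA.hol _ e'.2) (hA.hol' _ e.2) h1.2 h2.2 0
  uM e' e z h1 h2 := by
    rw [isUnit_iff_exists]
    refine ⟨TM pt e.1 e'.1 z, ?_, ?_⟩
    · rw [← (TM_comp hA e'.2 e.2 e'.2 h2.2 h1.2 h2.2).1, TM_self hA e'.2 h2.2]
    · rw [← (TM_comp hA e.2 e'.2 e.2 h1.2 h2.2 h1.2).1, TM_self hA e.2 h1.2]
  cM e'' e' e z h1 h2 h3 := (TM_comp hA e''.2 e'.2 e.2 h1.2 h2.2 h3.2).1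
  cm e'' e' e z h1 h2 h3 := (TM_comp hA e''.2 e'.2 e.2 h1.2 h2.2 h3.2).2

/-- The disc in the total space given by a section in coordinates, and the maximum principle. -/
lemma disc_bound (hA : AffAtlas IX J pr 𝒜) (pt : ℂ × (ℂ × ℂ) → X)
    {Ω : Set (ℂ × (ℂ × ℂ))} (hΩ : IsOpen Ω)
    (hpt : ∀ z ∈ Ω, MDifferentiableAt 𝓘(ℂ, ℂ × (ℂ × ℂ)) IX pt z)
    {D : Set (ℂ × ℂ)} (hD : IsOpen D) (hDΩ : ∀ z : ℂ × (ℂ × ℂ), z.2 ∈ D → z ∈ Ω)
    {R : ℝ} (hR : 0 < R) {q : ℂ × ℂ} (hq : q ∈ D) {s : 𝒜 → ℂ → (Fin k → ℂ)}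
    (hs : LocSec (cocycOf hA pt hΩ hpt hD hDΩ) R q s) :
    ∃ σ : ℂ → E, (∀ x ∈ Dsk R, pr (σ x) = pt (x, q)) ∧
      (∀ x ∈ Dsk R, ∀ e : 𝒜, pt (x, q) ∈ e.1.baseSet →
        σ x = e.1.toOpenPartialHomeomorph.symm (pt (x, q), s e x)) ∧
      ∀ f : E → ℂ, MDifferentiable J 𝓘(ℂ, ℂ) f → ∀ C : ℝ,
        (∀ x : ℂ, ‖x‖ = R → ‖f (σ x)‖ ≤ C) → ‖f (σ 0)‖ ≤ C := by
  have hΩq : ∀ x : ℂ, (x, q) ∈ Ω := fun x => hDΩ (x, q) hq
  have hch : ∀ x : ℂ, ∃ e : 𝒜, pt (x, q) ∈ e.1.baseSet := by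
    intro x
    obtain ⟨e, he, hx⟩ := hA.cov (pt (x, q))
    exact ⟨⟨e, he⟩, hx⟩
  choose ee hee using hch
  let σ : ℂ → E := fun x => (ee x).1.toOpenPartialHomeomorph.symm (pt (x, q), s (ee x) x)
  have hσ : ∀ x ∈ Dsk R, ∀ e : 𝒜, pt (x, q) ∈ e.1.baseSet →
        σ x = e.1.toOpenPartialHomeomorph.symm (pt (x, q), s e x) := by
    intro x hx e he
    have h1 := (hs (ee x) x hx ⟨hΩq x, hee x⟩).2.2 e ⟨hΩq x, he⟩
    change s e x = TM pt e.1 (ee x).1 (x, q) (s (ee x) x) + TT pt e.1 (ee x).1 (x, q) 0 at h1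
    rw [← TM_apply (hA.aff _ (ee x).2 _ e.2 _ (hee x) he)] at h1
    rw [h1]
    have h2 : (pt (x, q), TT pt e.1 (ee x).1 (x, q) (s (ee x) x)) = e.1 (σ x) :=
      Bundle.Trivialization.mk_coordChange (ee x).1 e.1 (hee x) he (s (ee x) x)
    rw [h2]
    have hsrc : σ x ∈ e.1.source := by
      rw [e.1.mem_source, (ee x).1.proj_symm_apply' (hee x)]
      exact he
    exact (e.1.toOpenPartialHomeomorph.left_inv hsrc).symm
  have hprσ : ∀ x ∈ Dsk R, pr (σ x) = pt (x, q) := fun x _ => (ee x).1.proj_symm_apply' (hee x)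
  refine ⟨σ, hprσ, hσ, ?_⟩
  intro f hf C hC
  have hev : ∀ x, ∀ᶠ y in 𝓝 x, pt (y, q) ∈ (ee x).1.baseSet := by
    intro x
    have hc : ContinuousAt (fun y : ℂ => pt (y, q)) x :=
      ContinuousAt.comp (f := fun y : ℂ => (y, q)) (g := pt) (hpt _ (hΩq x)).continuousAt
        (by fun_prop)
    exact hc ((ee x).1.open_baseSet.mem_nhds (hee x))
  have hcont : ContinuousOn (fun x => f (σ x)) (Dsk R) := by
    intro x hx
    have he := hee x
    have hzU : (x, q) ∈ (cocycOf hA pt hΩ hpt hD hDΩ).U (ee x) := ⟨hΩq x, he⟩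
    have h1 := (hs (ee x) x hx hzU).1
    have h2 : ContinuousWithinAt (fun y : ℂ => (pt (y, q), s (ee x) y)) (Dsk R) x := by
      refine ContinuousWithinAt.prodMk ?_ h1
      exact (ContinuousAt.comp (f := fun y : ℂ => (y, q)) (g := pt) (hpt _ (hΩq x)).continuousAt
        (by fun_prop)).continuousWithinAt
    have h3 : ContinuousAt (ee x).1.toOpenPartialHomeomorph.symm (pt (x, q), s (ee x) x) :=
      (ee x).1.toOpenPartialHomeomorph.continuousAt_symm ((ee x).1.mem_target.2 he)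
    have h4' : ContinuousWithinAt (fun y : ℂ => (ee x).1.toOpenPartialHomeomorph.symm
        (pt (y, q), s (ee x) y)) (Dsk R) x :=
      ContinuousAt.comp_continuousWithinAt (g := (ee x).1.toOpenPartialHomeomorph.symm)
        (f := fun y : ℂ => (pt (y, q), s (ee x) y)) h3 h2
    have h4 : ContinuousWithinAt (fun y : ℂ => f ((ee x).1.toOpenPartialHomeomorph.symm
        (pt (y, q), s (ee x) y))) (Dsk R) x :=
      ContinuousAt.comp_continuousWithinAt (g := f)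
        (f := fun y : ℂ => (ee x).1.toOpenPartialHomeomorph.symm (pt (y, q), s (ee x) y))
        hf.continuous.continuousAt h4'
    refine h4.congr_of_eventuallyEq ?_ rfl
    filter_upwards [self_mem_nhdsWithin, mem_nhdsWithin_of_mem_nhds (hev x)] with y hy1 hy2
    rw [hσ y hy1 (ee x) hy2]
  have hdiff : DifferentiableOn ℂ (fun x => f (σ x)) (ball 0 R) := by
    intro x hx
    have hx' : x ∈ Dsk R := ball_subset_closedBall hx
    have he := hee x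
    have hzU : (x, q) ∈ (cocycOf hA pt hΩ hpt hD hDΩ).U (ee x) := ⟨hΩq x, he⟩
    have h1 := (hs (ee x) x hx' hzU).2.1 hx
    have g1 : MDifferentiableAt 𝓘(ℂ, ℂ) 𝓘(ℂ, Fin k → ℂ) (s (ee x)) x := h1.mdifferentiableAt
    have g2 : MDifferentiableAt 𝓘(ℂ, ℂ) 𝓘(ℂ, ℂ × (ℂ × ℂ)) (fun y : ℂ => (y, q)) x := by
      have : DifferentiableAt ℂ (fun y : ℂ => (y, q)) x := by fun_prop
      exact this.mdifferentiableAt
    have g3 : MDifferentiableAt 𝓘(ℂ, ℂ) IX (fun y : ℂ => pt (y, q)) x :=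
      MDifferentiableAt.comp (g := pt) (f := fun y : ℂ => (y, q)) x (hpt _ (hΩq x)) g2
    have g4 : MDifferentiableAt 𝓘(ℂ, ℂ) (IX.prod 𝓘(ℂ, Fin k → ℂ))
        (fun y : ℂ => (pt (y, q), s (ee x) y)) x := g3.prodMk g1
    have ht : (pt (x, q), s (ee x) x) ∈ (ee x).1.target := (ee x).1.mem_target.2 he
    have g5 : MDifferentiableAt (IX.prod 𝓘(ℂ, Fin k → ℂ)) J (ee x).1.toOpenPartialHomeomorph.symm
        (pt (x, q), s (ee x) x) :=
      (hA.hol' _ (ee x).2 _ ht).mdifferentiableAt ((ee x).1.open_target.mem_nhds ht)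
    have g6 : MDifferentiableAt 𝓘(ℂ, ℂ) J (fun y : ℂ => (ee x).1.toOpenPartialHomeomorph.symm
        (pt (y, q), s (ee x) y)) x :=
      MDifferentiableAt.comp (g := (ee x).1.toOpenPartialHomeomorph.symm)
        (f := fun y : ℂ => (pt (y, q), s (ee x) y)) x g5 g4
    have g7 : MDifferentiableAt 𝓘(ℂ, ℂ) 𝓘(ℂ, ℂ) (fun y : ℂ => f ((ee x).1.toOpenPartialHomeomorph.symm
        (pt (y, q), s (ee x) y))) x :=
      MDifferentiableAt.comp (g := f) (f := fun y : ℂ => (ee x).1.toOpenPartialHomeomorph.symm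
        (pt (y, q), s (ee x) y)) x (hf _) g6
    have g8 : DifferentiableAt ℂ (fun y : ℂ => f ((ee x).1.toOpenPartialHomeomorph.symm
        (pt (y, q), s (ee x) y))) x := g7.differentiableAt
    refine (g8.congr_of_eventuallyEq ?_).differentiableWithinAt
    filter_upwards [isOpen_ball.mem_nhds hx, hev x] with y hy1 hy2
    rw [hσ y (ball_subset_closedBall hy1) (ee x) hy2]
  have hcl : closure (ball (0 : ℂ) R) = Dsk R := closure_ball _ hR.ne'
  refine Complex.norm_le_of_forall_mem_frontier_norm_le (f := fun x => f (σ x)) isBounded_ball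
    ⟨hdiff, by rw [hcl]; exact hcont⟩ (C := C) ?_ (subset_closure (mem_ball_self hR))
  intro x hx
  rw [frontier_ball _ hR.ne'] at hx
  exact hC x (by simpa using hx)

end

end Pool.Agent.Y261.VG
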