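import Mathlib

set_option autoImplicit false
set_option linter.unusedSectionVars false

open Set Filter Topology Metric

namespace Pool.Agent.Y261.VG

lemma finite_bad {K : Set ℂ} (hK : IsCompact K) {P : ℂ → Prop}
    (h : ∀ y ∈ K, ∀ᶠ y' in 𝓝[≠] y, P y') : {y | y ∈ K ∧ ¬ P y}.Finite := by
  by_contra hinf
  obtain ⟨y, hy, hacc⟩ := Set.Infinite.exists_accPt_of_subset_isCompact
    (s := {y | y ∈ K ∧ ¬ P y}) hinf hK (fun y hy => hy.1)
  rw [accPt_iff_frequently_nhdsNE] at hacc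
  exact hacc ((h y hy).mono fun y' h1 h2 => h2.2 h1)

section
variable {B : Type*} [NormedAddCommGroup B] [NormedSpace ℂ B] [CompleteSpace B]

lemma exists_poly {K : Set ℂ} (hK : IsCompact K) {f : ℂ → B} (hf : ∀ y ∈ K, MeromorphicAt f y) :
    ∃ Q : Polynomial ℂ, Q ≠ 0 ∧ ∀ y ∈ K, ∃ F : ℂ → B, AnalyticAt ℂ F y ∧
      ∀ᶠ z in 𝓝[≠] y, Q.eval z • f z = F z := by
  have key : ∀ Q R : Polynomial ℂ, ∀ y, (∃ F : ℂ → B, AnalyticAt ℂ F y ∧
      ∀ᶠ z in 𝓝[≠] y, Q.eval z • f z = F z) → ∃ F : ℂ → B, AnalyticAt ℂ F y ∧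
      ∀ᶠ z in 𝓝[≠] y, (R * Q).eval z • f z = F z := by
    rintro Q R y ⟨F, hF, hev⟩
    refine ⟨fun z => R.eval z • F z, ?_, ?_⟩
    · exact (R.differentiable.analyticAt y).smul hF
    · filter_upwards [hev] with z hz
      rw [Polynomial.eval_mul, mul_smul, hz]
  refine hK.induction_on (p := fun s => ∃ Q : Polynomial ℂ, Q ≠ 0 ∧ ∀ y ∈ s, ∃ F : ℂ → B,
    AnalyticAt ℂ F y ∧ ∀ᶠ z in 𝓝[≠] y, Q.eval z • f z = F z) ?_ ?_ ?_ ?_
  · exact ⟨1, one_ne_zero, by simp⟩
  · rintro s t hst ⟨Q, hQ, h⟩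
    exact ⟨Q, hQ, fun y hy => h y (hst hy)⟩
  · rintro s t ⟨Q, hQ, h⟩ ⟨R, hR, h'⟩
    refine ⟨R * Q, mul_ne_zero hR hQ, ?_⟩
    rintro y (hy | hy)
    · exact key Q R y (h y hy)
    · rw [mul_comm]; exact key R Q y (h' y hy)
  · intro y hy
    obtain ⟨n, hn⟩ := hf y hy
    have h1 : ∀ᶠ z in 𝓝[≠] y, AnalyticAt ℂ f z := (hf y hy).eventually_analyticAt
    rw [eventually_nhdsWithin_iff] at h1
    refine ⟨{z | z ∈ ({y} : Set ℂ)ᶜ → AnalyticAt ℂ f z}, mem_nhdsWithin_of_mem_nhds h1,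
      (Polynomial.X - Polynomial.C y) ^ n, pow_ne_zero _ (Polynomial.X_sub_C_ne_zero y), ?_⟩
    intro z hz
    by_cases hzy : z = y
    · subst hzy
      refine ⟨_, hn, ?_⟩
      filter_upwards with w
      simp
    · refine ⟨fun w => ((Polynomial.X - Polynomial.C y) ^ n).eval w • f w, ?_, ?_⟩
      · exact (Polynomial.differentiable _ |>.analyticAt z).smul (hz hzy)
      · exact Eventually.of_forall fun _ => rfl

lemma exists_ext {K : Set ℂ} {f : ℂ → B} (hf : ∀ y ∈ K, ∃ F : ℂ → B, AnalyticAt ℂ F y ∧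
      ∀ᶠ z in 𝓝[≠] y, f z = F z) :
    ∃ F : ℂ → B, ∀ y ∈ K, AnalyticAt ℂ F y ∧ ∀ᶠ z in 𝓝[≠] y, f z = F z := by
  refine ⟨fun z => limUnder (𝓝[≠] z) f, fun y hy => ?_⟩
  obtain ⟨F, hF, hev⟩ := hf y hy
  -- near y, the limit is F
  have hlim : ∀ z, AnalyticAt ℂ F z → (∀ᶠ w in 𝓝[≠] z, f w = F w) →
      limUnder (𝓝[≠] z) f = F z := by
    intro z hz hw
    refine Tendsto.limUnder_eq ?_
    have h1 : Tendsto F (𝓝[≠] z) (𝓝 (F z)) := hz.continuousAt.tendsto.mono_left nhdsWithin_le_nhds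
    exact h1.congr' (hw.mono fun w h => h.symm)
  have h1 : ∀ᶠ z in 𝓝 y, z ≠ y → f z = F z := eventually_nhdsWithin_iff.1 hev
  have heq : (fun z => limUnder (𝓝[≠] z) f) =ᶠ[𝓝 y] F := by
    filter_upwards [h1.eventually_nhds, hF.eventually_analyticAt] with z hz hFz
    refine hlim z hFz ?_
    by_cases hzy : z = y
    · rw [hzy]; exact hev
    · have h2 : ∀ᶠ w in 𝓝 z, w ≠ y := isOpen_ne.mem_nhds hzy
      filter_upwards [(hz.and h2).filter_mono nhdsWithin_le_nhds] with w hw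
      exact hw.1 hw.2
  refine ⟨hF.congr heq.symm, ?_⟩
  filter_upwards [hev, heq.filter_mono nhdsWithin_le_nhds] with z h2 h3
  rw [h2]; exact h3.symm

/-- if the singularities of `Q • f` in the closed ball are removable, `f` is analytic on the
sphere and all the moments of `P • f` vanish, then the Cauchy formula holds for `P • f`. -/
lemma cauchy_of_moments {r : ℝ} (hr : 0 < r) {f F : ℂ → B} {P Q : Polynomial ℂ}
    (hF : ∀ y ∈ closedBall (0 : ℂ) r, AnalyticAt ℂ F y)
    (hfF : ∀ y ∈ closedBall (0 : ℂ) r, ContinuousAt f y → Q.eval y • f y = F y)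
    (hfs : ∀ y ∈ sphere (0 : ℂ) r, ContinuousAt f y)
    (hm : ∀ j : ℕ, ∮ z in C(0, r), z ^ j • (P.eval z • f z) = 0)
    {y : ℂ} (hy : y ∈ ball (0 : ℂ) r) (hfy : ContinuousAt f y) (hQy : Q.eval y ≠ 0) :
    P.eval y • f y = (2 * Real.pi * Complex.I : ℂ)⁻¹ • ∮ z in C(0, r), (z - y)⁻¹ • (P.eval z • f z) := by
  have hsph : ∀ z ∈ sphere (0 : ℂ) r, z - y ≠ 0 := by
    intro z hz h
    rw [sub_eq_zero] at h
    rw [h] at hz
    exact absurd (mem_sphere.1 hz) (ne_of_lt (mem_ball.1 hy))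
  have hfc : ContinuousOn f (sphere (0 : ℂ) r) := fun z hz => (hfs z hz).continuousWithinAt
  have hPc : ∀ P : Polynomial ℂ, ContinuousOn (fun z => P.eval z) (sphere (0 : ℂ) r) := fun P =>
    P.continuous.continuousOn
  -- the Cauchy formula for P • F
  have h1 : ∮ z in C(0, r), (z - y)⁻¹ • (P.eval z • F z) = (2 * Real.pi * Complex.I : ℂ) •
      (P.eval y • F y) := by
    have hd : ∀ z ∈ closedBall (0 : ℂ) r, DifferentiableAt ℂ (fun z => P.eval z • F z) z :=
      fun z hz => (P.differentiable z).smul (hF z hz).differentiableAt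
    exact Complex.circleIntegral_sub_inv_smul_of_differentiable_on_off_countable countable_empty hy
      (fun z hz => (hd z hz).continuousAt.continuousWithinAt)
      (fun z hz => hd z (ball_subset_closedBall hz.1))
  -- the divided difference
  obtain ⟨W, hW⟩ := Polynomial.X_sub_C_dvd_sub_C_eval (p := Q) (a := y)
  have hW' : ∀ z, Q.eval z - Q.eval y = (z - y) * W.eval z := by
    intro z
    have := congrArg (Polynomial.eval z) hW
    simpa using this
  have h2 : ∮ z in C(0, r), W.eval z • (P.eval z • f z) = 0 := by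
    have e1 : ∀ z, W.eval z • (P.eval z • f z) =
        ∑ j ∈ Finset.range (W.natDegree + 1), W.coeff j • (z ^ j • (P.eval z • f z)) := by
      intro z
      rw [Polynomial.eval_eq_sum_range, Finset.sum_smul]
      refine Finset.sum_congr rfl fun j _ => ?_
      rw [mul_smul]
    simp_rw [e1]
    rw [circleIntegral.integral_fun_sum]
    · refine Finset.sum_eq_zero fun j _ => ?_
      rw [circleIntegral.integral_smul, hm, smul_zero]
    · intro j _
      refine ContinuousOn.circleIntegrable hr.le ?_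
      exact continuousOn_const.smul ((continuous_pow j).continuousOn.smul ((hPc P).smul hfc))
  -- combine
  have h3 : Q.eval y • ∮ z in C(0, r), (z - y)⁻¹ • (P.eval z • f z) =
      (2 * Real.pi * Complex.I : ℂ) • (P.eval y • F y) := by
    rw [← h1, ← circleIntegral.integral_smul]
    have h4 : (∮ z in C(0, r), (z - y)⁻¹ • (P.eval z • F z)) =
        ∮ z in C(0, r), (Q.eval y • ((z - y)⁻¹ • (P.eval z • f z)) + W.eval z • (P.eval z • f z)) := by
      refine circleIntegral.integral_congr hr.le fun z hz => ?_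
      rw [← hfF z (sphere_subset_closedBall hz) (hfs z hz)]
      have e2 := hW' z
      have e3 : Q.eval z = Q.eval y + (z - y) * W.eval z := by rw [← e2]; ring
      rw [e3]
      simp only [smul_smul, ← add_smul]
      congr 1
      have := hsph z hz
      field_simp
    rw [h4, circleIntegral.integral_add, h2, add_zero]
    · refine ContinuousOn.circleIntegrable hr.le ?_
      refine continuousOn_const.smul (ContinuousOn.smul ?_ ((hPc P).smul hfc))
      exact ContinuousOn.inv₀ (by fun_prop) hsph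
    · refine ContinuousOn.circleIntegrable hr.le ?_
      exact (hPc W).smul ((hPc P).smul hfc)
  have h5 : Q.eval y • f y = F y := hfF y (ball_subset_closedBall hy) hfy
  rw [← h5] at h3
  have h6 : ∀ I₀ : B, Q.eval y • I₀ = (2 * Real.pi * Complex.I : ℂ) • (P.eval y • (Q.eval y • f y)) →
      I₀ = (2 * Real.pi * Complex.I : ℂ) • (P.eval y • f y) := by
    intro I₀ h7
    have h8 := congrArg (fun x => (Q.eval y)⁻¹ • x) h7
    simp only [smul_smul] at h8
    rw [inv_mul_cancel₀ hQy, one_smul] at h8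
    rw [h8, smul_smul]
    congr 1
    field_simp
  rw [h6 _ h3, smul_smul, inv_mul_cancel₀, one_smul]
  simp [Real.pi_ne_zero]

end

end Pool.Agent.Y261.VG
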