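import Mathlib
import Pool.Agent.Y261.VG.TwoVar
import Pool.Agent.Y261.VG.Mero
import Pool.Agent.Y261.VG.PW
import Pool.Agent.Y288.VG.Hankel

set_option autoImplicit false
set_option linter.unusedSectionVars false
set_option linter.style.haveILetI false

open Set Filter Topology Metric
open scoped ContDiff

namespace Pool.Agent.Y261.VG

/-- the punctured-disc-like domain `|t| < ρ`, `|y| < ρ`, `Re t > 0` or `|t| < |y|` -/
def Dom (ρ : ℝ) : Set (ℂ × ℂ) := {q | ‖q.1‖ < ρ ∧ ‖q.2‖ < ρ ∧ (0 < q.1.re ∨ ‖q.1‖ < ‖q.2‖)}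

lemma isOpen_Dom (ρ : ℝ) : IsOpen (Dom ρ) := by
  have h1 : IsOpen {q : ℂ × ℂ | ‖q.1‖ < ρ} := isOpen_lt (by fun_prop) (by fun_prop)
  have h2 : IsOpen {q : ℂ × ℂ | ‖q.2‖ < ρ} := isOpen_lt (by fun_prop) (by fun_prop)
  have h3 : IsOpen {q : ℂ × ℂ | 0 < q.1.re} :=
    isOpen_lt (by fun_prop) (Complex.continuous_re.comp continuous_fst)
  have h4 : IsOpen {q : ℂ × ℂ | ‖q.1‖ < ‖q.2‖} := isOpen_lt (by fun_prop) (by fun_prop)
  exact h1.inter (h2.inter (h3.union h4))

lemma annulus_preconnected {a b : ℝ} (ha : 0 < a) : IsPreconnected {y : ℂ | a < ‖y‖ ∧ ‖y‖ < b} := by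
  have h1 : {y : ℂ | a < ‖y‖ ∧ ‖y‖ < b} = Complex.exp '' {w : ℂ | Real.exp w.re ∈ Ioo a b} := by
    ext y
    constructor
    · rintro ⟨h1, h2⟩
      have hy : y ≠ 0 := by rintro rfl; simp at h1; linarith
      refine ⟨Complex.log y, ?_, Complex.exp_log hy⟩
      have : Real.exp (Complex.log y).re = ‖y‖ := by
        rw [Complex.log_re, Real.exp_log (norm_pos_iff.2 hy)]
      simp only [mem_ofPred_eq, this]; exact ⟨h1, h2⟩
    · rintro ⟨w, hw, rfl⟩
      simp only [mem_ofPred_eq] at hw ⊢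
      rw [Complex.norm_exp]; exact hw
  rw [h1]
  refine IsPreconnected.image ?_ _ Complex.continuous_exp.continuousOn
  have h2 : {w : ℂ | Real.exp w.re ∈ Ioo a b} = Complex.reCLM ⁻¹' (Real.exp ⁻¹' Ioo a b) := rfl
  rw [h2]
  refine Convex.isPreconnected (Convex.affine_preimage (𝕜 := ℝ) (f := Complex.reCLM.toLinearMap.toAffineMap) ?_)
  have h3 : OrdConnected (Real.exp ⁻¹' Ioo a b) := by
    refine Set.OrdConnected.preimage_mono ordConnected_Ioo Real.exp_monotone
  exact h3.convex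

section
variable {B H : Type*} [NormedAddCommGroup B] [NormedSpace ℂ B] [CompleteSpace B]
  [NormedAddCommGroup H] [NormedSpace ℂ H] [CompleteSpace H]
  {ι : H →L[ℂ] B} {p : B →L[ℂ] H}

/-- the polynomial with given coefficients -/
noncomputable def polyOf {N : ℕ} (c : Fin (N + 1) → ℂ) : Polynomial ℂ :=
  ∑ i : Fin (N + 1), Polynomial.C (c i) * Polynomial.X ^ (i : ℕ)

lemma polyOf_eval {N : ℕ} (c : Fin (N + 1) → ℂ) (z : ℂ) :
    (polyOf c).eval z = ∑ i : Fin (N + 1), c i * z ^ (i : ℕ) := by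
  simp [polyOf, Polynomial.eval_finsetSum]

lemma polyOf_ne_zero {N : ℕ} {c : Fin (N + 1) → ℂ} (hc : c ≠ 0) : polyOf c ≠ 0 := by
  intro h
  apply hc
  funext i
  have h1 := congrArg (fun P => Polynomial.coeff P (i : ℕ)) h
  simp only [polyOf, Polynomial.finsetSum_coeff, Polynomial.coeff_C_mul_X_pow,
    Polynomial.coeff_zero] at h1
  rw [Finset.sum_eq_single i] at h1
  · simpa using h1
  · intro j _ hj
    rw [if_neg]
    intro h2
    exact hj (Fin.ext h2.symm)
  · simp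

lemma moment_sum {r : ℝ} (hr : 0 < r) {f : ℂ → B} (hf : ContinuousOn f (sphere 0 r)) {N : ℕ}
    (c : Fin (N + 1) → ℂ) (j : ℕ) :
    ∮ z in C(0, r), z ^ j • ((polyOf c).eval z • f z) =
      ∑ i : Fin (N + 1), c i • ∮ z in C(0, r), z ^ ((i : ℕ) + j) • f z := by
  have e1 : ∀ z, z ^ j • ((polyOf c).eval z • f z) =
      ∑ i : Fin (N + 1), c i • (z ^ ((i : ℕ) + j) • f z) := by
    intro z
    rw [polyOf_eval, Finset.sum_smul, Finset.smul_sum]
    refine Finset.sum_congr rfl fun i _ => ?_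
    simp only [smul_smul]
    congr 1
    ring
  simp_rw [e1]
  rw [circleIntegral.integral_fun_sum]
  · refine Finset.sum_congr rfl fun i _ => ?_
    rw [circleIntegral.integral_smul]
  · intro i _
    refine ContinuousOn.circleIntegrable hr.le ?_
    exact continuousOn_const.smul ((continuous_pow _).continuousOn.smul hf)

/-- What we need for one value of `t`. -/
lemma per_t {r : ℝ} (hr : 0 < r) {f : ℂ → B} {P : ℂ → Prop}
    (hm : ∀ y ∈ closedBall (0 : ℂ) r, MeromorphicAt f y)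
    (hP : ∀ y ∈ closedBall (0 : ℂ) r, P y → AnalyticAt ℂ f y)
    (hs : ∀ y ∈ sphere (0 : ℂ) r, P y) :
    ∃ Q : Polynomial ℂ, Q ≠ 0 ∧ (∀ j : ℕ, ∮ z in C(0, r), z ^ j • (Q.eval z • f z) = 0) ∧
      ∀ R : Polynomial ℂ, (∀ j : ℕ, ∮ z in C(0, r), z ^ j • (R.eval z • f z) = 0) →
        ∀ y ∈ ball (0 : ℂ) r, P y → Q.eval y ≠ 0 →
          R.eval y • f y =
            (2 * Real.pi * Complex.I : ℂ)⁻¹ • ∮ z in C(0, r), (z - y)⁻¹ • (R.eval z • f z) := by
  obtain ⟨Q, hQ, hQf⟩ := exists_poly (isCompact_closedBall (0 : ℂ) r) hm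
  obtain ⟨F, hF⟩ := exists_ext hQf
  have hfF : ∀ y ∈ closedBall (0 : ℂ) r, ContinuousAt f y → Q.eval y • f y = F y := by
    intro y hy hc
    have h1 : Tendsto (fun z => Q.eval z • f z) (𝓝[≠] y) (𝓝 (Q.eval y • f y)) :=
      ((Q.continuous.continuousAt.smul hc).tendsto).mono_left nhdsWithin_le_nhds
    have h2 : Tendsto (fun z => Q.eval z • f z) (𝓝[≠] y) (𝓝 (F y)) :=
      ((hF y hy).1.continuousAt.tendsto.mono_left nhdsWithin_le_nhds).congr'
        ((hF y hy).2.mono fun z hz => hz.symm)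
    exact tendsto_nhds_unique h1 h2
  have hfs : ∀ y ∈ sphere (0 : ℂ) r, ContinuousAt f y := fun y hy =>
    (hP y (sphere_subset_closedBall hy) (hs y hy)).continuousAt
  refine ⟨Q, hQ, fun j => ?_, fun R hR y hy hPy hQy => ?_⟩
  · have h1 : ∮ z in C(0, r), z ^ j • F z = 0 := by
      have hd : ∀ z ∈ closedBall (0 : ℂ) r, DifferentiableAt ℂ (fun z => z ^ j • F z) z :=
        fun z hz => (differentiableAt_pow j).smul (hF z hz).1.differentiableAt
      exact Complex.circleIntegral_eq_zero_of_differentiable_on_off_countable hr.le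
        countable_empty (fun z hz => (hd z hz).continuousAt.continuousWithinAt)
        (fun z hz => hd z (ball_subset_closedBall hz.1))
    rw [← h1]
    refine circleIntegral.integral_congr hr.le fun z hz => ?_
    rw [← hfF z (sphere_subset_closedBall hz) (hfs z hz)]
  · exact cauchy_of_moments hr (fun y hy => (hF y hy).1) hfF hfs hR hy
      (hP y (ball_subset_closedBall hy) hPy).continuousAt hQy

theorem X_main (hpι : ∀ v, p (ι v) = v) {ρ : ℝ} (hρ : 0 < ρ) {S : ℂ × ℂ → Set B}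
    (hloc : ∀ q ∈ Dom ρ, Loc2 ι p S q) :
    ∃ (q : ℕ → ℂ × ℂ) (q' : ℂ × ℂ) (c : ℝ), (∀ n, q n ∈ Dom ρ) ∧ Tendsto q atTop (𝓝 q') ∧
      q'.1.re ≤ 0 ∧ ‖q'.2‖ ≤ ‖q'.1‖ ∧ ∀ n, ∃ w ∈ S (q n), ‖w‖ ≤ c := by
  -- base point
  set ts : ℂ := Complex.I * (ρ / 4 : ℝ) with hts
  have hts_norm : ‖ts‖ = ρ / 4 := by
    rw [hts, norm_mul, Complex.norm_I, one_mul, Complex.norm_real, Real.norm_of_nonneg (by linarith)]
  have hts_re : ts.re = 0 := by simp [hts]
  set q₁ : ℂ × ℂ := (ts, ((ρ / 2 : ℝ) : ℂ)) with hq₁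
  have hq₁n : ‖q₁.2‖ = ρ / 2 := by
    simp only [hq₁, Complex.norm_real]; exact Real.norm_of_nonneg (by linarith)
  have hq₁D : q₁ ∈ Dom ρ := by
    refine ⟨?_, ?_, Or.inr ?_⟩
    · change ‖ts‖ < ρ; linarith
    · linarith
    · rw [hq₁n]; change ‖ts‖ < _; linarith
  -- reduction
  obtain ⟨N, g, h, hN, hqN, -, -, hall⟩ := hloc q₁ hq₁D
  obtain ⟨-, -, -, -, ⟨gi, hgi1, hgi2, hgi3⟩, hS1⟩ := hall q₁ hqN
  have hF1 := toeplitz_fredholm hpι hgi1 hgi2 hgi3
  obtain ⟨X₀, Z₁, hcZ, hcX, C, hCbij, hC⟩ := exists_reduction hpι hgi2 hF1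
  have hG1 : Good C (S q₁) := (good_iff hS1 (inj_of_inv hpι hgi2)).2 hCbij
  -- the slice t = ts
  set A : Set ℂ := {y : ℂ | ρ / 4 < ‖y‖ ∧ ‖y‖ < ρ} with hA
  have hAo : IsOpen A := (isOpen_lt continuous_const continuous_norm).inter
    (isOpen_lt continuous_norm continuous_const)
  have hAD : ∀ y ∈ A, (ts, y) ∈ Dom ρ := by
    rintro y ⟨h1, h2⟩
    exact ⟨by change ‖ts‖ < ρ; linarith, h2, Or.inr (by change ‖ts‖ < ‖y‖; linarith)⟩
  have hAprop := propagate (S := fun y => S (ts, y)) hC hAo (annulus_preconnected (by linarith))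
    (fun y hy => (hloc _ (hAD y hy)).loc1_snd hpι) (y₁ := q₁.2)
    ⟨by rw [hq₁n]; linarith, by rw [hq₁n]; linarith⟩ hG1
  -- a good circle
  obtain ⟨r, hr1, hr2, hrgood⟩ : ∃ r : ℝ, ρ / 4 < r ∧ r < ρ ∧ ∀ y : ℂ, ‖y‖ = r →
      Good C (S (ts, y)) := by
    set K : Set ℂ := {y : ℂ | 3 * ρ / 8 ≤ ‖y‖ ∧ ‖y‖ ≤ ρ / 2} with hK
    have hKc : IsCompact K := by
      have : K = closedBall (0 : ℂ) (ρ / 2) ∩ {y | 3 * ρ / 8 ≤ ‖y‖} := by
        ext y; simp [hK, and_comm]
      rw [this]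
      exact (isCompact_closedBall _ _).inter_right (isClosed_le continuous_const continuous_norm)
    have hKA : K ⊆ A := by
      rintro y ⟨h1, h2⟩; exact ⟨by linarith, by linarith⟩
    have hfin := finite_bad hKc (P := fun y => Good C (S (ts, y)))
      (fun y hy => (hAprop y (hKA hy)).1)
    have hfin2 := hfin.image (fun y : ℂ => ‖y‖)
    have hinf : (Icc (3 * ρ / 8) (ρ / 2)).Infinite := Icc_infinite (by linarith)
    obtain ⟨r, hrI, hrn⟩ := hinf.exists_notMem_finite hfin2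
    refine ⟨r, by linarith [hrI.1], by linarith [hrI.2], fun y hy => ?_⟩
    by_contra hb
    exact hrn ⟨y, ⟨⟨by rw [hy]; exact hrI.1, by rw [hy]; exact hrI.2⟩, hb⟩, hy⟩
  have hr0 : 0 < r := by linarith
  -- open set of good points
  set W : Set (ℂ × ℂ) := {q | q ∈ Dom ρ ∧ Good C (S q)} with hW
  have hWo : IsOpen W := by
    rw [isOpen_iff_mem_nhds]
    rintro q ⟨h1, h2⟩
    filter_upwards [(isOpen_Dom ρ).mem_nhds h1, ((hloc q h1).cont_sol hpι h2).1] with q' h3 h4
    exact ⟨h3, h4⟩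
  have hWc : ContinuousOn (fun q => sol C (S q)) W := fun q hq =>
    ((hloc q hq.1).cont_sol hpι hq.2).2.continuousWithinAt
  have hcirc : ({ts} : Set ℂ) ×ˢ sphere (0 : ℂ) r ⊆ W := by
    rintro ⟨t, y⟩ ⟨ht, hy⟩
    have ht' : t = ts := ht
    have hy' : ‖y‖ = r := by simpa using hy
    subst ht'
    exact ⟨hAD y ⟨by linarith, by linarith⟩, hrgood y hy'⟩
  obtain ⟨U', V', hU'o, hV'o, htU', hV's, hUV⟩ := generalized_tube_lemma isCompact_singleton
    (isCompact_sphere (0 : ℂ) r) hWo hcirc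
  obtain ⟨δ, hδ, hδU⟩ := Metric.nhds_basis_closedBall.mem_iff.1 (hU'o.mem_nhds (htU' rfl))
  set U : Set ℂ := ball ts δ with hU
  have hUW : closedBall ts δ ×ˢ sphere (0 : ℂ) r ⊆ W := fun q hq =>
    hUV ⟨hδU hq.1, hV's hq.2⟩
  have hUW' : ∀ t ∈ closedBall ts δ, ∀ y : ℂ, ‖y‖ = r → (t, y) ∈ W := fun t ht y hy =>
    hUW ⟨ht, by simpa using hy⟩
  -- the function f
  let f : ℂ → ℂ → B := fun t y => sol C (S (t, y))
  have hrr : ‖((r : ℝ) : ℂ)‖ = r := by
    rw [Complex.norm_real]; exact Real.norm_of_nonneg hr0.le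
  -- continuity on the circle
  have hfc : ∀ t ∈ closedBall ts δ, ContinuousOn (f t) (sphere 0 r) := by
    intro t ht
    refine hWc.comp (f := fun y : ℂ => (t, y)) (by fun_prop) fun y hy => ?_
    exact hUW' t ht y (by simpa using hy)
  -- moments
  let a : ℕ → ℂ → B := fun j t => ∮ z in C(0, r), z ^ j • f t z
  have ha : ∀ j, DifferentiableOn ℂ (a j) U := by
    intro j
    have h1 := differentiableOn_paramIntegral (W := B) (a := 0) (b := 2 * Real.pi)
      (by positivity) (U := U) isOpen_ball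
      (k := fun θ t => deriv (circleMap 0 r) θ • ((circleMap 0 r θ) ^ j • f t (circleMap 0 r θ)))
      ?_ ?_
    · exact h1
    · have e1 : deriv (circleMap 0 r) = fun θ => circleMap 0 r θ * Complex.I := by ext; simp
      have hcm : Continuous (fun q : ℝ × ℂ => circleMap 0 r q.1) := by fun_prop
      rw [e1]
      refine ContinuousOn.smul (by fun_prop) (ContinuousOn.smul (by fun_prop) ?_)
      refine hWc.comp (f := fun q : ℝ × ℂ => (q.2, circleMap 0 r q.1)) (by fun_prop) fun q hq => ?_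
      exact hUW' _ (ball_subset_closedBall hq.2) _ (by simp [abs_of_pos hr0])
    · intro θ _
      have hn : ‖circleMap 0 r θ‖ = r := by simp [abs_of_pos hr0]
      have h2 := propagate (S := fun t => S (t, circleMap 0 r θ)) hC (D := U) isOpen_ball
        (convex_ball ts δ).isPreconnected
        (fun t ht => (hloc _ (hUW' t (ball_subset_closedBall ht) _ hn).1).loc1_fst hpι)
        (y₁ := ts) (mem_ball_self hδ) (hUW' ts (mem_closedBall_self hδ.le) _ hn).2
      intro t ht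
      have h3 := (h2 t ht).2.2 (hUW' t (ball_subset_closedBall ht) _ hn).2
      exact ((h3.differentiableAt.const_smul _).const_smul _).differentiableWithinAt
  -- the region Re t > 0
  set G : Set ℂ := U ∩ {t : ℂ | 0 < t.re} with hGdef
  have hGo : IsOpen G := isOpen_ball.inter (isOpen_lt continuous_const Complex.continuous_re)
  have htlt : ∀ t ∈ closedBall ts δ, ‖t‖ < ρ := fun t ht => (hUW' t ht r hrr).1.1
  have hGprop : ∀ t ∈ G, ∀ y ∈ ball (0 : ℂ) ρ, (∀ᶠ y' in 𝓝[≠] y, Good C (S (t, y'))) ∧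
      MeromorphicAt (f t) y ∧ (Good C (S (t, y)) → AnalyticAt ℂ (f t) y) := by
    intro t ht
    have htD : ∀ y ∈ ball (0 : ℂ) ρ, (t, y) ∈ Dom ρ := fun y hy =>
      ⟨htlt t (ball_subset_closedBall ht.1), by simpa using hy, Or.inl ht.2⟩
    exact propagate (S := fun y => S (t, y)) hC (D := ball (0 : ℂ) ρ) isOpen_ball
      (convex_ball 0 ρ).isPreconnected (fun y hy => (hloc _ (htD y hy)).loc1_snd hpι)
      (y₁ := (r : ℂ)) (by rw [mem_ball_zero_iff, hrr]; exact hr2)
      (hUW' t (ball_subset_closedBall ht.1) r hrr).2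
  have hper : ∀ t ∈ G, ∃ Q : Polynomial ℂ, Q ≠ 0 ∧
      (∀ j : ℕ, ∮ z in C(0, r), z ^ j • (Q.eval z • f t z) = 0) ∧
      ∀ R : Polynomial ℂ, (∀ j : ℕ, ∮ z in C(0, r), z ^ j • (R.eval z • f t z) = 0) →
        ∀ y ∈ ball (0 : ℂ) r, Good C (S (t, y)) → Q.eval y ≠ 0 →
          R.eval y • f t y =
            (2 * Real.pi * Complex.I : ℂ)⁻¹ • ∮ z in C(0, r), (z - y)⁻¹ • (R.eval z • f t z) := by
    intro t ht
    have hsub : closedBall (0 : ℂ) r ⊆ ball 0 ρ := closedBall_subset_ball hr2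
    exact per_t hr0 (P := fun y => Good C (S (t, y))) (fun y hy => (hGprop t ht y (hsub hy)).2.1)
      (fun y hy => (hGprop t ht y (hsub hy)).2.2)
      (fun y hy => (hUW' t (ball_subset_closedBall ht.1) y (by simpa using hy)).2)
  -- the Hankel lemma
  have hpos : ∀ s : ℝ, 0 < s → s < δ → ts + (s : ℂ) ∈ G := by
    intro s hs hs'
    refine ⟨?_, ?_⟩
    · simp only [hU, mem_ball, dist_self_add_left, Complex.norm_real]
      rwa [Real.norm_of_nonneg hs.le]
    · change 0 < (ts + (s : ℂ)).re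
      rw [Complex.add_re, hts_re]; simpa using hs
  obtain ⟨N, hN'⟩ := Pool.Agent.Y288.VG.hankel_baire (U := U) (G := G) isOpen_ball (convex_ball ts δ).isPreconnected
    hGo inter_subset_left ⟨_, hpos (δ / 2) (by linarith) (by linarith)⟩ a ha (by
      intro t ht
      obtain ⟨Q, hQ, hQm, -⟩ := hper t ht
      refine ⟨Q.natDegree, fun i => Q.coeff i, ?_, fun j => ?_⟩
      · intro h0
        have := congrFun h0 (Fin.last _)
        simp only [Fin.val_last, Polynomial.coeff_natDegree, Pi.zero_apply,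
          Polynomial.leadingCoeff_eq_zero] at this
        exact hQ this
      · have e1 := moment_sum hr0 (hfc t (ball_subset_closedBall ht.1))
          (fun i : Fin (Q.natDegree + 1) => Q.coeff i) j
        have e2 : polyOf (fun i : Fin (Q.natDegree + 1) => Q.coeff i) = Q := by
          rw [polyOf, Finset.sum_range (fun i => Polynomial.C (Q.coeff i) * Polynomial.X ^ i) |>.symm]
          exact Q.as_sum_range_C_mul_X_pow.symm
        rw [e2, hQm] at e1
        exact e1.symm)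
  -- the sequence
  let tn : ℕ → ℂ := fun n => ts + ((δ / (n + 2) : ℝ) : ℂ)
  have htnG : ∀ n, tn n ∈ G := by
    intro n
    have h2 : (0 : ℝ) < (n : ℝ) + 2 := by positivity
    refine hpos _ (by positivity) ?_
    rw [div_lt_iff₀ h2]
    have : (0 : ℝ) ≤ n := Nat.cast_nonneg n
    nlinarith
  have htnlim : Tendsto tn atTop (𝓝 ts) := by
    have h1 : Tendsto (fun n : ℕ => δ / ((n : ℝ) + 2)) atTop (𝓝 0) := by
      refine Tendsto.div_atTop tendsto_const_nhds ?_
      exact tendsto_atTop_add_const_right _ _ tendsto_natCast_atTop_atTop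
    have h2 : Tendsto (fun n : ℕ => ts + ((δ / ((n : ℝ) + 2) : ℝ) : ℂ)) atTop (𝓝 (ts + ((0 : ℝ) : ℂ))) :=
      tendsto_const_nhds.add ((Complex.continuous_ofReal.tendsto 0).comp h1)
    rw [Complex.ofReal_zero, add_zero] at h2
    exact h2
  -- normalised coefficients
  have hcn : ∀ n, ∃ c : Fin (N + 1) → ℂ, ‖c‖ = 1 ∧
      ∀ j : ℕ, ∮ z in C(0, r), z ^ j • ((polyOf c).eval z • f (tn n) z) = 0 := by
    intro n
    obtain ⟨c, hc, hcj⟩ := hN' (tn n) (htnG n).1
    refine ⟨((‖c‖⁻¹ : ℝ) : ℂ) • c, ?_, fun j => ?_⟩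
    · rw [norm_smul, Complex.norm_real, norm_inv, norm_norm, inv_mul_cancel₀ (norm_ne_zero_iff.2 hc)]
    · rw [moment_sum hr0 (hfc _ (ball_subset_closedBall (htnG n).1))]
      simp only [Pi.smul_apply, smul_eq_mul, mul_smul]
      rw [← Finset.smul_sum, hcj j, smul_zero]
  choose c hc1 hcm using hcn
  obtain ⟨cs, hcs, φ, hφ, hφlim⟩ := (isCompact_sphere (0 : Fin (N + 1) → ℂ) 1).tendsto_subseq
    (x := c) (fun n => by simpa using hc1 n)
  have hcs0 : cs ≠ 0 := by
    rintro rfl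
    simp at hcs
  choose Q hQ0 hQm hQc using fun n => hper (tn n) (htnG n)
  -- choose the point
  have hcount : ((⋃ n, {y | y ∈ closedBall (0 : ℂ) (ρ / 8) ∧ ¬ Good C (S (tn n, y))}) ∪
      (⋃ n, {y | (Q n).eval y = 0}) ∪ {y | (polyOf cs).eval y = 0}).Countable := by
    refine Countable.union (Countable.union (countable_iUnion fun n => ?_)
      (countable_iUnion fun n => ?_)) ?_
    · refine (finite_bad (isCompact_closedBall (0 : ℂ) (ρ / 8))
        (P := fun y => Good C (S (tn n, y))) fun y hy => ?_).countable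
      exact (hGprop _ (htnG n) y (closedBall_subset_ball (by linarith) hy)).1
    · exact (Polynomial.finite_setOfPred_isRoot (hQ0 n)).countable
    · exact (Polynomial.finite_setOfPred_isRoot (polyOf_ne_zero hcs0)).countable
  obtain ⟨ys, hysn, hysb⟩ := (hcount.dense_compl ℂ).exists_mem_open (isOpen_ball (x := (0 : ℂ))
    (ε := ρ / 8)) ⟨0, mem_ball_self (by linarith)⟩
  have hys8 : ‖ys‖ < ρ / 8 := by simpa using hysb
  have hgood : ∀ n, Good C (S (tn n, ys)) := by
    intro n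
    by_contra hb
    exact hysn (Or.inl (Or.inl (mem_iUnion.2 ⟨n, ball_subset_closedBall hysb, hb⟩)))
  have hQne : ∀ n, (Q n).eval ys ≠ 0 := fun n hb => hysn (Or.inl (Or.inr (mem_iUnion.2 ⟨n, hb⟩)))
  have hcsne : (polyOf cs).eval ys ≠ 0 := fun hb => hysn (Or.inr hb)
  -- bounds
  obtain ⟨M, hM⟩ := ((isCompact_closedBall ts δ).prod (isCompact_sphere (0 : ℂ) r)).exists_bound_of_continuousOn
    (hWc.mono hUW)
  have hM0 : 0 ≤ M := (norm_nonneg _).trans (hM (ts, (r : ℂ)) ⟨mem_closedBall_self hδ.le, by simp [abs_of_pos hr0]⟩)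
  set M' : ℝ := ∑ i : Fin (N + 1), r ^ (i : ℕ) with hM'
  have hM'0 : 0 ≤ M' := Finset.sum_nonneg fun i _ => by positivity
  have hpoly : ∀ n, ∀ z ∈ sphere (0 : ℂ) r, ‖(polyOf (c n)).eval z‖ ≤ M' := by
    intro n z hz
    rw [polyOf_eval]
    refine (norm_sum_le _ _).trans (Finset.sum_le_sum fun i _ => ?_)
    rw [norm_mul, norm_pow]
    have h1 : ‖c n i‖ ≤ 1 := (norm_le_pi_norm (c n) i).trans (hc1 n).le
    have h2 : ‖z‖ = r := by simpa using hz
    rw [h2]
    exact mul_le_of_le_one_left (by positivity) h1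
  have hkey : ∀ n, ‖(polyOf (c n)).eval ys‖ * ‖f (tn n) ys‖ ≤ r * ((r - ρ / 8)⁻¹ * (M' * M)) := by
    intro n
    have hysr : ys ∈ ball (0 : ℂ) r := by simpa using hys8.trans (by linarith)
    have h1 := hQc n (polyOf (c n)) (hcm n) ys hysr (hgood n) (hQne n)
    rw [← norm_smul, h1]
    refine circleIntegral.norm_two_pi_i_inv_smul_integral_le_of_norm_le_const hr0.le fun z hz => ?_
    rw [norm_smul, norm_smul, norm_inv]
    have h2 : ‖z‖ = r := by simpa using hz
    have h3 : r - ρ / 8 ≤ ‖z - ys‖ := by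
      have := norm_sub_norm_le z ys
      rw [h2] at this
      linarith
    have h4 : ‖f (tn n) z‖ ≤ M := hM (tn n, z) ⟨ball_subset_closedBall (htnG n).1, hz⟩
    have h5 : (0 : ℝ) < r - ρ / 8 := by linarith
    gcongr
    exact hpoly n z hz
  have hlimP : Tendsto (fun n => (polyOf (c (φ n))).eval ys) atTop (𝓝 ((polyOf cs).eval ys)) := by
    simp only [polyOf_eval]
    refine tendsto_finsetSum _ fun i _ => ?_
    refine Tendsto.mul_const _ ?_
    exact ((continuous_apply i).tendsto cs).comp hφlim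
  have hc0 : 0 < ‖(polyOf cs).eval ys‖ := norm_pos_iff.2 hcsne
  obtain ⟨n₀, hn₀⟩ := eventually_atTop.1 (hlimP.norm.eventually_const_lt (half_lt_self hc0))
  refine ⟨fun n => (tn (φ (n + n₀)), ys), (ts, ys),
    (r * ((r - ρ / 8)⁻¹ * (M' * M))) / (‖(polyOf cs).eval ys‖ / 2), fun n => ?_, ?_, ?_, ?_, ?_⟩
  · exact ⟨htlt _ (ball_subset_closedBall (htnG _).1), by change ‖ys‖ < ρ; linarith,
      Or.inl (htnG _).2⟩
  · have h1 : Tendsto (fun n => tn (φ (n + n₀))) atTop (𝓝 ts) :=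
      htnlim.comp (hφ.tendsto_atTop.comp (tendsto_add_atTop_nat n₀))
    exact h1.prodMk_nhds tendsto_const_nhds
  · change ts.re ≤ 0
    rw [hts_re]
  · change ‖ys‖ ≤ ‖ts‖
    linarith
  · intro n
    refine ⟨f (tn (φ (n + n₀))) ys, sol_mem (hgood _), ?_⟩
    have h1 := hkey (φ (n + n₀))
    have h2 := hn₀ (n + n₀) (by omega)
    rw [le_div_iff₀ (by positivity), mul_comm]
    refine le_trans ?_ h1
    gcongr

end

end Pool.Agent.Y261.VG
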