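import Mathlib
import Pool.Agent.Y261.VG.Geo
import Pool.Agent.Y261.VG.XThm

set_option autoImplicit false
set_option linter.unusedSectionVars false
set_option linter.style.haveILetI false

open Set Filter Topology Metric Complex
open scoped Manifold ContDiff

namespace Pool.Agent.Y261.VG

section
variable {VX : Type*} [NormedAddCommGroup VX] [NormedSpace ℂ VX] {HX : Type*} [TopologicalSpace HX]
  {IX : ModelWithCorners ℂ VX HX} {X : Type*} [TopologicalSpace X] [ChartedSpace HX X]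
  {V : Type*} [NormedAddCommGroup V] [NormedSpace ℂ V] {H : Type*} [TopologicalSpace H]
  {J : ModelWithCorners ℂ V H} {E : Type*} [TopologicalSpace E] [ChartedSpace H E]
  {k : ℕ} {pr : E → X} {𝒜 : Set (Bundle.Trivialization (Fin k → ℂ) pr)}

theorem no_affine (hA : AffAtlas IX J pr 𝒜) (pt : ℂ × (ℂ × ℂ) → X)
    {Ω : Set (ℂ × (ℂ × ℂ))} (hΩ : IsOpen Ω)
    (hpt : ∀ z ∈ Ω, MDifferentiableAt 𝓘(ℂ, ℂ × (ℂ × ℂ)) IX pt z)
    (hDΩ : ∀ (ρ : ℝ) (z : ℂ × (ℂ × ℂ)), z.2 ∈ Dom ρ → z ∈ Ω)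
    (pinf : X)
    (hinf : ∀ W : Set X, IsOpen W → pinf ∈ W → ∃ R₀ > 0, ∃ ρ₀ > 0, ∀ (x : ℂ) (q : ℂ × ℂ),
      R₀ < ‖x‖ → ‖q‖ < ρ₀ → (x, q) ∈ Ω ∧ pt (x, q) ∈ W)
    (hcpt : ∀ S : Set X, IsCompact S → ∀ (ρ : ℝ) (q : ℕ → ℂ × ℂ) (q' : ℂ × ℂ),
      (∀ n, q n ∈ Dom ρ ∧ pt (0, q n) ∈ S) → Tendsto q atTop (𝓝 q') → q'.1.re ≤ 0 →
      ‖q'.2‖ ≤ ‖q'.1‖ → False)
    (hconv : ∀ K : Set E, IsCompact K → IsCompact {p : E | ∀ f : E → ℂ,
      MDifferentiable J 𝓘(ℂ, ℂ) f → ∀ C : ℝ, (∀ z ∈ K, ‖f z‖ ≤ C) → ‖f p‖ ≤ C})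
    (hproj : ∀ {r R : ℝ} (_ : 0 < r) (_ : r < R),
      ∃ p : HS (Anu r R) (Fin k → ℂ) →L[ℂ] HS (Dsk R) (Fin k → ℂ),
        (∀ v, p (restS (Anu_subset_Dsk r R) v) = v) ∧
        ∀ (G : ℂ → ((Fin k → ℂ) →L[ℂ] (Fin k → ℂ))) (U : Set ℂ) (_ : IsOpen U) (hU : Anu r R ⊆ U)
          (hG : DifferentiableOn ℂ G U),
          mulS (mkS (CH_of_open hU hG)) ∈ closure (KK (restS (Anu_subset_Dsk r R)) p)) :
    False := by
  obtain ⟨e, he, hx⟩ := hA.cov pinf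
  obtain ⟨R₀, hR₀, ρ₀, hρ₀, hW⟩ := hinf e.baseSet e.open_baseSet hx
  set ρ := ρ₀ / 2 with hρdef
  have hρ : 0 < ρ := by rw [hρdef]; linarith
  set r := R₀ + 1 with hrdef
  set R := R₀ + 2 with hRdef
  have hr : 0 < r := by rw [hrdef]; linarith
  have hrR : r < R := by rw [hrdef, hRdef]; linarith
  have hR : 0 < R := hr.trans hrR
  obtain ⟨p, hp1, hp2⟩ := hproj hr hrR
  let c := cocycOf hA pt hΩ hpt (isOpen_Dom ρ) (hDΩ ρ)
  let ep : 𝒜 := ⟨e, he⟩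
  have hnorm : ∀ q : ℂ × ℂ, ‖q.1‖ ≤ ρ → ‖q.2‖ ≤ ρ → ‖q‖ < ρ₀ := by
    intro q h1 h2
    rw [Prod.norm_def]
    have : max ‖q.1‖ ‖q.2‖ ≤ ρ := max_le h1 h2
    rw [hρdef] at this
    linarith
  have hAnu : ∀ x ∈ Anu r R, R₀ < ‖x‖ := by
    intro x hx
    have h1 : ¬ (‖x‖ < r) := by
      intro h; exact hx.2 (by simpa using h)
    rw [hrdef] at h1
    linarith
  have hplus : ∀ x ∈ Anu r R, ∀ q ∈ c.D, (x, q) ∈ c.U ep := by
    intro x hx q hq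
    have hq' : q ∈ Dom ρ := hq
    exact hW x q (hAnu x hx) (hnorm q hq'.1.le hq'.2.1.le)
  have hloc : ∀ q ∈ Dom ρ, Loc2 (restS (Anu_subset_Dsk r R)) p (Sx c r R ep) q :=
    fun q hq => loc2_Sx hr hrR hp2 hplus hq
  obtain ⟨q, q', C, hqD, hlim, hre, hle, hw⟩ := X_main hp1 hρ hloc
  choose w hwS hwC using hw
  choose s hs hsw using hwS
  have hdisc := fun n => disc_bound hA pt hΩ hpt (isOpen_Dom ρ) (hDΩ ρ) hR (hqD n) (hs n)
  choose σ hσ1 hσ2 hσ3 using hdisc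
  -- the compact set
  set P : Set (ℂ × (ℂ × ℂ)) := Anu r R ×ˢ (closedBall (0 : ℂ × ℂ) ρ) with hP
  have hPcomp : IsCompact P :=
    (isCompact_iff_compactSpace.2 inferInstance : IsCompact (Anu r R)).prod (isCompact_closedBall _ _)
  have hPW : ∀ z ∈ P, z ∈ Ω ∧ pt z ∈ e.baseSet := by
    intro z hz
    have h1 : ‖z.2‖ ≤ ρ := by simpa using hz.2
    exact hW z.1 z.2 (hAnu _ hz.1) (by rw [hρdef] at h1; linarith)
  let Φ : (ℂ × (ℂ × ℂ)) × (Fin k → ℂ) → E := fun zv => e.toOpenPartialHomeomorph.symm (pt zv.1, zv.2)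
  have hΦ : ContinuousOn Φ (P ×ˢ closedBall (0 : Fin k → ℂ) C) := by
    intro zv hzv
    have h1 : ContinuousAt (fun zv : (ℂ × (ℂ × ℂ)) × (Fin k → ℂ) => (pt zv.1, zv.2)) zv := by
      refine ContinuousAt.prodMk ?_ continuousAt_snd
      exact ContinuousAt.comp (g := pt) (hpt _ (hPW _ hzv.1).1).continuousAt continuousAt_fst
    have h2 : ContinuousAt e.toOpenPartialHomeomorph.symm (pt zv.1, zv.2) :=
      e.toOpenPartialHomeomorph.continuousAt_symm (e.mem_target.2 (hPW _ hzv.1).2)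
    exact (ContinuousAt.comp (g := e.toOpenPartialHomeomorph.symm)
      (f := fun zv : (ℂ × (ℂ × ℂ)) × (Fin k → ℂ) => (pt zv.1, zv.2)) h2 h1).continuousWithinAt
  have hK : IsCompact (Φ '' (P ×ˢ closedBall (0 : Fin k → ℂ) C)) :=
    (hPcomp.prod (isCompact_closedBall _ _)).image_of_continuousOn hΦ
  have hH := hconv _ hK
  set Hl := {p : E | ∀ f : E → ℂ, MDifferentiable J 𝓘(ℂ, ℂ) f → ∀ C' : ℝ,
    (∀ z ∈ Φ '' (P ×ˢ closedBall (0 : Fin k → ℂ) C), ‖f z‖ ≤ C') → ‖f p‖ ≤ C'} with hHl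
  have hmem : ∀ n, σ n 0 ∈ Hl := by
    intro n f hf C' hC'
    refine hσ3 n f hf C' fun x hx => hC' _ ?_
    have hxA : x ∈ Anu r R := by
      refine ⟨by simp [hx], fun h => ?_⟩
      have : ‖x‖ < r := by simpa using h
      linarith
    have hxD : x ∈ Dsk R := Anu_subset_Dsk r R hxA
    have hU := hplus x hxA (q n) (hqD n)
    refine ⟨((x, q n), s n ep x), ⟨⟨hxA, ?_⟩, ?_⟩, ?_⟩
    · rw [mem_closedBall_zero_iff, Prod.norm_def]
      exact max_le (hqD n).1.le (hqD n).2.1.le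
    · rw [mem_closedBall_zero_iff, ← hsw n ⟨x, hxA⟩]
      exact ((w n).norm_apply_le _).trans (hwC n)
    · exact (hσ2 n x hxD ep hU.2).symm
  have hprc : Continuous pr := by
    rw [continuous_iff_continuousAt]
    intro y
    obtain ⟨e', -, hx'⟩ := hA.cov (pr y)
    exact e'.continuousAt_proj (e'.mem_source.2 hx')
  refine hcpt (pr '' Hl) (hH.image hprc) ρ q q' (fun n => ⟨hqD n, ?_⟩) hlim hre hle
  refine ⟨σ n 0, hmem n, hσ1 n 0 ?_⟩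
  simp [Dsk, hR.le]

end

end Pool.Agent.Y261.VG
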