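import Mathlib
import Pool.Agent.H194R3.Cartan.P1
import Pool.Agent.Y261.VG.XThm

set_option autoImplicit false
set_option linter.unusedSectionVars false
set_option linter.style.haveILetI false

open Set Filter Topology Metric Complex
open scoped Manifold ContDiff
open Pool.Agent.H194R3.Cartan

namespace Pool.Agent.Y261.VG

/-! # The space `X = (P¹ × ℂ²) \ ({|x| ≤ 1} × {Re t ≤ 0, |y| ≤ |t|})` -/

/-- the closed set to be removed -/
def BadSet : Set (P1 × (ℂ × ℂ)) :=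
  (P1.coe '' closedBall (0 : ℂ) 1) ×ˢ {q : ℂ × ℂ | q.1.re ≤ 0 ∧ ‖q.2‖ ≤ ‖q.1‖}

lemma isClosed_BadSet : IsClosed BadSet := by
  refine IsClosed.prod ?_ ?_
  · exact ((isCompact_closedBall _ _).image P1.isOpenEmbedding_coe.continuous).isClosed
  · have h1 : IsClosed {q : ℂ × ℂ | q.1.re ≤ 0} :=
      isClosed_le (f := fun q : ℂ × ℂ => q.1.re) (g := fun _ => 0) (by fun_prop) (by fun_prop)
    have h2 : IsClosed {q : ℂ × ℂ | ‖q.2‖ ≤ ‖q.1‖} :=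
      isClosed_le (f := fun q : ℂ × ℂ => ‖q.2‖) (g := fun q => ‖q.1‖) (by fun_prop) (by fun_prop)
    exact h1.inter h2

/-- the open set -/
def XX : TopologicalSpace.Opens (P1 × (ℂ × ℂ)) := ⟨BadSetᶜ, isClosed_BadSet.isOpen_compl⟩

lemma coe_mem_XX {x : ℂ} {q : ℂ × ℂ} :
    (P1.coe x, q) ∈ XX ↔ ¬ (‖x‖ ≤ 1 ∧ q.1.re ≤ 0 ∧ ‖q.2‖ ≤ ‖q.1‖) := by
  change (P1.coe x, q) ∉ BadSet ↔ _
  rw [BadSet, mem_prod, P1.isOpenEmbedding_coe.injective.mem_set_image]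
  simp

lemma inf_mem_XX (q : ℂ × ℂ) : (P1.inf, q) ∈ XX := by
  change (P1.inf, q) ∉ BadSet
  rintro ⟨⟨z, -, hz⟩, -⟩
  exact P1.coe_ne_inf z hz

noncomputable instance instChartedXX : ChartedSpace (ℂ × (ℂ × ℂ)) XX :=
  inferInstanceAs (ChartedSpace (ModelProd ℂ (ℂ × ℂ)) XX)

instance instManifoldXX : IsManifold 𝓘(ℂ, ℂ × (ℂ × ℂ)) ω XX := by
  have h : IsManifold (𝓘(ℂ, ℂ).prod 𝓘(ℂ, ℂ × ℂ)) ω XX := inferInstance
  rw [← modelWithCornersSelf_prod] at h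
  exact h

instance : SecondCountableTopology P1 := ChartedSpace.secondCountable_of_sigmaCompact ℂ P1

instance : SecondCountableTopology XX := inferInstance

instance : T2Space XX := inferInstance

/-- the base point at infinity -/
noncomputable def pinf : XX := ⟨(P1.inf, 0), inf_mem_XX 0⟩

/-- the domain of the affine coordinates -/
def Om : Set (ℂ × (ℂ × ℂ)) := {z | (P1.coe z.1, z.2) ∈ XX}

lemma isOpen_Om : IsOpen Om := by
  have hc : Continuous (fun z : ℂ × (ℂ × ℂ) => ((P1.coe z.1, z.2) : P1 × (ℂ × ℂ))) :=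
    (P1.isOpenEmbedding_coe.continuous.comp continuous_fst).prodMk continuous_snd
  exact XX.isOpen.preimage hc

open Classical in
/-- affine coordinates -/
noncomputable def ptX (z : ℂ × (ℂ × ℂ)) : XX := if h : (P1.coe z.1, z.2) ∈ XX then ⟨_, h⟩ else pinf

lemma ptX_val {z : ℂ × (ℂ × ℂ)} (hz : z ∈ Om) : (ptX z : P1 × (ℂ × ℂ)) = (P1.coe z.1, z.2) := by
  have h : (P1.coe z.1, z.2) ∈ XX := hz
  simp [ptX, h]

lemma contMDiff_coe : ContMDiff 𝓘(ℂ, ℂ) 𝓘(ℂ, ℂ) ω P1.coe := by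
  have h1 : P1.chartZero ∈ IsManifold.maximalAtlas 𝓘(ℂ, ℂ) ω P1 :=
    IsManifold.subset_maximalAtlas (Or.inl rfl)
  have h2 := contMDiffOn_symm_of_mem_maximalAtlas h1
  rw [P1.chartZero_target, contMDiffOn_univ] at h2
  exact h2.congr fun z => (P1.chartZero_symm z).symm

lemma mdiff_ptX (z : ℂ × (ℂ × ℂ)) (hz : z ∈ Om) :
    MDifferentiableAt 𝓘(ℂ, ℂ × (ℂ × ℂ)) 𝓘(ℂ, ℂ × (ℂ × ℂ)) ptX z := by
  have h1 : ContMDiffAt 𝓘(ℂ, ℂ × (ℂ × ℂ)) (𝓘(ℂ, ℂ).prod 𝓘(ℂ, ℂ × ℂ)) ∞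
      (fun z : ℂ × (ℂ × ℂ) => ((P1.coe z.1, z.2) : P1 × (ℂ × ℂ))) z := by
    refine ContMDiffAt.prodMk ?_ ?_
    · exact (contMDiff_coe.of_le le_top).contMDiffAt.comp z (contDiff_fst.contMDiff.contMDiffAt)
    · exact contDiff_snd.contMDiff.contMDiffAt
  have h2 : ContMDiffAt 𝓘(ℂ, ℂ × (ℂ × ℂ)) (𝓘(ℂ, ℂ).prod 𝓘(ℂ, ℂ × ℂ)) ∞
      (Subtype.val ∘ ptX) z := by
    refine h1.congr_of_eventuallyEq ?_
    filter_upwards [isOpen_Om.mem_nhds hz] with z' hz'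
    exact ptX_val hz'
  have h3 : ContMDiffAt 𝓘(ℂ, ℂ × (ℂ × ℂ)) (𝓘(ℂ, ℂ).prod 𝓘(ℂ, ℂ × ℂ)) ∞ ptX z :=
    (ContMDiffAt.subtypeVal_comp_iff XX ptX z).1 h2
  have h4 := h3.mdifferentiableAt (by simp)
  rw [← modelWithCornersSelf_prod] at h4
  exact h4

lemma Dom_Om (ρ : ℝ) (z : ℂ × (ℂ × ℂ)) (hz : z.2 ∈ Dom ρ) : z ∈ Om := by
  change (P1.coe z.1, z.2) ∈ XX
  rw [coe_mem_XX]
  rintro ⟨-, h1, h2⟩
  rcases hz.2.2 with h | h
  · linarith
  · linarith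

lemma nhds_pinf (W : Set XX) (hW : IsOpen W) (hp : pinf ∈ W) :
    ∃ R₀ > 0, ∃ ρ₀ > 0, ∀ (x : ℂ) (q : ℂ × ℂ),
      R₀ < ‖x‖ → ‖q‖ < ρ₀ → (x, q) ∈ Om ∧ ptX (x, q) ∈ W := by
  obtain ⟨O, hO, rfl⟩ := isOpen_induced_iff.1 hW
  have h1 : ((P1.inf, 0) : P1 × (ℂ × ℂ)) ∈ O := hp
  obtain ⟨O₁, hO₁, O₂, hO₂, hsub⟩ := mem_nhds_prod_iff.1 (hO.mem_nhds h1)
  obtain ⟨ρ₀, hρ₀, hball⟩ := Metric.mem_nhds_iff.1 hO₂
  have h2 : Tendsto P1.coe (Bornology.cobounded ℂ) (𝓝 P1.inf) := by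
    have h3 : Tendsto P1.coe (Filter.coclosedCompact ℂ) (𝓝 P1.inf) := OnePoint.tendsto_coe_infty
    rwa [Filter.coclosedCompact_eq_cocompact, ← Metric.cobounded_eq_cocompact] at h3
  obtain ⟨R, -, hR⟩ := (Filter.hasBasis_cobounded_norm (E := ℂ)).mem_iff.1 (h2 hO₁)
  refine ⟨max R 1, by positivity, ρ₀, hρ₀, fun x q hx hq => ?_⟩
  have hxR : R < ‖x‖ := (le_max_left _ _).trans_lt hx
  have hx1 : 1 < ‖x‖ := (le_max_right _ _).trans_lt hx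
  have hOm : (x, q) ∈ Om := by
    change (P1.coe x, q) ∈ XX
    rw [coe_mem_XX]
    rintro ⟨h, -⟩
    linarith
  refine ⟨hOm, ?_⟩
  change (ptX (x, q) : P1 × (ℂ × ℂ)) ∈ O
  rw [ptX_val hOm]
  exact hsub ⟨hR hxR.le, hball (by simpa using hq)⟩

lemma compact_X (S : Set XX) (hS : IsCompact S) (ρ : ℝ) (q : ℕ → ℂ × ℂ) (q' : ℂ × ℂ)
    (hq : ∀ n, q n ∈ Dom ρ ∧ ptX (0, q n) ∈ S) (hlim : Tendsto q atTop (𝓝 q'))
    (hre : q'.1.re ≤ 0) (hle : ‖q'.2‖ ≤ ‖q'.1‖) : False := by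
  have h1 : IsClosed ((fun x : XX => (x : P1 × (ℂ × ℂ))) '' S) :=
    (hS.image continuous_subtype_val).isClosed
  have h2 : Tendsto (fun n => ((P1.coe 0, q n) : P1 × (ℂ × ℂ))) atTop (𝓝 (P1.coe 0, q')) :=
    tendsto_const_nhds.prodMk_nhds hlim
  have h3 := h1.mem_of_tendsto h2 (Eventually.of_forall fun n =>
    ⟨ptX (0, q n), (hq n).2, ptX_val (Dom_Om ρ _ (hq n).1)⟩)
  obtain ⟨y, -, hy⟩ := h3
  have h4 : (P1.coe 0, q') ∈ XX := by rw [← hy]; exact y.2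
  rw [coe_mem_XX] at h4
  exact h4 ⟨by simp, hre, hle⟩

lemma isConnected_outer : IsConnected ((P1.coe '' closedBall (0 : ℂ) 1)ᶜ) := by
  have h1 : (P1.coe '' closedBall (0 : ℂ) 1)ᶜ = P1.inversion '' (P1.coe '' ball (0 : ℂ) 1) := by
    ext x
    constructor
    · intro hx
      refine ⟨P1.inversion x, ?_, P1.inversion_inversion x⟩
      rcases P1.cases x with rfl | ⟨z, rfl⟩
      · exact ⟨0, by simp, by simp⟩
      · have hz : 1 < ‖z‖ := by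
          by_contra h
          exact hx ⟨z, by simpa using h, rfl⟩
        have hz0 : z ≠ 0 := by rintro rfl; simp at hz; linarith
        refine ⟨z⁻¹, ?_, (P1.inversion_of_ne hz0).symm⟩
        rw [mem_ball_zero_iff, norm_inv]
        exact inv_lt_one_of_one_lt₀ hz
    · rintro ⟨_, ⟨w, hw, rfl⟩, rfl⟩ ⟨z, hz, hzw⟩
      by_cases hw0 : w = 0
      · subst hw0
        rw [P1.inversion_zero] at hzw
        exact P1.coe_ne_inf z hzw
      · rw [P1.inversion_of_ne hw0] at hzw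
        have := P1.isOpenEmbedding_coe.injective hzw
        subst this
        rw [mem_ball_zero_iff] at hw
        rw [mem_closedBall_zero_iff, norm_inv] at hz
        have h2 := one_lt_inv₀ (norm_pos_iff.2 hw0) |>.2 hw
        linarith
  rw [h1]
  refine ((Metric.isConnected_ball (by norm_num)).image _ ?_).image _ ?_
  · exact P1.isOpenEmbedding_coe.continuous.continuousOn
  · exact P1.continuous_inversion.continuousOn

instance instConnectedXX : ConnectedSpace XX := by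
  refine isConnected_iff_connectedSpace.1 (?_ : IsConnected (XX : Set (P1 × (ℂ × ℂ))))
  set C₀ : Set P1 := (P1.coe '' closedBall (0 : ℂ) 1)ᶜ with hC₀
  have hinfC : P1.inf ∈ C₀ := by
    rintro ⟨z, -, hz⟩
    exact P1.coe_ne_inf z hz
  have hcon : IsConnected (C₀ ×ˢ (univ : Set (ℂ × ℂ))) := isConnected_outer.prod isConnected_univ
  refine ⟨⟨(P1.inf, 0), inf_mem_XX 0⟩, ?_⟩
  refine isPreconnected_of_forall (P1.inf, 0) fun y hy => ?_
  by_cases hy1 : y.1 ∈ C₀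
  · refine ⟨C₀ ×ˢ univ, ?_, ⟨hinfC, trivial⟩, ⟨hy1, trivial⟩, hcon.isPreconnected⟩
    intro z hz hbad
    exact hz.1 hbad.1
  · refine ⟨(C₀ ×ˢ univ) ∪ (univ ×ˢ {y.2}), ?_, Or.inl ⟨hinfC, trivial⟩, Or.inr ⟨trivial, rfl⟩, ?_⟩
    · rintro z (hz | hz) hbad
      · exact hz.1 hbad.1
      · have hz2 : z.2 = y.2 := hz.2
        refine hy ⟨?_, ?_⟩
        · by_contra h; exact hy1 h
        · rw [← hz2]; exact hbad.2
    · refine IsPreconnected.union (P1.inf, y.2) ⟨hinfC, trivial⟩ ⟨trivial, rfl⟩ hcon.isPreconnected ?_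
      exact (isPreconnected_univ).prod isPreconnected_singleton

end Pool.Agent.Y261.VG
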